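import Mathlib

set_option linter.all false

namespace Pool.H110K2

open MeasureTheory Set Filter Topology
open scoped ENNReal NNReal symmDiff

/-- the ordered abelian group `ℤ × ℚ` with the lexicographic order -/
abbrev Lam := Lex (ℤ × ℚ)

/-- `a k w` is the successor of `w` in `B` along the orbit -/
def IsSucc {W : Type*} (a : Lam → W → W) (B : Set W) (w : W) (k : Lam) : Prop :=
  0 < k ∧ a k w ∈ B ∧ ∀ j, 0 < j → j < k → a j w ∉ B

/-- `a (-k) w` is the predecessor of `w` in `B` along the orbit -/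
def IsPred {W : Type*} (a : Lam → W → W) (B : Set W) (w : W) (k : Lam) : Prop :=
  0 < k ∧ a (-k) w ∈ B ∧ ∀ j, 0 < j → j < k → a (-j) w ∉ B

/-- points of `B` whose predecessor in `B` lies in `D` -/
def NB {W : Type*} (a : Lam → W → W) (B D : Set W) : Set W :=
  {w | w ∈ B ∧ ∃ k, IsPred a B w k ∧ a (-k) w ∈ D}

/-- a measure preserving free recurrent action of `Lam` -/
structure Sys {W : Type*} [MeasurableSpace W] (m : Measure W) (a : Lam → W → W) : Prop where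
  meas : ∀ k, Measurable (a k)
  zero : ∀ w, a 0 w = w
  add : ∀ k l w, a (k + l) w = a k (a l w)
  mp : ∀ k, MeasurePreserving (a k) m m
  free : ∀ᵐ w ∂m, ∀ k, a k w = w → k = 0
  fin : ∀ B, MeasurableSet B → m B ≠ ⊤ →
    ∀ᵐ w ∂m, ∀ k l, {j | k ≤ j ∧ j ≤ l ∧ a j w ∈ B}.Finite
  up : ∀ B, MeasurableSet B → m B ≠ 0 → ∀ᵐ w ∂m, ∀ k, ∃ l, k < l ∧ a l w ∈ B
  down : ∀ B, MeasurableSet B → m B ≠ 0 → ∀ᵐ w ∂m, ∀ k, ∃ l, l < k ∧ a l w ∈ B

/-- a (base, labelling) pair -/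
structure IsCode {W X : Type*} [MeasurableSpace W] [MeasurableSpace X]
    (m : Measure W) (μ : Measure X) (B : Set W) (θ : W → X) : Prop where
  measB : MeasurableSet B
  measθ : Measurable θ
  pos : m B ≠ 0
  fin : m B ≠ ⊤
  push : ∀ E, MeasurableSet E → m (B ∩ θ ⁻¹' E) = m B * μ E
  inj : ∃ N, MeasurableSet N ∧ N ⊆ B ∧ m (B \ N) = 0 ∧ InjOn θ N

/-- index set of the countable algebra of cylinders -/
abbrev Idx := Σ n : ℕ, Finset (Fin n → Bool)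

def Cyl {X : Type*} [MeasurableSpace X] (e : X ≃ᵐ (ℕ → Bool)) (i : Idx) : Set X :=
  {x | (fun k : Fin i.1 => e x k) ∈ i.2}

/-- normalised correlation numbers of a pair `(B, θ)` -/
noncomputable def tt {W X : Type*} [MeasurableSpace W] [MeasurableSpace X] (m : Measure W)
    (a : Lam → W → W) (e : X ≃ᵐ (ℕ → Bool)) (B : Set W) (θ : W → X) : Idx × Idx → ℝ :=
  fun ij => (m (NB a B (B ∩ θ ⁻¹' Cyl e ij.1) ∩ θ ⁻¹' Cyl e ij.2)).toReal / (m B).toReal

def KK : Set (ℝ × ℝ) := {((0:ℝ),(0:ℝ)), ((1:ℝ),(0:ℝ)), ((1:ℝ),(1:ℝ))}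

/-- the Polish space of codes -/
abbrev Code {W : Type*} [MeasurableSpace W] (m : Measure W) : Type _ :=
  {p : ℕ → Lp ℝ 1 m // ∀ n, ∀ᵐ w ∂m, ((p 0 : W → ℝ) w, (p n : W → ℝ) w) ∈ KK}

def Bs {W : Type*} [MeasurableSpace W] {m : Measure W} (p : Code m) : Set W :=
  {w | (p.1 0 : W → ℝ) w = 1}

open Classical in
noncomputable def th {W X : Type*} [MeasurableSpace W] [MeasurableSpace X] {m : Measure W}
    (e : X ≃ᵐ (ℕ → Bool)) (p : Code m) (w : W) : X :=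
  e.symm (fun n => decide ((p.1 (n+1) : W → ℝ) w = 1))

def DIS {W : Type*} [MeasurableSpace W] {m : Measure W} (n : ℕ) (p p' : Code m) : Set W :=
  {w | ∃ k ≤ n, (p.1 k : W → ℝ) w ≠ (p'.1 k : W → ℝ) w}

def PP {W X : Type*} [MeasurableSpace W] [MeasurableSpace X] (m : Measure W) (μ : Measure X)
    (e : X ≃ᵐ (ℕ → Bool)) : Set (Code m) :=
  {p | IsCode m μ (Bs p) (th e p)}

/-- order embeddings of the orbits -/
structure Emb {W : Type*} [MeasurableSpace W] (m : Measure W) (a : Lam → W → W)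
    (ρ τ : W → W) (R : Set W) (c : ℝ≥0∞) : Prop where
  measρ : Measurable ρ
  measτ : Measurable τ
  measR : MeasurableSet R
  c0 : c ≠ 0
  ctop : c ≠ ⊤
  mem : ∀ᵐ w ∂m, ρ w ∈ R
  left : ∀ᵐ w ∂m, τ (ρ w) = w
  map : ∀ E, MeasurableSet E → m (ρ ⁻¹' E) = c * m (E ∩ R)
  order : ∀ᵐ w ∂m, ∀ k, 0 < k → ∃ l, 0 < l ∧ ρ (a k w) = a l (ρ w)
  orbit : ∀ᵐ w ∂m, ∀ l, a l (ρ w) ∈ R → ∃ k, a l (ρ w) = ρ (a k w)

/-- first return time to `A` (of a point `x`); it is `0` when the point never returns -/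
noncomputable def retTime {X : Type*} (T : X → X) (A : Set X) (x : X) : ℕ :=
  sInf {n | 1 ≤ n ∧ T^[n] x ∈ A}

/-- the induced (first return) transformation -/
noncomputable def induced {X : Type*} (T : X → X) (A : Set X) (x : X) : X :=
  T^[retTime T A x] x

/-- Kakutani equivalence of two transformations of `(X, μ)`: for some `A`, `B` of positive
measure, the induced maps `T_A` and `S_B` (with the normalised measures) are isomorphic. -/
def KakutaniEquiv {X : Type*} [MeasurableSpace X] (μ : Measure X) (T S : X → X) : Prop :=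
  ∃ A B : Set X, MeasurableSet A ∧ MeasurableSet B ∧ μ A ≠ 0 ∧ μ B ≠ 0 ∧
    ∃ φ ψ : X → X, Measurable φ ∧ Measurable ψ ∧
      (∀ᵐ x ∂(μ.restrict A), φ x ∈ B ∧ ψ (φ x) = x ∧ φ (induced T A x) = induced S B (φ x)) ∧
      (∀ᵐ y ∂(μ.restrict B), ψ y ∈ A ∧ φ (ψ y) = y) ∧
      ∀ E, MeasurableSet E → μ (A ∩ φ ⁻¹' E) / μ A = μ (B ∩ E) / μ B

/-- the action of `Lam` on `X × ℚ` -/
noncomputable def act {X : Type*} [MeasurableSpace X] (T : X ≃ᵐ X) (k : Lam) (w : X × ℚ) : X × ℚ :=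
  (((T.toEquiv : Equiv.Perm X) ^ (ofLex k).1) w.1, w.2 + (ofLex k).2)

/-- the space of ergodic automorphisms with the weak topology -/
def ErgAut {X : Type*} [MeasurableSpace X] (μ : Measure X) : Type _ :=
  {S : X ≃ᵐ X // Ergodic S μ}

instance {X : Type*} [MeasurableSpace X] (μ : Measure X) : TopologicalSpace (ErgAut μ) :=
  TopologicalSpace.induced
    (fun S (EF : {E : Set X // MeasurableSet E} × {E : Set X // MeasurableSet E}) =>
      μ ((S.1 ⁻¹' EF.1.1) ∩ EF.2.1)) inferInstance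

/-- `a (-s) w` is the last point of `B` at or before `w` -/
def Flr {W : Type*} (a : Lam → W → W) (B : Set W) (w : W) (s : Lam) : Prop :=
  0 ≤ s ∧ a (-s) w ∈ B ∧ ∀ j, 0 ≤ j → j < s → a (-j) w ∉ B

/-- order embeddings of the gap `[0, l)` into the gap `[0, l')` -/
structure GapEmb (g : Lam → Lam → Lam → Lam) : Prop where
  zero : ∀ l l', 0 < l → 0 < l' → g l l' 0 = 0
  mono : ∀ l l', 0 < l → 0 < l' → ∀ s t, 0 ≤ s → s < t → t < l → g l l' s < g l l' t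
  lt : ∀ l l', 0 < l → 0 < l' → ∀ s, 0 ≤ s → s < l → g l l' s < l'

/-- an isomorphism of the bases `B`, `B'` respecting the orbit order -/
structure Sig {W : Type*} [MeasurableSpace W] (m : Measure W) (a : Lam → W → W)
    (B B' : Set W) (σ σ' : W → W) (c : ℝ≥0∞) : Prop where
  measB : MeasurableSet B
  measB' : MeasurableSet B'
  posB : m B ≠ 0
  posB' : m B' ≠ 0
  finB : m B ≠ ⊤
  finB' : m B' ≠ ⊤
  measσ : Measurable σ
  measσ' : Measurable σ'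
  fwd : ∀ᵐ w ∂m, w ∈ B → σ w ∈ B' ∧ σ' (σ w) = w
  bwd : ∀ᵐ w ∂m, w ∈ B' → σ' w ∈ B ∧ σ (σ' w) = w
  c0 : c ≠ 0
  ctop : c ≠ ⊤
  scale : ∀ E, MeasurableSet E → m (B ∩ σ ⁻¹' E) = c * m (B' ∩ E)
  ord : ∀ᵐ b ∂m, b ∈ B → ∀ K, 0 < K → a K b ∈ B → ∃ L, 0 < L ∧ σ (a K b) = a L (σ b)
  orb : ∀ᵐ b ∂m, b ∈ B → ∀ L, a L (σ b) ∈ B' → ∃ K, a K b ∈ B ∧ σ (a K b) = a L (σ b)

def Qs {W : Type*} (a : Lam → W → W) (B B' : Set W) (σ : W → W) (s l l' : Lam) : Set W :=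
  {w | Flr a B w s ∧ IsSucc a B (a (-s) w) l ∧ IsSucc a B' (σ (a (-s) w)) l'}

def Rs {W : Type*} (a : Lam → W → W) (B B' : Set W) (σ' : W → W)
    (g : Lam → Lam → Lam → Lam) (s l l' : Lam) : Set W :=
  {w | 0 ≤ s ∧ s < l ∧ a (-(g l l' s)) w ∈ B' ∧
    IsSucc a B (σ' (a (-(g l l' s)) w)) l ∧ IsSucc a B' (a (-(g l l' s)) w) l'}

/-- the map `ρ` built from `σ` on the bases and `g` on the gaps -/
def RhoSpec {W : Type*} (a : Lam → W → W) (B B' : Set W) (σ : W → W)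
    (g : Lam → Lam → Lam → Lam) (ρ : W → W) : Prop :=
  ∀ s l l', ∀ w ∈ Qs a B B' σ s l l', ρ w = a (g l l' s) (σ (a (-s) w))

def TauSpec {W : Type*} (a : Lam → W → W) (B B' : Set W) (σ' : W → W)
    (g : Lam → Lam → Lam → Lam) (τ : W → W) : Prop :=
  ∀ s l l', ∀ w ∈ Rs a B B' σ' g s l l', τ w = a s (σ' (a (-(g l l' s)) w))

/-- the data of a Kakutani equivalence -/
structure KIso {X : Type*} [MeasurableSpace X] (μ : Measure X) (T S : X → X) (A C : Set X)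
    (φ ψ : X → X) : Prop where
  measA : MeasurableSet A
  measC : MeasurableSet C
  posA : μ A ≠ 0
  posC : μ C ≠ 0
  measφ : Measurable φ
  measψ : Measurable ψ
  fwd : ∀ᵐ x ∂(μ.restrict A), φ x ∈ C ∧ ψ (φ x) = x ∧ φ (induced T A x) = induced S C (φ x)
  bwd : ∀ᵐ y ∂(μ.restrict C), ψ y ∈ A ∧ φ (ψ y) = y
  scale : ∀ E, MeasurableSet E → μ (A ∩ φ ⁻¹' E) / μ A = μ (C ∩ E) / μ C

/-- the tower -/
def Tw {X : Type*} (S : X → X) (A C : Set X) (φ : X → X) : Set (X × ℚ) :=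
  {w | w.1 ∈ A ∧ ∃ i : ℕ, w.2 = i ∧ i < retTime S C (φ w.1)}

/-- the labelling of the tower: `(x, i) ↦ S^i (φ x)` -/
noncomputable def Tth {X : Type*} (S : X → X) (φ : X → X) (w : X × ℚ) : X :=
  S^[w.2.num.toNat] (φ w.1)

end Pool.H110K2
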