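import Pool.Agent.H110K2.Defs

set_option linter.all false

namespace Pool.H110K2
open MeasureTheory Set Filter Topology
open scoped ENNReal NNReal symmDiff


theorem lam_countable : Countable Lam :=
  Function.Injective.countable (f := (ofLex : Lex (ℤ × ℚ) → ℤ × ℚ)) (fun _ _ h => h)

end Pool.H110K2
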