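import Pool.Agent.H110K2.Defs
import Pool.Agent.H110K2.P_lam_countable

set_option linter.all false

namespace Pool.H110K2
open MeasureTheory Set Filter Topology
open scoped ENNReal NNReal symmDiff


theorem ae_all {W : Type*} [MeasurableSpace W] {m : Measure W} {a : Lam → W → W}
    (hS : Sys m a) {Q : W → Prop} (hQ : ∀ᵐ w ∂m, Q w) : ∀ᵐ w ∂m, ∀ k, Q (a k w) := by
  haveI := lam_countable
  rw [MeasureTheory.ae_all_iff]
  exact fun k => (hS.mp k).quasiMeasurePreserving.ae hQ

end Pool.H110K2
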