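import Pool.Agent.H110K2.Defs
import Pool.Agent.H110K2.P_ae_all

set_option linter.all false

namespace Pool.H110K2
open MeasureTheory Set Filter Topology
open scoped ENNReal NNReal symmDiff


theorem NB_ae {W : Type*} [MeasurableSpace W] {m : Measure W} {a : Lam → W → W}
    (hS : Sys m a) {B B' D D' : Set W} (hB : ∀ᵐ w ∂m, w ∈ B ↔ w ∈ B')
    (hD : ∀ᵐ w ∂m, w ∈ D ↔ w ∈ D') : ∀ᵐ w ∂m, w ∈ NB a B D ↔ w ∈ NB a B' D' := by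
  filter_upwards [ae_all hS hB, ae_all hS hD] with w h1 h2
  have h0 : w ∈ B ↔ w ∈ B' := by
    have := h1 0
    rwa [hS.zero] at this
  constructor
  · rintro ⟨hw, k, ⟨hk, hkB, hj⟩, hkD⟩
    exact ⟨h0.mp hw, k, ⟨hk, (h1 _).mp hkB, fun j hj1 hj2 hj3 => hj j hj1 hj2 ((h1 _).mpr hj3)⟩,
      (h2 _).mp hkD⟩
  · rintro ⟨hw, k, ⟨hk, hkB, hj⟩, hkD⟩
    exact ⟨h0.mpr hw, k, ⟨hk, (h1 _).mpr hkB, fun j hj1 hj2 hj3 => hj j hj1 hj2 ((h1 _).mp hj3)⟩,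
      (h2 _).mpr hkD⟩

end Pool.H110K2
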