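import Pool.Agent.H110K2.Defs
import Pool.Agent.H110K2.P_lam_countable

set_option linter.all false

namespace Pool.H110K2
open MeasureTheory Set Filter Topology
open scoped ENNReal NNReal symmDiff


theorem NB_meas {W : Type*} [MeasurableSpace W] {m : Measure W} {a : Lam → W → W}
    (hS : Sys m a) {B D : Set W} (hB : MeasurableSet B) (hD : MeasurableSet D) :
    MeasurableSet (NB a B D) := by
  haveI := lam_countable
  have hP : ∀ k : Lam, MeasurableSet {w | IsPred a B w k} := by
    intro k
    by_cases hk : 0 < k
    · have e : {w | IsPred a B w k} =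
          (a (-k)) ⁻¹' B ∩ ⋂ j : Lam, {w | 0 < j → j < k → a (-j) w ∉ B} := by
        ext w
        simp only [IsPred, Set.mem_setOf_eq, Set.mem_inter_iff, Set.mem_preimage, Set.mem_iInter]
        constructor
        · rintro ⟨-, h1, h2⟩
          exact ⟨h1, h2⟩
        · rintro ⟨h1, h2⟩
          exact ⟨hk, h1, h2⟩
      rw [e]
      refine (hS.meas (-k) hB).inter (MeasurableSet.iInter fun j => ?_)
      by_cases hj : 0 < j ∧ j < k
      · have e2 : {w | 0 < j → j < k → a (-j) w ∉ B} = ((a (-j)) ⁻¹' B)ᶜ := by
          ext w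
          simp only [Set.mem_setOf_eq, Set.mem_compl_iff, Set.mem_preimage]
          exact ⟨fun h => h hj.1 hj.2, fun h _ _ => h⟩
        rw [e2]
        exact (hS.meas (-j) hB).compl
      · have e2 : {w | 0 < j → j < k → a (-j) w ∉ B} = Set.univ := by
          ext w
          simp only [Set.mem_setOf_eq, Set.mem_univ, iff_true]
          intro h1 h2
          exact absurd ⟨h1, h2⟩ hj
        rw [e2]
        exact MeasurableSet.univ
    · have e : {w | IsPred a B w k} = ∅ := by
        ext w
        simp only [IsPred, Set.mem_setOf_eq, Set.mem_empty_iff_false, iff_false]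
        exact fun h => hk h.1
      rw [e]
      exact MeasurableSet.empty
  have e : NB a B D = B ∩ ⋃ k : Lam, ({w | IsPred a B w k} ∩ (a (-k)) ⁻¹' D) := by
    ext w
    simp only [NB, Set.mem_setOf_eq, Set.mem_inter_iff, Set.mem_iUnion, Set.mem_preimage]
  rw [e]
  exact hB.inter (MeasurableSet.iUnion fun k => (hP k).inter (hS.meas (-k) hD))

end Pool.H110K2
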