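import Pool.Agent.H110K2.Defs
import Pool.Agent.H110K2.P_lam_countable
import Pool.Agent.H110K2.P_NB_meas

set_option linter.all false

namespace Pool.H110K2
open MeasureTheory Set Filter Topology
open scoped ENNReal NNReal symmDiff


theorem pred_mass {W : Type*} [MeasurableSpace W] {m : Measure W} {a : Lam → W → W}
    (hS : Sys m a) {B D : Set W} (hB : MeasurableSet B) (hD : MeasurableSet D) :
    m (NB a B D) ≤ m D := by
  haveI : Countable Lam := lam_countable
  set A : Lam → Set W := fun k => {w | (w ∈ B ∧ IsPred a B w k) ∧ a (-k) w ∈ D} with hA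
  have hAm : ∀ k, MeasurableSet (A k) := by
    intro k
    have e : A k = {w | w ∈ B ∧ (0 < k ∧ a (-k) w ∈ B)} ∩
        (⋂ j : Lam, {w | 0 < j → j < k → a (-j) w ∉ B}) ∩ (a (-k)) ⁻¹' D := by
      ext w
      simp only [hA, IsPred, mem_setOf_eq, mem_inter_iff, mem_iInter, mem_preimage]
      tauto
    rw [e]
    refine MeasurableSet.inter (MeasurableSet.inter ?_ ?_) (hS.meas _ hD)
    · by_cases hk : 0 < k
      · have : {w | w ∈ B ∧ (0 < k ∧ a (-k) w ∈ B)} = B ∩ (a (-k)) ⁻¹' B := by
          ext w; simp [hk]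
        rw [this]
        exact hB.inter (hS.meas _ hB)
      · have : {w | w ∈ B ∧ (0 < k ∧ a (-k) w ∈ B)} = ∅ := by
          ext w; simp [hk]
        rw [this]; exact MeasurableSet.empty
    · refine MeasurableSet.iInter fun j => ?_
      by_cases h1 : 0 < j ∧ j < k
      · have : {w | 0 < j → j < k → a (-j) w ∉ B} = ((a (-j)) ⁻¹' B)ᶜ := by
          ext w; simp [h1.1, h1.2]
        rw [this]; exact (hS.meas _ hB).compl
      · have : {w | 0 < j → j < k → a (-j) w ∉ B} = univ := by
          ext w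
          simp only [mem_setOf_eq, mem_univ, iff_true]
          intro h2 h3
          exact absurd ⟨h2, h3⟩ h1
        rw [this]; exact MeasurableSet.univ
  have hcan : ∀ k w, a (-k) (a k w) = w := by
    intro k w
    rw [← hS.add, neg_add_cancel, hS.zero]
  have hsub : NB a B D ⊆ ⋃ k, A k := by
    rintro w ⟨hwB, k, hk, hD'⟩
    exact mem_iUnion.2 ⟨k, ⟨hwB, hk⟩, hD'⟩
  have hsubD : (⋃ k, (a k) ⁻¹' A k) ⊆ D := by
    intro c hc
    obtain ⟨k, hk⟩ := mem_iUnion.1 hc
    have h2 : a (-k) (a k c) ∈ D := hk.2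
    rwa [hcan] at h2
  have key : ∀ k k' c, k < k' → c ∈ (a k) ⁻¹' A k → c ∈ (a k') ⁻¹' A k' → False := by
    intro k k' c hlt h1 h2
    have h3 : IsPred a B (a k' c) k' := h2.1.2
    have h4 : a k c ∈ B := h1.1.1
    have h5 : 0 < k := h1.1.2.1
    have h6 := h3.2.2 (k' - k) (sub_pos.2 hlt) (sub_lt_self _ h5)
    apply h6
    rw [← hS.add]
    have : -(k' - k) + k' = k := by abel
    rw [this]
    exact h4
  have hdisj : Pairwise (Function.onFun Disjoint fun k => (a k) ⁻¹' A k) := by
    intro k k' hne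
    rw [Function.onFun, Set.disjoint_left]
    intro c h1 h2
    rcases lt_or_gt_of_ne hne with h | h
    · exact key k k' c h h1 h2
    · exact key k' k c h h2 h1
  calc m (NB a B D) ≤ m (⋃ k, A k) := measure_mono hsub
    _ ≤ ∑' k, m (A k) := measure_iUnion_le _
    _ = ∑' k, m ((a k) ⁻¹' A k) := by
        refine tsum_congr fun k => ?_
        exact ((hS.mp k).measure_preimage (hAm k).nullMeasurableSet).symm
    _ = m (⋃ k, (a k) ⁻¹' A k) :=
        (measure_iUnion hdisj fun k => hS.meas k (hAm k)).symm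
    _ ≤ m D := measure_mono hsubD

end Pool.H110K2
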