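import Pool.Agent.H110K2.Defs
import Pool.Agent.H110K2.P_lam_countable
import Pool.Agent.H110K2.P_ae_all
import Pool.Agent.H110K2.P_NB_meas
import Pool.Agent.H110K2.P_pred_mass

set_option linter.all false

namespace Pool.H110K2
open MeasureTheory Set Filter Topology
open scoped ENNReal NNReal symmDiff


theorem NB_diff {W : Type*} [MeasurableSpace W] {m : Measure W} {a : Lam → W → W}
    (hS : Sys m a) {B B' D D' C C' Z : Set W} (hB : MeasurableSet B) (hB' : MeasurableSet B')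
    (hD : MeasurableSet D) (hD' : MeasurableSet D') (hZ : MeasurableSet Z)
    (hfin : m B ≠ ⊤) (hfin' : m B' ≠ ⊤)
    (hz : ∀ w, w ∉ Z → ((w ∈ B ↔ w ∈ B') ∧ (w ∈ D ↔ w ∈ D') ∧ (w ∈ C ↔ w ∈ C'))) :
    m ((NB a B D ∩ C) \ (NB a B' D' ∩ C')) ≤ 3 * m Z := by
  have hsub : ((NB a B D ∩ C) \ (NB a B' D' ∩ C') : Set W) ≤ᵐ[m]
      (Z ∪ NB a B Z ∪ NB a B' Z : Set W) := by
    filter_upwards [hS.fin B' hB' hfin'] with w hw hmem
    obtain ⟨⟨⟨hwB, k, hk, hkD⟩, hwC⟩, hnot⟩ : w ∈ (NB a B D ∩ C) \ (NB a B' D' ∩ C') := hmem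
    show w ∈ Z ∪ NB a B Z ∪ NB a B' Z
    by_cases hwZ : w ∈ Z
    · exact Or.inl (Or.inl hwZ)
    · obtain ⟨h1, h2, h3⟩ := hz w hwZ
      by_cases hvZ : a (-k) w ∈ Z
      · exact Or.inl (Or.inr ⟨hwB, k, hk, hvZ⟩)
      · obtain ⟨g1, g2, g3⟩ := hz _ hvZ
        have hvB' : a (-k) w ∈ B' := g1.1 hk.2.1
        have hvD' : a (-k) w ∈ D' := g2.1 hkD
        by_cases hJ : ∃ j, 0 < j ∧ j < k ∧ a (-j) w ∈ B'
        · have hfinJ : {j : Lam | 0 < j ∧ j < k ∧ a (-j) w ∈ B'}.Finite := by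
            have h4 := hw (-k) 0
            refine (h4.image (fun i => -i)).subset ?_
            rintro j ⟨hj0, hjk, hjB⟩
            refine ⟨-j, ⟨?_, ?_, hjB⟩, neg_neg j⟩
            · exact neg_le_neg hjk.le
            · exact neg_nonpos.2 hj0.le
          obtain ⟨j0, ⟨hj0, hj0k, hj0B⟩, hmin⟩ := Set.exists_min_image _ id hfinJ hJ
          refine Or.inr ⟨h1.1 hwB, j0, ⟨hj0, hj0B, ?_⟩, ?_⟩
          · intro i hi hij hiB
            have h5 := hmin i ⟨hi, hij.trans hj0k, hiB⟩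
            exact absurd hij (not_lt.2 h5)
          · by_contra hnZ
            obtain ⟨f1, -, -⟩ := hz _ hnZ
            exact hk.2.2 j0 hj0 hj0k (f1.2 hj0B)
        · exfalso
          apply hnot
          refine ⟨⟨h1.1 hwB, k, ⟨hk.1, hvB', ?_⟩, hvD'⟩, h3.1 hwC⟩
          intro j hj hjk hjB
          exact hJ ⟨j, hj, hjk, hjB⟩
  calc m ((NB a B D ∩ C) \ (NB a B' D' ∩ C')) ≤ m (Z ∪ NB a B Z ∪ NB a B' Z) :=
        measure_mono_ae hsub
    _ ≤ m (Z ∪ NB a B Z) + m (NB a B' Z) := measure_union_le _ _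
    _ ≤ (m Z + m (NB a B Z)) + m (NB a B' Z) := by gcongr; exact measure_union_le _ _
    _ ≤ (m Z + m Z) + m Z :=
        add_le_add (add_le_add le_rfl (pred_mass hS hB hZ)) (pred_mass hS hB' hZ)
    _ = 3 * m Z := by ring

end Pool.H110K2
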