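import Pool.Agent.H110K2.Defs

set_option linter.all false

namespace Pool.H110K2
open MeasureTheory Set Filter Topology
open scoped ENNReal NNReal symmDiff


theorem bs_meas {W : Type*} [MeasurableSpace W] {m : Measure W} (p : Code m) :
    MeasurableSet (Bs p) ∧ m (Bs p) ≠ ⊤ := by
  constructor
  · have h := (Lp.stronglyMeasurable (p.1 0)).measurable (measurableSet_singleton (1 : ℝ))
    exact h
  · have hi : Integrable (p.1 0 : W → ℝ) m := L1.integrable_coeFn (p.1 0)
    have h := hi.measure_norm_ge_lt_top (ε := 1) one_pos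
    refine ne_top_of_le_ne_top h.ne (measure_mono fun w hw => ?_)
    have hw' : (p.1 0 : W → ℝ) w = 1 := hw
    show (1 : ℝ) ≤ ‖(p.1 0 : W → ℝ) w‖
    rw [hw', norm_one]

end Pool.H110K2
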