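import Pool.Agent.H110K2.Defs

set_option linter.all false

namespace Pool.H110K2
open MeasureTheory Set Filter Topology
open scoped ENNReal NNReal symmDiff


theorem cyl_meas {X : Type*} [MeasurableSpace X] (e : X ≃ᵐ (ℕ → Bool)) (i : Idx) :
    MeasurableSet (Cyl e i) := by
  have hm : Measurable (fun x : X => (fun k : Fin i.1 => e x k)) := by
    refine measurable_pi_lambda _ fun k => ?_
    exact (measurable_pi_apply (k : ℕ)).comp e.measurable
  exact hm (i.2.finite_toSet.measurableSet)

end Pool.H110K2
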