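import Pool.Agent.H110K2.Defs
import Pool.Agent.H110K2.P_cyl_meas

set_option linter.all false

namespace Pool.H110K2
open MeasureTheory Set Filter Topology
open scoped ENNReal NNReal symmDiff


theorem cyl_dense_lift {X : Type*} [MeasurableSpace X] (e : X ≃ᵐ (ℕ → Bool)) (n N : ℕ) (h : n ≤ N)
    (s : Finset (Fin n → Bool)) :
    ∃ s' : Finset (Fin N → Bool), Cyl e ⟨n, s⟩ = Cyl e ⟨N, s'⟩ := by
  classical
  refine ⟨Finset.univ.filter fun f : Fin N → Bool => (fun k : Fin n => f (Fin.castLE h k)) ∈ s, ?_⟩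
  ext x
  unfold Cyl
  simp only [Set.mem_ofPred_eq, Finset.mem_filter, Finset.mem_univ, true_and]
  exact Iff.rfl

theorem cyl_dense_alg {X : Type*} [MeasurableSpace X] (e : X ≃ᵐ (ℕ → Bool)) :
    IsSetAlgebra (Set.range (Cyl e)) := by
  classical
  refine ⟨⟨⟨0, ∅⟩, ?_⟩, ?_, ?_⟩
  · ext x
    unfold Cyl
    simp
  · rintro s ⟨⟨n, t⟩, rfl⟩
    refine ⟨⟨n, tᶜ⟩, ?_⟩
    ext x
    unfold Cyl
    simp only [Set.mem_ofPred_eq, Finset.mem_compl, Set.mem_compl_iff]
  · rintro s t ⟨⟨n, a⟩, rfl⟩ ⟨⟨m, b⟩, rfl⟩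
    obtain ⟨a', ha⟩ := cyl_dense_lift e n (max n m) (le_max_left _ _) a
    obtain ⟨b', hb⟩ := cyl_dense_lift e m (max n m) (le_max_right _ _) b
    refine ⟨⟨max n m, a' ∪ b'⟩, ?_⟩
    rw [ha, hb]
    ext x
    unfold Cyl
    simp only [Set.mem_ofPred_eq, Finset.mem_union, Set.mem_union]

theorem cyl_dense_gen {X : Type*} [mX : MeasurableSpace X] (e : X ≃ᵐ (ℕ → Bool)) :
    mX = MeasurableSpace.generateFrom (Set.range (Cyl e)) := by
  classical
  refine le_antisymm ?_ (MeasurableSpace.generateFrom_le ?_)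
  · have he : @Measurable X (ℕ → Bool) (MeasurableSpace.generateFrom (Set.range (Cyl e))) _ e := by
      refine @measurable_pi_lambda X ℕ (fun _ => Bool)
        (MeasurableSpace.generateFrom (Set.range (Cyl e))) _ _ (fun k => ?_)
      refine @measurable_to_bool X (MeasurableSpace.generateFrom (Set.range (Cyl e))) _ ?_
      refine MeasurableSpace.measurableSet_generateFrom ?_
      refine ⟨⟨k + 1, Finset.univ.filter fun f : Fin (k + 1) → Bool => f (Fin.last k) = true⟩, ?_⟩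
      ext x
      unfold Cyl
      simp
    intro E hE
    have h1 : MeasurableSet (e.symm ⁻¹' E) := e.symm.measurable hE
    have h2 : E = e ⁻¹' (e.symm ⁻¹' E) := by
      ext x
      simp
    rw [h2]
    exact he h1
  · rintro s ⟨i, rfl⟩
    exact cyl_meas e i

theorem cyl_dense {X : Type*} [MeasurableSpace X] (μ : Measure X) [IsFiniteMeasure μ]
    (e : X ≃ᵐ (ℕ → Bool)) (E : Set X) (hE : MeasurableSet E) (ε : ℝ≥0∞) (hε : 0 < ε) :
    ∃ i, μ (E ∆ Cyl e i) < ε := by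
  have hd := Measure.MeasureDense.of_generateFrom_isSetAlgebra_finite (μ := μ)
    (cyl_dense_alg e) (cyl_dense_gen e)
  have h0 : min ε 1 ≠ ⊤ := ne_top_of_le_ne_top ENNReal.one_ne_top (min_le_right _ _)
  have h1 : 0 < min ε 1 := lt_min hε one_pos
  obtain ⟨t, ⟨i, rfl⟩, ht⟩ := hd.approx E hE (measure_ne_top μ E) (min ε 1).toReal
    (ENNReal.toReal_pos h1.ne' h0)
  refine ⟨i, ht.trans_le ?_⟩
  rw [ENNReal.ofReal_toReal h0]
  exact min_le_left _ _

end Pool.H110K2
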