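import Pool.Agent.H110K2.Defs
import Pool.Agent.H110K2.P_cyl_meas
import Pool.Agent.H110K2.P_cyl_dense

set_option linter.all false

namespace Pool.H110K2
open MeasureTheory Set Filter Topology
open scoped ENNReal NNReal symmDiff


theorem inj_approx {W X : Type*} [MeasurableSpace W] [StandardBorelSpace W]
    [MeasurableSpace X] {m : Measure W} {μ : Measure X} [IsProbabilityMeasure μ]
    (e : X ≃ᵐ (ℕ → Bool)) {B : Set W} {θ : W → X} (h : IsCode m μ B θ) (D : Set W)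
    (hD : MeasurableSet D) (ε : ℝ≥0∞) (hε : 0 < ε) :
    ∃ i, m ((D ∩ B) ∆ (B ∩ θ ⁻¹' Cyl e i)) < ε := by
  obtain ⟨N, hN, hNB, hBN, hinj⟩ := h.inj
  obtain ⟨E, hEdef⟩ : ∃ E : Set X, E = θ '' (D ∩ N) := ⟨_, rfl⟩
  have hE : MeasurableSet E := by
    have h1 : MeasurableSet ((fun w => e (θ w)) '' (D ∩ N)) := by
      apply (hD.inter hN).image_of_measurable_injOn (e.measurable.comp h.measθ)
      intro w hw w' hw' hww
      exact hinj hw.2 hw'.2 (e.injective hww)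
    have h2 : E = e ⁻¹' ((fun w => e (θ w)) '' (D ∩ N)) := by
      rw [hEdef]
      ext x
      constructor
      · rintro ⟨w, hw, rfl⟩
        exact ⟨w, hw, rfl⟩
      · rintro ⟨w, hw, hwx⟩
        exact ⟨w, hw, e.injective hwx⟩
    rw [h2]
    exact e.measurable h1
  have hEN : ∀ w ∈ N, (θ w ∈ E ↔ w ∈ D) := by
    intro w hw
    rw [hEdef]
    constructor
    · rintro ⟨w', hw', hww⟩
      have := hinj hw'.2 hw hww
      rw [← this]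
      exact hw'.1
    · intro hwD
      exact ⟨w, ⟨hwD, hw⟩, rfl⟩
  obtain ⟨i, hi⟩ := cyl_dense μ e E hE (ε / m B) (ENNReal.div_pos hε.ne' h.fin)
  refine ⟨i, ?_⟩
  have hsub : (D ∩ B) ∆ (B ∩ θ ⁻¹' Cyl e i) ⊆ (B \ N) ∪ (B ∩ θ ⁻¹' (E ∆ Cyl e i)) := by
    intro w hw
    by_cases hwN : w ∈ N
    · right
      have h1 := hEN w hwN
      rcases hw with ⟨⟨hwD, hwB⟩, hw2⟩ | ⟨⟨hwB, hwC⟩, hw2⟩
      · refine ⟨hwB, Or.inl ⟨h1.mpr hwD, fun hC => hw2 ⟨hwB, hC⟩⟩⟩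
      · refine ⟨hwB, Or.inr ⟨hwC, fun hE' => hw2 ⟨h1.mp hE', hwB⟩⟩⟩
    · left
      rcases hw with ⟨⟨hwD, hwB⟩, hw2⟩ | ⟨⟨hwB, hwC⟩, hw2⟩
      · exact ⟨hwB, hwN⟩
      · exact ⟨hwB, hwN⟩
  calc m ((D ∩ B) ∆ (B ∩ θ ⁻¹' Cyl e i)) ≤ m ((B \ N) ∪ (B ∩ θ ⁻¹' (E ∆ Cyl e i))) :=
        measure_mono hsub
    _ ≤ m (B \ N) + m (B ∩ θ ⁻¹' (E ∆ Cyl e i)) := measure_union_le _ _
    _ = m B * μ (E ∆ Cyl e i) := by
        rw [hBN, zero_add, h.push _ (hE.symmDiff (cyl_meas e i))]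
    _ < m B * (ε / m B) := (ENNReal.mul_lt_mul_iff_right h.pos h.fin).mpr hi
    _ = ε := ENNReal.mul_div_cancel h.pos h.fin

end Pool.H110K2
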