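import Pool.Agent.H110K2.Defs
import Pool.Agent.H110K2.P_cyl_meas

set_option linter.all false

namespace Pool.H110K2
open MeasureTheory Set Filter Topology
open scoped ENNReal NNReal symmDiff


theorem inj_of_approx {W X : Type*} [MeasurableSpace W] [MeasurableSpace X] {m : Measure W}
    (e : X ≃ᵐ (ℕ → Bool)) {B : Set W} {θ : W → X} (hB : MeasurableSet B) (hθ : Measurable θ)
    (D : ℕ → Set W) (hD : ∀ j, MeasurableSet (D j))
    (hsep : ∀ w w', (∀ j, w ∈ D j ↔ w' ∈ D j) → w = w')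
    (h : ∀ j (n : ℕ), ∃ i, m ((D j ∩ B) ∆ (B ∩ θ ⁻¹' Cyl e i)) < ENNReal.ofReal (1 / (n + 1))) :
    ∃ N, MeasurableSet N ∧ N ⊆ B ∧ m (B \ N) = 0 ∧ InjOn θ N := by
  classical
  have hD' := hD
  have h2 : ∀ j (k : ℕ), ∃ i, m ((D j ∩ B) ∆ (B ∩ θ ⁻¹' Cyl e i)) ≤ (1 / 2 : ℝ≥0∞) ^ k := by
    intro j k
    obtain ⟨i, hi⟩ := h j (2 ^ k)
    refine ⟨i, hi.le.trans ?_⟩
    have e1 : ((1 / 2 : ℝ≥0∞)) ^ k = ENNReal.ofReal ((1 / 2 : ℝ) ^ k) := by
      rw [ENNReal.ofReal_pow (by norm_num)]
      congr 1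
      rw [ENNReal.ofReal_div_of_pos (by norm_num)]
      simp
    rw [e1]
    apply ENNReal.ofReal_le_ofReal
    rw [one_div_pow]
    apply one_div_le_one_div_of_le (by positivity)
    push_cast
    linarith
  choose I hI using h2
  set F : ℕ → ℕ → Set W := fun j k => (D j ∩ B) ∆ (B ∩ θ ⁻¹' Cyl e (I j k)) with hF
  set Z : ℕ → Set W := fun j => limsup (F j) atTop with hZ
  have hZ0 : ∀ j, m (Z j) = 0 := by
    intro j
    apply measure_limsup_atTop_eq_zero
    apply ne_top_of_le_ne_top _ (ENNReal.tsum_le_tsum (hI j))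
    simp only [one_div]
    rw [ENNReal.tsum_geometric]
    norm_num
  have hU : m (⋃ j, Z j) = 0 := measure_iUnion_null hZ0
  refine ⟨B \ toMeasurable m (⋃ j, Z j), hB.diff (measurableSet_toMeasurable _ _), diff_subset, ?_, ?_⟩
  · apply measure_mono_null _ (by rw [measure_toMeasurable]; exact hU : m (toMeasurable m (⋃ j, Z j)) = 0)
    intro w hw
    by_contra hc
    exact hw.2 ⟨hw.1, hc⟩
  · have key : ∀ w ∈ B \ toMeasurable m (⋃ j, Z j), ∀ j,
        (w ∈ D j ↔ ∃ᶠ k in atTop, θ w ∈ Cyl e (I j k)) := by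
      intro w hw j
      have hwZ : w ∉ Z j := by
        intro hc
        exact hw.2 (subset_toMeasurable _ _ (mem_iUnion.2 ⟨j, hc⟩))
      have hev : ∀ᶠ k in atTop, w ∉ F j k := by
        rw [hZ] at hwZ
        simp only at hwZ
        rw [Filter.mem_limsup_iff_frequently_mem] at hwZ
        exact not_frequently.1 hwZ
      have hev2 : ∀ᶠ k in atTop, (w ∈ D j ↔ θ w ∈ Cyl e (I j k)) := by
        filter_upwards [hev] with k hk
        simp only [hF, Set.mem_symmDiff, mem_inter_iff, mem_preimage, hw.1, and_true, true_and] at hk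
        tauto
      constructor
      · intro hwD
        apply Eventually.frequently
        filter_upwards [hev2] with k hk
        exact hk.1 hwD
      · intro hfr
        obtain ⟨k, hk1, hk2⟩ := (hfr.and_eventually hev2).exists
        exact hk2.2 hk1
    intro w hw w' hw' heq
    apply hsep
    intro j
    rw [key w hw j, key w' hw' j, heq]

end Pool.H110K2
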