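import Pool.Agent.H110K2.Defs
import Pool.Agent.H110K2.P_cyl_meas

set_option linter.all false

namespace Pool.H110K2
open MeasureTheory Set Filter Topology
open scoped ENNReal NNReal symmDiff


theorem meas_ext_cyl_aux {X : Type*} [m' : MeasurableSpace X] (f : X → ℕ → Bool)
    (h : ∀ n b, MeasurableSet {x | f x n = b}) : Measurable f := by
  rw [measurable_pi_iff]
  intro n
  apply measurable_to_countable'
  intro b
  exact h n b

theorem meas_ext_cyl_inter {X : Type*} [MeasurableSpace X] (e : X ≃ᵐ (ℕ → Bool)) (i j : Idx) :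
    ∃ k, Cyl e i ∩ Cyl e j = Cyl e k := by
  classical
  obtain ⟨n, A⟩ := i
  obtain ⟨m, B⟩ := j
  refine ⟨⟨max n m, Finset.univ.filter (fun f : Fin (max n m) → Bool =>
    (fun k : Fin n => f (Fin.castLE (le_max_left n m) k)) ∈ A ∧
    (fun k : Fin m => f (Fin.castLE (le_max_right n m) k)) ∈ B)⟩, ?_⟩
  ext x
  show ((fun k : Fin n => e x k) ∈ A ∧ (fun k : Fin m => e x k) ∈ B) ↔
    (fun k : Fin (max n m) => e x k) ∈ Finset.univ.filter (fun f : Fin (max n m) → Bool =>
    (fun k : Fin n => f (Fin.castLE (le_max_left n m) k)) ∈ A ∧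
    (fun k : Fin m => f (Fin.castLE (le_max_right n m) k)) ∈ B)
  rw [Finset.mem_filter]
  simp

theorem meas_ext_cyl {X : Type*} [MeasurableSpace X] (μ ν : Measure X) [IsFiniteMeasure μ]
    (e : X ≃ᵐ (ℕ → Bool)) (h : ∀ i, μ (Cyl e i) = ν (Cyl e i)) : μ = ν := by
  classical
  have hgen : (inferInstance : MeasurableSpace X) = MeasurableSpace.generateFrom (Set.range (Cyl e)) := by
    apply le_antisymm
    · have hmeas : @Measurable X (ℕ → Bool) (MeasurableSpace.generateFrom (Set.range (Cyl e)))
          MeasurableSpace.pi e := by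
        refine @meas_ext_cyl_aux X (MeasurableSpace.generateFrom (Set.range (Cyl e))) e ?_
        intro n b
        apply MeasurableSpace.measurableSet_generateFrom
        refine ⟨⟨n + 1, Finset.univ.filter (fun f : Fin (n + 1) → Bool => f (Fin.last n) = b)⟩, ?_⟩
        ext x
        show (fun k : Fin (n + 1) => e x k) ∈ Finset.univ.filter
          (fun f : Fin (n + 1) → Bool => f (Fin.last n) = b) ↔ e x n = b
        rw [Finset.mem_filter]
        simp
      have h1 := e.measurableEmbedding.comap_eq
      have h2 : MeasurableSpace.comap e MeasurableSpace.pi ≤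
          MeasurableSpace.generateFrom (Set.range (Cyl e)) := measurable_iff_comap_le.1 hmeas
      rw [h1] at h2
      exact h2
    · apply MeasurableSpace.generateFrom_le
      rintro _ ⟨i, rfl⟩
      exact cyl_meas e i
  apply ext_of_generate_finite (Set.range (Cyl e)) hgen
  · rintro _ ⟨i, rfl⟩ _ ⟨j, rfl⟩ _
    obtain ⟨k, hk⟩ := meas_ext_cyl_inter e i j
    exact ⟨k, hk.symm⟩
  · rintro _ ⟨i, rfl⟩
    exact h i
  · have : Cyl e ⟨0, Finset.univ⟩ = Set.univ := by
      ext x
      have h0 : (fun k : Fin 0 => e x k) ∈ (Finset.univ : Finset (Fin 0 → Bool)) :=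
        Finset.mem_univ _
      exact iff_of_true h0 (Set.mem_univ _)
    rw [← this]
    exact h _

end Pool.H110K2
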