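import Pool.Agent.H110K2.Defs
import Pool.Agent.H110K2.P_cyl_meas
import Pool.Agent.H110K2.P_meas_ext_cyl

set_option linter.all false

namespace Pool.H110K2
open MeasureTheory Set Filter Topology
open scoped ENNReal NNReal symmDiff


theorem push_of_cyl {W X : Type*} [MeasurableSpace W] [MeasurableSpace X] {m : Measure W}
    {μ : Measure X} [IsProbabilityMeasure μ] (e : X ≃ᵐ (ℕ → Bool)) (B : Set W) (θ : W → X)
    (hB : MeasurableSet B) (hB' : m B ≠ ⊤) (hθ : Measurable θ)
    (h : ∀ i, m (B ∩ θ ⁻¹' Cyl e i) = m B * μ (Cyl e i)) :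
    ∀ E, MeasurableSet E → m (B ∩ θ ⁻¹' E) = m B * μ E := by
  have key : ∀ E, MeasurableSet E → (Measure.map θ (m.restrict B)) E = m (B ∩ θ ⁻¹' E) := by
    intro E hE
    rw [Measure.map_apply hθ hE, Measure.restrict_apply (hθ hE), inter_comm]
  haveI : IsFiniteMeasure (m.restrict B) := ⟨by
    rw [Measure.restrict_apply_univ]
    exact lt_top_iff_ne_top.mpr hB'⟩
  haveI : IsFiniteMeasure (Measure.map θ (m.restrict B)) := inferInstance
  have heq : Measure.map θ (m.restrict B) = m B • μ := by
    apply meas_ext_cyl _ _ e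
    intro i
    rw [key _ (cyl_meas e i), h i, Measure.smul_apply, smul_eq_mul]
  intro E hE
  rw [← key E hE, heq, Measure.smul_apply, smul_eq_mul]

end Pool.H110K2
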