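import Pool.Agent.H110K2.Defs

set_option linter.all false

namespace Pool.H110K2
open MeasureTheory Set Filter Topology
open scoped ENNReal NNReal symmDiff


theorem th_meas {W X : Type*} [MeasurableSpace W] [MeasurableSpace X] {m : Measure W}
    (e : X ≃ᵐ (ℕ → Bool)) (p : Code m) : Measurable (th e p) := by
  unfold th
  apply e.symm.measurable.comp
  apply measurable_pi_lambda
  intro n
  apply measurable_to_bool
  have h1 : Measurable (p.1 (n + 1) : W → ℝ) := (Lp.stronglyMeasurable (p.1 (n + 1))).measurable
  have h2 : MeasurableSet ((p.1 (n + 1) : W → ℝ) ⁻¹' {1}) := h1 (measurableSet_singleton 1)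
  convert h2 using 1
  ext w
  simp

end Pool.H110K2
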