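import Pool.Agent.H110K2.Defs
import Pool.Agent.H110K2.P_bs_meas
import Pool.Agent.H110K2.P_th_meas
import Pool.Agent.H110K2.P_cyl_meas
import Pool.Agent.H110K2.P_push_of_cyl
import Pool.Agent.H110K2.P_inj_approx
import Pool.Agent.H110K2.P_inj_of_approx

set_option linter.all false

namespace Pool.H110K2
open MeasureTheory Set Filter Topology
open scoped ENNReal NNReal symmDiff


theorem PP_iff {W X : Type*} [MeasurableSpace W] [StandardBorelSpace W] [MeasurableSpace X]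
    {m : Measure W} {μ : Measure X} [IsProbabilityMeasure μ] (e : X ≃ᵐ (ℕ → Bool))
    (D : ℕ → Set W) (hD : ∀ j, MeasurableSet (D j))
    (hsep : ∀ w w', (∀ j, w ∈ D j ↔ w' ∈ D j) → w = w') (p : Code m) :
    p ∈ PP m μ e ↔ ((m (Bs p)).toReal ≠ 0 ∧
      (∀ i, (m (Bs p ∩ th e p ⁻¹' Cyl e i)).toReal = (m (Bs p)).toReal * (μ (Cyl e i)).toReal) ∧
      ∀ j (n : ℕ), ∃ i, (m ((D j ∩ Bs p) ∆ (Bs p ∩ th e p ⁻¹' Cyl e i))).toReal < 1 / (n + 1)) := by
  constructor
  · intro hp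
    have h : IsCode m μ (Bs p) (th e p) := hp
    refine ⟨ENNReal.toReal_ne_zero.mpr ⟨h.pos, h.fin⟩, fun i => ?_, fun j n => ?_⟩
    · rw [h.push _ (cyl_meas e i), ENNReal.toReal_mul]
    · have hpos : (0 : ℝ) < 1 / ((n : ℝ) + 1) := by positivity
      obtain ⟨i, hi⟩ := inj_approx e h (D j) (hD j) (ENNReal.ofReal (1 / ((n : ℝ) + 1)))
        (ENNReal.ofReal_pos.mpr hpos)
      exact ⟨i, ENNReal.toReal_lt_of_lt_ofReal hi⟩
  · rintro ⟨h1, h2, h3⟩
    obtain ⟨hB, hB'⟩ := bs_meas p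
    have hθ := th_meas e p
    have hfin : ∀ s : Set W, s ⊆ Bs p → m s ≠ ⊤ := fun s hs =>
      ne_top_of_le_ne_top hB' (measure_mono hs)
    show IsCode m μ (Bs p) (th e p)
    refine ⟨hB, hθ, (ENNReal.toReal_ne_zero.mp h1).1, hB', ?_, ?_⟩
    · refine push_of_cyl e _ _ hB hB' hθ fun i => ?_
      have h4 := h2 i
      rw [← ENNReal.toReal_mul] at h4
      exact (ENNReal.toReal_eq_toReal_iff' (hfin _ inter_subset_left)
        (ENNReal.mul_ne_top hB' (measure_ne_top μ _))).mp h4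
    · refine inj_of_approx e hB hθ D hD hsep fun j n => ?_
      obtain ⟨i, hi⟩ := h3 j n
      refine ⟨i, ?_⟩
      rw [ENNReal.lt_ofReal_iff_toReal_lt (hfin _ ?_)]
      · exact hi
      · intro w hw
        rcases hw with hw | hw
        · exact hw.1.2
        · exact hw.1.1

end Pool.H110K2
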