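import Pool.Agent.H110K2.Defs

set_option linter.all false

namespace Pool.H110K2
open MeasureTheory Set Filter Topology
open scoped ENNReal NNReal symmDiff


theorem dis_le_one {W : Type*} [MeasurableSpace W] {m : Measure W} (p p' : Code m) (k : ℕ) :
    m {w | (p.1 k : W → ℝ) w ≠ (p'.1 k : W → ℝ) w} ≤ ENNReal.ofReal ‖p.1 k - p'.1 k‖ := by
  rw [Lp.norm_def, ENNReal.ofReal_toReal (Lp.eLpNorm_ne_top _), eLpNorm_one_eq_lintegral_enorm]
  have h1 := mul_meas_ge_le_lintegral (μ := m)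
    (f := fun w => ‖((p.1 k - p'.1 k : Lp ℝ 1 m) : W → ℝ) w‖ₑ)
    (Lp.stronglyMeasurable _).measurable.enorm 1
  rw [one_mul] at h1
  refine le_trans (measure_mono_ae ?_) h1
  filter_upwards [p.2 k, p'.2 k, Lp.coeFn_sub (p.1 k) (p'.1 k)] with w hw hw' hsub hne
  have a1 : (p.1 k : W → ℝ) w = 0 ∨ (p.1 k : W → ℝ) w = 1 := by
    simp only [KK, mem_insert_iff, mem_singleton_iff, Prod.mk.injEq] at hw
    rcases hw with h | h | h
    · exact Or.inl h.2
    · exact Or.inl h.2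
    · exact Or.inr h.2
  have a2 : (p'.1 k : W → ℝ) w = 0 ∨ (p'.1 k : W → ℝ) w = 1 := by
    simp only [KK, mem_insert_iff, mem_singleton_iff, Prod.mk.injEq] at hw'
    rcases hw' with h | h | h
    · exact Or.inl h.2
    · exact Or.inl h.2
    · exact Or.inr h.2
  have hne' : (p.1 k : W → ℝ) w ≠ (p'.1 k : W → ℝ) w := hne
  show (1 : ℝ≥0∞) ≤ ‖((p.1 k - p'.1 k : Lp ℝ 1 m) : W → ℝ) w‖ₑ
  rw [hsub, Pi.sub_apply]
  rcases a1 with h | h <;> rcases a2 with h' | h'
  · exact absurd (h.trans h'.symm) hne'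
  · rw [h, h']; simp
  · rw [h, h']; simp
  · exact absurd (h.trans h'.symm) hne'

theorem dis_le {W : Type*} [MeasurableSpace W] {m : Measure W} (n : ℕ) (p p' : Code m) :
    m (DIS n p p') ≤ ∑ k ∈ Finset.range (n+1), ENNReal.ofReal ‖p.1 k - p'.1 k‖ := by
  have h1 : DIS n p p' ⊆ ⋃ k ∈ Finset.range (n+1),
      {w | (p.1 k : W → ℝ) w ≠ (p'.1 k : W → ℝ) w} := by
    intro w hw
    obtain ⟨k, hk, hne⟩ := hw
    simp only [mem_iUnion]
    exact ⟨k, Finset.mem_range.mpr (Nat.lt_succ_of_le hk), hne⟩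
  refine (measure_mono h1).trans ((measure_biUnion_finset_le _ _).trans ?_)
  exact Finset.sum_le_sum fun k _ => dis_le_one p p' k

end Pool.H110K2
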