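import Pool.Agent.H110K2.Defs
import Pool.Agent.H110K2.P_dis_le

set_option linter.all false

namespace Pool.H110K2
open MeasureTheory Set Filter Topology
open scoped ENNReal NNReal symmDiff


theorem cont_of_dis {W : Type*} [MeasurableSpace W] {m : Measure W} (Φ : Code m → Set W)
    (n C : ℕ) (hfin : ∀ p, m (Φ p) ≠ ⊤) (h : ∀ p p', m (Φ p \ Φ p') ≤ C * m (DIS n p p')) :
    Continuous (fun p => (m (Φ p)).toReal) := by
  have hbound : ∀ p p' : Code m, (m (Φ p)).toReal ≤
      (m (Φ p')).toReal + C * ∑ k ∈ Finset.range (n+1), ‖p.1 k - p'.1 k‖ := by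
    intro p p'
    have h1 : m (Φ p) ≤ m (Φ p') + C * m (DIS n p p') := by
      calc m (Φ p) ≤ m (Φ p' ∪ (Φ p \ Φ p')) := by
            refine measure_mono (fun x hx => ?_)
            by_cases hx' : x ∈ Φ p'
            · exact Or.inl hx'
            · exact Or.inr ⟨hx, hx'⟩
        _ ≤ m (Φ p') + m (Φ p \ Φ p') := measure_union_le _ _
        _ ≤ m (Φ p') + C * m (DIS n p p') := add_le_add le_rfl (h p p')
    have h2 : m (DIS n p p') ≤
        ENNReal.ofReal (∑ k ∈ Finset.range (n+1), ‖p.1 k - p'.1 k‖) := by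
      rw [ENNReal.ofReal_sum_of_nonneg (fun _ _ => norm_nonneg _)]
      exact dis_le n p p'
    have hs0 : 0 ≤ ∑ k ∈ Finset.range (n+1), ‖p.1 k - p'.1 k‖ :=
      Finset.sum_nonneg (fun _ _ => norm_nonneg _)
    have hC0 : (0:ℝ) ≤ (C:ℝ) := Nat.cast_nonneg C
    have h3 : m (Φ p) ≤ ENNReal.ofReal ((m (Φ p')).toReal +
        C * ∑ k ∈ Finset.range (n+1), ‖p.1 k - p'.1 k‖) := by
      rw [ENNReal.ofReal_add ENNReal.toReal_nonneg (mul_nonneg hC0 hs0),
        ENNReal.ofReal_toReal (hfin p'), ENNReal.ofReal_mul hC0, ENNReal.ofReal_natCast]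
      exact h1.trans (add_le_add le_rfl (by gcongr))
    exact ENNReal.toReal_le_of_le_ofReal
      (add_nonneg ENNReal.toReal_nonneg (mul_nonneg hC0 hs0)) h3
  rw [continuous_iff_continuousAt]
  intro p
  have hg : Continuous (fun p' : Code m =>
      (C:ℝ) * ∑ k ∈ Finset.range (n+1), ‖p'.1 k - p.1 k‖) := by
    refine continuous_const.mul (continuous_finset_sum _ fun k _ => ?_)
    exact (((continuous_apply k).comp continuous_subtype_val).sub continuous_const).norm
  have hg0 : Tendsto (fun p' : Code m =>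
      (C:ℝ) * ∑ k ∈ Finset.range (n+1), ‖p'.1 k - p.1 k‖) (𝓝 p) (𝓝 0) := by
    have h1 := hg.tendsto p
    simpa using h1
  rw [ContinuousAt, tendsto_iff_dist_tendsto_zero]
  refine squeeze_zero (fun _ => dist_nonneg) (fun p' => ?_) hg0
  have h1 := hbound p' p
  have h2 := hbound p p'
  have h3 : ∑ k ∈ Finset.range (n+1), ‖p.1 k - p'.1 k‖ =
      ∑ k ∈ Finset.range (n+1), ‖p'.1 k - p.1 k‖ :=
    Finset.sum_congr rfl (fun k _ => norm_sub_rev _ _)
  rw [h3] at h2
  rw [Real.dist_eq, abs_le]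
  constructor
  · linarith
  · linarith

end Pool.H110K2
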