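import Pool.Agent.H110K2.Defs
import Pool.Agent.H110K2.P_cont_of_dis
import Pool.Agent.H110K2.P_bs_meas

set_option linter.all false

namespace Pool.H110K2
open MeasureTheory Set Filter Topology
open scoped ENNReal NNReal symmDiff


theorem cont_bs {W : Type*} [MeasurableSpace W] {m : Measure W} :
    Continuous (fun p : Code m => (m (Bs p)).toReal) := by
  refine cont_of_dis (fun p => Bs p) 0 1 (fun p => (bs_meas p).2) (fun p p' => ?_)
  rw [Nat.cast_one, one_mul]
  refine measure_mono ?_
  rintro w ⟨h1, h2⟩
  refine ⟨0, le_refl 0, ?_⟩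
  intro h
  apply h2
  simp only [Bs, Set.mem_setOf_eq] at h1 ⊢
  rw [← h]
  exact h1

end Pool.H110K2
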