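import Pool.Agent.H110K2.Defs

set_option linter.all false

namespace Pool.H110K2
open MeasureTheory Set Filter Topology
open scoped ENNReal NNReal symmDiff


theorem dis_spec {W X : Type*} [MeasurableSpace W] [MeasurableSpace X] {m : Measure W}
    (e : X ≃ᵐ (ℕ → Bool)) (n : ℕ) (p p' : Code m) (w : W) (hw : w ∉ DIS n p p') :
    (w ∈ Bs p ↔ w ∈ Bs p') ∧
      ∀ i : Idx, i.1 ≤ n → (th e p w ∈ Cyl e i ↔ th e p' w ∈ Cyl e i) := by
  have hk : ∀ k ≤ n, (p.1 k : W → ℝ) w = (p'.1 k : W → ℝ) w := by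
    intro k hk
    by_contra hne
    exact hw ⟨k, hk, hne⟩
  refine ⟨?_, ?_⟩
  · show (p.1 0 : W → ℝ) w = 1 ↔ (p'.1 0 : W → ℝ) w = 1
    rw [hk 0 (Nat.zero_le n)]
  · intro i hi
    have h1 : (fun k : Fin i.1 => e (th e p w) k) = (fun k : Fin i.1 => e (th e p' w) k) := by
      funext k
      have hk1 : (k : ℕ) + 1 ≤ n := le_trans k.2 hi
      simp only [th, MeasurableEquiv.apply_symm_apply]
      rw [hk _ hk1]
    show (fun k : Fin i.1 => e (th e p w) k) ∈ i.2 ↔ (fun k : Fin i.1 => e (th e p' w) k) ∈ i.2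
    rw [h1]

end Pool.H110K2
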