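import Pool.Agent.H110K2.Defs
import Pool.Agent.H110K2.P_cont_of_dis
import Pool.Agent.H110K2.P_bs_meas
import Pool.Agent.H110K2.P_dis_spec

set_option linter.all false

namespace Pool.H110K2
open MeasureTheory Set Filter Topology
open scoped ENNReal NNReal symmDiff


theorem cont_cyl {W X : Type*} [MeasurableSpace W] [MeasurableSpace X] {m : Measure W}
    (e : X ≃ᵐ (ℕ → Bool)) (i : Idx) :
    Continuous (fun p : Code m => (m (Bs p ∩ th e p ⁻¹' Cyl e i)).toReal) := by
  refine cont_of_dis (fun p : Code m => Bs p ∩ th e p ⁻¹' Cyl e i) i.1 1 ?_ ?_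
  · intro p
    exact ne_top_of_le_ne_top (bs_meas p).2 (measure_mono Set.inter_subset_left)
  · intro p p'
    simp only [Nat.cast_one, one_mul]
    apply measure_mono
    intro w hw
    by_contra hd
    obtain ⟨h1, h2⟩ := dis_spec e i.1 p p' w hd
    apply hw.2
    exact ⟨h1.1 hw.1.1, (h2 i le_rfl).1 hw.1.2⟩

end Pool.H110K2
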