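import Pool.Agent.H110K2.Defs
import Pool.Agent.H110K2.P_cont_of_dis
import Pool.Agent.H110K2.P_bs_meas
import Pool.Agent.H110K2.P_dis_spec

set_option linter.all false

namespace Pool.H110K2
open MeasureTheory Set Filter Topology
open scoped ENNReal NNReal symmDiff


theorem cont_sym {W X : Type*} [MeasurableSpace W] [MeasurableSpace X] {m : Measure W}
    (e : X ≃ᵐ (ℕ → Bool)) (D : Set W) (hD : MeasurableSet D) (i : Idx) :
    Continuous (fun p : Code m =>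
      (m ((D ∩ Bs p) ∆ (Bs p ∩ th e p ⁻¹' Cyl e i))).toReal) := by
  apply cont_of_dis (fun p : Code m => (D ∩ Bs p) ∆ (Bs p ∩ th e p ⁻¹' Cyl e i)) i.1 1
  · intro p
    have hsub : (D ∩ Bs p) ∆ (Bs p ∩ th e p ⁻¹' Cyl e i) ⊆ Bs p := by
      intro w hw
      rcases hw with ⟨h1, _⟩ | ⟨h1, _⟩
      · exact h1.2
      · exact h1.1
    exact ne_top_of_le_ne_top (bs_meas p).2 (measure_mono hsub)
  · intro p p'
    rw [Nat.cast_one, one_mul]
    apply measure_mono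
    rintro w ⟨h1, h2⟩
    by_contra hw
    have hs := dis_spec e i.1 p p' w hw
    have h3 := hs.1
    have h4 := hs.2 i le_rfl
    apply h2
    rcases h1 with ⟨⟨ha, hb⟩, hc⟩ | ⟨⟨ha, hb⟩, hc⟩
    · refine Or.inl ⟨⟨ha, h3.mp hb⟩, fun hd => hc ⟨hb, h4.mpr hd.2⟩⟩
    · refine Or.inr ⟨⟨h3.mp ha, h4.mp hb⟩, fun hd => hc ⟨hd.1, ha⟩⟩

end Pool.H110K2
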