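import Pool.Agent.H110K2.Defs

set_option linter.all false

namespace Pool.H110K2
open MeasureTheory Set Filter Topology
open scoped ENNReal NNReal symmDiff


theorem sep_seq {W : Type*} [MeasurableSpace W] [StandardBorelSpace W] :
    ∃ D : ℕ → Set W, (∀ j, MeasurableSet (D j)) ∧
      ∀ w w', (∀ j, w ∈ D j ↔ w' ∈ D j) → w = w' := by
  obtain ⟨f, hf, hinj⟩ := MeasurableSpace.measurable_injection_nat_bool_of_countablySeparated W
  refine ⟨fun j => {w | f w j = true}, fun j => ?_, fun w w' h => ?_⟩
  · exact (measurable_pi_apply j).comp hf (MeasurableSet.of_discrete (s := {true}))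
  · apply hinj
    funext j
    have hj := h j
    simp only [Set.mem_setOf_eq] at hj
    exact Bool.eq_iff_iff.mpr hj

end Pool.H110K2
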