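import Pool.Agent.H110K2.Defs
import Pool.Agent.H110K2.P_sep_seq
import Pool.Agent.H110K2.P_cont_bs
import Pool.Agent.H110K2.P_cont_cyl
import Pool.Agent.H110K2.P_cont_sym
import Pool.Agent.H110K2.P_PP_iff

set_option linter.all false

namespace Pool.H110K2
open MeasureTheory Set Filter Topology
open scoped ENNReal NNReal symmDiff


theorem PP_Gdelta {W X : Type*} [MeasurableSpace W] [StandardBorelSpace W] [MeasurableSpace X]
    {m : Measure W} {μ : Measure X} [IsProbabilityMeasure μ] (e : X ≃ᵐ (ℕ → Bool)) :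
    IsGδ (PP m μ e) := by
  obtain ⟨D, hD, hsep⟩ := sep_seq (W := W)
  have hset : PP m μ e = {p : Code m | (m (Bs p)).toReal ≠ 0} ∩
      ((⋂ i : Idx, {p : Code m | (m (Bs p ∩ th e p ⁻¹' Cyl e i)).toReal -
          (m (Bs p)).toReal * (μ (Cyl e i)).toReal ∈ ({0} : Set ℝ)}) ∩
        ⋂ j : ℕ, ⋂ n : ℕ, ⋃ i : Idx, {p : Code m |
          (m ((D j ∩ Bs p) ∆ (Bs p ∩ th e p ⁻¹' Cyl e i))).toReal < 1 / ((n : ℝ) + 1)}) := by
    ext p
    rw [PP_iff e D hD hsep p]
    simp only [Set.mem_inter_iff, Set.mem_iInter, Set.mem_iUnion, Set.mem_ofPred_eq,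
      Set.mem_singleton_iff, sub_eq_zero]
  rw [hset]
  apply IsGδ.inter
  · apply IsOpen.isGδ
    exact isOpen_ne_fun cont_bs continuous_const
  · apply IsGδ.inter
    · apply IsGδ.iInter
      intro i
      have hc : Continuous (fun p : Code m => (m (Bs p ∩ th e p ⁻¹' Cyl e i)).toReal -
          (m (Bs p)).toReal * (μ (Cyl e i)).toReal) :=
        (cont_cyl e i).sub (cont_bs.mul continuous_const)
      exact (isClosed_singleton.isGδ : IsGδ ({0} : Set ℝ)).preimage hc
    · apply IsGδ.iInter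
      intro j
      apply IsGδ.iInter
      intro n
      apply IsOpen.isGδ
      apply isOpen_iUnion
      intro i
      exact isOpen_lt (cont_sym e (D j) (hD j) i) continuous_const

end Pool.H110K2
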