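import Pool.Agent.H110K2.Defs
import Pool.Agent.H110K2.P_lam_countable

set_option linter.all false

namespace Pool.H110K2
open MeasureTheory Set Filter Topology
open scoped ENNReal NNReal symmDiff


theorem QR_aux_forall {W : Type*} [MeasurableSpace W] {B : Set W} (p : Lam → Prop)
    (f : Lam → W → W) (hf : ∀ j, Measurable (f j)) (hB : MeasurableSet B) :
    MeasurableSet {w | ∀ j, p j → f j w ∉ B} := by
  haveI := lam_countable
  have h : {w | ∀ j, p j → f j w ∉ B} = ⋂ j, {w | p j → f j w ∉ B} := by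
    ext w
    simp
  rw [h]
  apply MeasurableSet.iInter
  intro j
  by_cases hp : p j
  · have : {w | p j → f j w ∉ B} = (f j ⁻¹' B)ᶜ := by
      ext w
      simp [hp]
    rw [this]
    exact (hf j hB).compl
  · have : {w | p j → f j w ∉ B} = univ := by
      ext w
      simp [hp]
    rw [this]
    exact MeasurableSet.univ

theorem QR_aux_succ {W : Type*} [MeasurableSpace W] {m : Measure W} {a : Lam → W → W}
    (hS : Sys m a) {B : Set W} (hB : MeasurableSet B) (f : W → W) (hf : Measurable f) (k : Lam) :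
    MeasurableSet {w | IsSucc a B (f w) k} := by
  have h1 := QR_aux_forall (B := B) (fun j => 0 < j ∧ j < k) (fun j w => a j (f w))
    (fun j => (hS.meas j).comp hf) hB
  have h : {w | IsSucc a B (f w) k} = {w | 0 < k} ∩ ((fun w => a k (f w)) ⁻¹' B ∩
      {w | ∀ j, (0 < j ∧ j < k) → a j (f w) ∉ B}) := by
    ext w
    constructor
    · rintro ⟨h1, h2, h3⟩
      exact ⟨h1, h2, fun j hj => h3 j hj.1 hj.2⟩
    · rintro ⟨h1, h2, h3⟩
      exact ⟨h1, h2, fun j hj hj' => h3 j ⟨hj, hj'⟩⟩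
  rw [h]
  exact (MeasurableSet.const _).inter ((((hS.meas k).comp hf) hB).inter h1)

theorem QR_meas {W : Type*} [MeasurableSpace W] {m : Measure W} {a : Lam → W → W}
    (hS : Sys m a) {B B' : Set W} {σ σ' : W → W} (hB : MeasurableSet B)
    (hB' : MeasurableSet B') (hσ : Measurable σ) (hσ' : Measurable σ')
    (g : Lam → Lam → Lam → Lam) (s l l' : Lam) :
    MeasurableSet (Qs a B B' σ s l l') ∧ MeasurableSet (Rs a B B' σ' g s l l') := by
  constructor
  · have h1 := QR_aux_forall (B := B) (fun j => 0 ≤ j ∧ j < s) (fun j w => a (-j) w)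
      (fun j => hS.meas (-j)) hB
    have h2 := QR_aux_succ hS hB (fun w => a (-s) w) (hS.meas (-s)) l
    have h3 := QR_aux_succ hS hB' (fun w => σ (a (-s) w)) (hσ.comp (hS.meas (-s))) l'
    have h : Qs a B B' σ s l l' = (({w | 0 ≤ s} ∩ ((fun w => a (-s) w) ⁻¹' B ∩
        {w | ∀ j, (0 ≤ j ∧ j < s) → a (-j) w ∉ B})) ∩ ({w | IsSucc a B (a (-s) w) l} ∩
        {w | IsSucc a B' (σ (a (-s) w)) l'})) := by
      ext w
      constructor
      · rintro ⟨⟨q1, q2, q3⟩, q4, q5⟩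
        exact ⟨⟨q1, q2, fun j hj => q3 j hj.1 hj.2⟩, q4, q5⟩
      · rintro ⟨⟨q1, q2, q3⟩, q4, q5⟩
        exact ⟨⟨q1, q2, fun j hj hj' => q3 j ⟨hj, hj'⟩⟩, q4, q5⟩
    rw [h]
    exact ((MeasurableSet.const _).inter (((hS.meas (-s)) hB).inter h1)).inter (h2.inter h3)
  · have h2 := QR_aux_succ hS hB (fun w => σ' (a (-(g l l' s)) w)) (hσ'.comp (hS.meas _)) l
    have h3 := QR_aux_succ hS hB' (fun w => a (-(g l l' s)) w) (hS.meas _) l'
    have h : Rs a B B' σ' g s l l' = ({w | 0 ≤ s ∧ s < l} ∩ ((fun w => a (-(g l l' s)) w) ⁻¹' B')) ∩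
        ({w | IsSucc a B (σ' (a (-(g l l' s)) w)) l} ∩
          {w | IsSucc a B' (a (-(g l l' s)) w) l'}) := by
      ext w
      constructor
      · rintro ⟨q1, q2, q3, q4, q5⟩
        exact ⟨⟨⟨q1, q2⟩, q3⟩, q4, q5⟩
      · rintro ⟨⟨⟨q1, q2⟩, q3⟩, q4, q5⟩
        exact ⟨q1, q2, q3, q4, q5⟩
    rw [h]
    exact ((MeasurableSet.const _).inter ((hS.meas _) hB')).inter (h2.inter h3)

end Pool.H110K2
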