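import Pool.Agent.H110K2.Defs

set_option linter.all false

namespace Pool.H110K2
open MeasureTheory Set Filter Topology
open scoped ENNReal NNReal symmDiff


theorem succ_unique {W : Type*} [MeasurableSpace W] {m : Measure W} {a : Lam → W → W}
    (hS : Sys m a) {B : Set W} (w : W) :
    (∀ k l, IsSucc a B w k → IsSucc a B w l → k = l) ∧
    (∀ k l, IsPred a B w k → IsPred a B w l → k = l) ∧
    (∀ k, w ∈ B → IsSucc a B w k → IsPred a B (a k w) k) ∧
    (∀ k, w ∈ B → IsPred a B w k → IsSucc a B (a (-k) w) k) := by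
  have hadd : ∀ j k : Lam, a j (a k w) = a (j + k) w := fun j k => (hS.add j k w).symm
  refine ⟨?_, ?_, ?_, ?_⟩
  · rintro k l ⟨hk0, hk1, hk2⟩ ⟨hl0, hl1, hl2⟩
    rcases lt_trichotomy k l with h | h | h
    · exact absurd hk1 (hl2 k hk0 h)
    · exact h
    · exact absurd hl1 (hk2 l hl0 h)
  · rintro k l ⟨hk0, hk1, hk2⟩ ⟨hl0, hl1, hl2⟩
    rcases lt_trichotomy k l with h | h | h
    · exact absurd hk1 (hl2 k hk0 h)
    · exact h
    · exact absurd hl1 (hk2 l hl0 h)
  · rintro k hw ⟨hk0, hk1, hk2⟩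
    refine ⟨hk0, ?_, ?_⟩
    · rw [hadd, neg_add_cancel, hS.zero]
      exact hw
    · intro j hj0 hjk
      rw [hadd]
      have h1 := hk2 (k - j) (sub_pos.2 hjk) (sub_lt_self k hj0)
      have h2 : -j + k = k - j := by abel
      rw [h2]
      exact h1
  · rintro k hw ⟨hk0, hk1, hk2⟩
    refine ⟨hk0, ?_, ?_⟩
    · rw [hadd, add_neg_cancel, hS.zero]
      exact hw
    · intro j hj0 hjk
      rw [hadd]
      have h1 := hk2 (k - j) (sub_pos.2 hjk) (sub_lt_self k hj0)
      have h2 : j + -k = -(k - j) := by abel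
      rw [h2]
      exact h1

end Pool.H110K2
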