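import Pool.Agent.H110K2.Defs
import Pool.Agent.H110K2.P_succ_unique

set_option linter.all false

namespace Pool.H110K2
open MeasureTheory Set Filter Topology
open scoped ENNReal NNReal symmDiff


theorem Qs_disj {W : Type*} [MeasurableSpace W] {m : Measure W} {a : Lam → W → W}
    (hS : Sys m a) {B B' : Set W} {σ : W → W} (w : W) (s l l' t k k' : Lam)
    (h1 : w ∈ Qs a B B' σ s l l') (h2 : w ∈ Qs a B B' σ t k k') :
    s = t ∧ l = k ∧ l' = k' ∧ 0 ≤ s ∧ s < l := by
  obtain ⟨f1, s1, s1'⟩ := h1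
  obtain ⟨f2, s2, s2'⟩ := h2
  have hst : s = t := by
    rcases lt_trichotomy s t with h | h | h
    · exact absurd f1.2.1 (f2.2.2 s f1.1 h)
    · exact h
    · exact absurd f2.2.1 (f1.2.2 t f2.1 h)
  subst hst
  refine ⟨rfl, (succ_unique hS _).1 l k s1 s2, (succ_unique hS _).1 l' k' s1' s2', f1.1, ?_⟩
  by_contra hcon
  have hls : l ≤ s := not_lt.1 hcon
  have h3 : a l (a (-s) w) = a (-(s - l)) w := by
    rw [← hS.add]
    congr 1
    abel
  have h4 : a (-(s - l)) w ∈ B := by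
    rw [← h3]; exact s1.2.1
  exact f1.2.2 (s - l) (sub_nonneg.2 hls) (sub_lt_self s s1.1) h4
end Pool.H110K2
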