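import Pool.Agent.H110K2.Defs
import Pool.Agent.H110K2.P_succ_unique

set_option linter.all false

namespace Pool.H110K2
open MeasureTheory Set Filter Topology
open scoped ENNReal NNReal symmDiff


theorem Rs_disj {W : Type*} [MeasurableSpace W] {m : Measure W} {a : Lam → W → W}
    (hS : Sys m a) {B B' : Set W} {σ' : W → W} {g : Lam → Lam → Lam → Lam} (hg : GapEmb g)
    (w : W) (s l l' t k k' : Lam)
    (h1 : w ∈ Rs a B B' σ' g s l l') (h2 : w ∈ Rs a B B' σ' g t k k') :
    s = t ∧ l = k ∧ l' = k' ∧ 0 ≤ s ∧ s < l ∧ Flr a B' w (g l l' s) := by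
  have key : ∀ s l l' : Lam, w ∈ Rs a B B' σ' g s l l' → Flr a B' w (g l l' s) := by
    intro s l l' h
    obtain ⟨hs0, hsl, hB', hsu, hsu'⟩ := h
    have hl : 0 < l := hsu.1
    have hl' : 0 < l' := hsu'.1
    have hG0 : 0 ≤ g l l' s := by
      rcases eq_or_lt_of_le hs0 with h0 | h0
      · rw [← h0, hg.zero l l' hl hl']
      · have := hg.mono l l' hl hl' 0 s le_rfl h0 hsl
        rw [hg.zero l l' hl hl'] at this
        exact le_of_lt this
    have hGl : g l l' s < l' := hg.lt l l' hl hl' s hs0 hsl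
    refine ⟨hG0, hB', ?_⟩
    intro j hj0 hjG
    have h1 : a (g l l' s - j) (a (-(g l l' s)) w) ∉ B' := by
      apply hsu'.2.2
      · exact sub_pos.mpr hjG
      · exact lt_of_le_of_lt (sub_le_self _ hj0) hGl
    rw [← hS.add] at h1
    have h2 : g l l' s - j + -(g l l' s) = -j := by abel
    rw [h2] at h1
    exact h1
  have f1 := key s l l' h1
  have f2 := key t k k' h2
  have hGG : g l l' s = g k k' t := by
    rcases lt_trichotomy (g l l' s) (g k k' t) with h | h | h
    · exact absurd f1.2.1 (f2.2.2 _ f1.1 h)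
    · exact h
    · exact absurd f2.2.1 (f1.2.2 _ f2.1 h)
  have e1 := f1
  obtain ⟨hs0, hsl, hB', hsu, hsu'⟩ := h1
  obtain ⟨ht0, htk, hB2', htu, htu'⟩ := h2
  rw [← hGG] at htu htu'
  have hlk : l = k := (succ_unique hS _).1 l k hsu htu
  have hlk' : l' = k' := (succ_unique hS _).1 l' k' hsu' htu'
  subst hlk
  subst hlk'
  have hl : 0 < l := hsu.1
  have hl' : 0 < l' := hsu'.1
  refine ⟨?_, rfl, rfl, hs0, hsl, e1⟩
  rcases lt_trichotomy s t with h | h | h
  · exact absurd hGG (ne_of_lt (hg.mono l l' hl hl' s t hs0 h htk))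
  · exact h
  · exact absurd hGG.symm (ne_of_lt (hg.mono l l' hl hl' t s ht0 h hsl))

end Pool.H110K2
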