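import Pool.Agent.H110K2.Defs

set_option linter.all false

namespace Pool.H110K2
open MeasureTheory Set Filter Topology
open scoped ENNReal NNReal symmDiff


theorem act_zpow_meas {X : Type*} [MeasurableSpace X] (T : X ≃ᵐ X) (n : ℤ) :
    Measurable (fun x => ((T.toEquiv : Equiv.Perm X) ^ n) x) := by
  have hnat : ∀ (U : Equiv.Perm X), Measurable (fun x => U x) → ∀ m : ℕ,
      Measurable (fun x => (U ^ m) x) := by
    intro U hU m
    induction m with
    | zero => simpa using measurable_id'
    | succ m ih =>
      have : (fun x => (U ^ (m + 1)) x) = (fun x => (U ^ m) x) ∘ (fun x => U x) := by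
        funext x
        rw [pow_succ, Equiv.Perm.mul_apply]
        rfl
      rw [this]
      exact ih.comp hU
  rcases Int.eq_nat_or_neg n with ⟨m, rfl | rfl⟩
  · simp only [zpow_natCast]
    exact hnat _ T.measurable m
  · have : ∀ x, ((T.toEquiv : Equiv.Perm X) ^ (-(m : ℤ))) x =
        (((T.toEquiv : Equiv.Perm X)⁻¹) ^ m) x := by
      intro x
      rw [zpow_neg, zpow_natCast, inv_pow]
    simp only [this]
    exact hnat _ T.symm.measurable m

theorem act_basic {X : Type*} [MeasurableSpace X] (T : X ≃ᵐ X) :
    (∀ k, Measurable (act T k)) ∧ (∀ w, act T 0 w = w) ∧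
      (∀ k l w, act T (k + l) w = act T k (act T l w)) := by
  refine ⟨?_, ?_, ?_⟩
  · intro k
    unfold act
    exact ((act_zpow_meas T _).comp measurable_fst).prodMk
      ((measurable_from_top (f := fun q : ℚ => q + (ofLex k).2)).comp measurable_snd)
  · intro w
    unfold act
    ext <;> simp
  · intro k l w
    unfold act
    ext
    · show ((T.toEquiv : Equiv.Perm X) ^ ((ofLex k).1 + (ofLex l).1)) w.1 = _
      rw [zpow_add, Equiv.Perm.mul_apply]
    · show w.2 + ((ofLex k).2 + (ofLex l).2) = w.2 + (ofLex l).2 + (ofLex k).2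
      ring

end Pool.H110K2
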