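import Pool.Agent.H110K2.Defs
import Pool.Agent.H110K2.P_act_basic

set_option linter.all false

namespace Pool.H110K2
open MeasureTheory Set Filter Topology
open scoped ENNReal NNReal symmDiff


theorem act_fin {X : Type*} [MeasurableSpace X] (μ : Measure X)
    [IsProbabilityMeasure μ] (T : X ≃ᵐ X) (hT : MeasurePreserving T μ μ)
    (B : Set (X × ℚ)) (hB : MeasurableSet B)
    (h : (μ.prod (Measure.count : Measure ℚ)) B ≠ ⊤) :
    ∀ᵐ w ∂(μ.prod (Measure.count : Measure ℚ)), ∀ k l : Lam,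
      {j | k ≤ j ∧ j ≤ l ∧ act T j w ∈ B}.Finite := by
  have hgen : ∀ (S : X ≃ᵐ X), MeasurePreserving S μ μ → ∀ n : ℕ,
      MeasurePreserving (fun x => ((S.toEquiv : Equiv.Perm X) ^ n) x) μ μ := by
    intro S hS n
    have e : (fun x => ((S.toEquiv : Equiv.Perm X) ^ n) x) = (⇑S)^[n] :=
      (Equiv.Perm.iterate_eq_pow S.toEquiv n).symm
    rw [e]
    exact hS.iterate n
  have hmpz : ∀ n : ℤ, MeasurePreserving (fun x => ((T.toEquiv : Equiv.Perm X) ^ n) x) μ μ := by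
    intro n
    obtain ⟨m, rfl | rfl⟩ := n.eq_nat_or_neg
    · have e : ((T.toEquiv : Equiv.Perm X) ^ (m : ℤ)) = (T.toEquiv : Equiv.Perm X) ^ m :=
        zpow_natCast _ _
      rw [e]
      exact hgen T hT m
    · have e : ((T.toEquiv : Equiv.Perm X) ^ (-(m : ℤ))) = (T.symm.toEquiv : Equiv.Perm X) ^ m := by
        rw [zpow_neg, zpow_natCast, ← inv_pow]
        rfl
      rw [e]
      exact hgen T.symm (hT.symm T) m
  have hN : ∀ᵐ x ∂μ, (Measure.count : Measure ℚ) (Prod.mk x ⁻¹' B) < ⊤ := by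
    refine ae_lt_top (measurable_measure_prodMk_left hB) ?_
    rw [← Measure.prod_apply hB]
    exact h
  have hN2 : ∀ᵐ x ∂μ, ∀ n : ℤ, (Measure.count : Measure ℚ)
      (Prod.mk (((T.toEquiv : Equiv.Perm X) ^ n) x) ⁻¹' B) < ⊤ := by
    rw [ae_all_iff]
    intro n
    exact (hmpz n).quasiMeasurePreserving.ae hN
  have hN3 : ∀ᵐ w ∂(μ.prod (Measure.count : Measure ℚ)), ∀ n : ℤ, (Measure.count : Measure ℚ)
      (Prod.mk (((T.toEquiv : Equiv.Perm X) ^ n) w.1) ⁻¹' B) < ⊤ :=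
    Measure.quasiMeasurePreserving_fst.ae hN2
  filter_upwards [hN3] with w hw
  intro k l
  have hfin : (⋃ n ∈ Set.Icc (ofLex k).1 (ofLex l).1, (fun q : ℚ => (toLex (n, q) : Lam)) ''
      {q : ℚ | ((((T.toEquiv : Equiv.Perm X) ^ n) w.1, w.2 + q) : X × ℚ) ∈ B}).Finite := by
    refine (Set.finite_Icc _ _).biUnion ?_
    intro n _
    refine Set.Finite.image _ ?_
    have h1 : (Prod.mk (((T.toEquiv : Equiv.Perm X) ^ n) w.1) ⁻¹' B).Finite :=
      Measure.count_apply_lt_top.mp (hw n)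
    exact h1.preimage (f := fun q : ℚ => w.2 + q) (fun a _ b _ hab => add_left_cancel hab)
  refine hfin.subset ?_
  rintro j ⟨h1, h2, h3⟩
  rw [Set.mem_iUnion₂]
  refine ⟨(ofLex j).1, ⟨?_, ?_⟩, (ofLex j).2, h3, rfl⟩
  · rcases Prod.Lex.le_iff.mp h1 with h | h
    · exact le_of_lt h
    · exact le_of_eq h.1
  · rcases Prod.Lex.le_iff.mp h2 with h | h
    · exact le_of_lt h
    · exact le_of_eq h.1

end Pool.H110K2
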