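import Pool.Agent.H110K2.Defs

set_option linter.all false

namespace Pool.H110K2
open MeasureTheory Set Filter Topology
open scoped ENNReal NNReal symmDiff


theorem aper_pos {X : Type*} [MeasurableSpace X] [StandardBorelSpace X] (μ : Measure X)
    [IsProbabilityMeasure μ] [NullSingletonClass μ] (T : X ≃ᵐ X) (hT : Ergodic T μ) (n : ℕ)
    (hn : 0 < n) : ∀ᵐ x ∂μ, (⇑T)^[n] x ≠ x := by
  have hg := measurableEmbedding_embeddingReal X
  have hgi : Function.Injective (embeddingReal X) := hg.injective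
  have hTm : ∀ i : ℕ, Measurable ((⇑T)^[i]) := fun i => T.measurable.iterate i
  have hPm : MeasurableSet {x | (⇑T)^[n] x = x} := by
    have h1 : {x | (⇑T)^[n] x = x} = {x | embeddingReal X ((⇑T)^[n] x) = embeddingReal X x} := by
      ext x
      exact hgi.eq_iff.symm
    rw [h1]
    exact measurableSet_eq_fun (hg.measurable.comp (hTm n)) hg.measurable
  have hPinv : (⇑T) ⁻¹' {x | (⇑T)^[n] x = x} = {x | (⇑T)^[n] x = x} := by
    ext x
    change (⇑T)^[n] (T x) = T x ↔ (⇑T)^[n] x = x
    rw [← Function.iterate_succ_apply, Function.iterate_succ_apply']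
    exact T.injective.eq_iff
  rcases Filter.eventuallyConst_set.1 (hT.toPreErgodic.aeconst_set hPm hPinv) with hP | hP
  · exfalso
    haveI : NeZero n := ⟨hn.ne'⟩
    haveI : Nonempty (Fin n) := ⟨⟨0, hn⟩⟩
    let f : X → ℝ := fun x => ⨅ i : Fin n, embeddingReal X ((⇑T)^[(i : ℕ)] x)
    have hfm : Measurable f := Measurable.iInf fun i => hg.measurable.comp (hTm i)
    have hbdd : ∀ h : Fin n → ℝ, BddBelow (Set.range h) := fun h => (Set.finite_range h).bddBelow
    have hinv : f ∘ T =ᵐ[μ] f := by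
      filter_upwards [hP] with x hx
      have hx' : (⇑T)^[n] x = x := hx
      change (⨅ i : Fin n, embeddingReal X ((⇑T)^[(i : ℕ)] (T x))) =
        ⨅ i : Fin n, embeddingReal X ((⇑T)^[(i : ℕ)] x)
      apply le_antisymm
      · refine le_ciInf fun i => ?_
        rcases Nat.eq_zero_or_pos (i : ℕ) with hi | hi
        · refine le_trans (ciInf_le (hbdd _) (⟨n - 1, by omega⟩ : Fin n)) (le_of_eq ?_)
          change embeddingReal X ((⇑T)^[n - 1] (T x)) = embeddingReal X ((⇑T)^[(i : ℕ)] x)
          rw [hi, ← Function.iterate_succ_apply, Nat.succ_eq_add_one,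
            Nat.sub_add_cancel hn, hx', Function.iterate_zero_apply]
        · refine le_trans (ciInf_le (hbdd _) (⟨(i : ℕ) - 1, by omega⟩ : Fin n)) (le_of_eq ?_)
          change embeddingReal X ((⇑T)^[(i : ℕ) - 1] (T x)) = embeddingReal X ((⇑T)^[(i : ℕ)] x)
          rw [← Function.iterate_succ_apply, Nat.succ_eq_add_one, Nat.sub_add_cancel hi]
      · refine le_ciInf fun i => ?_
        rcases Nat.lt_or_ge ((i : ℕ) + 1) n with hi | hi
        · refine le_trans (ciInf_le (hbdd _) (⟨(i : ℕ) + 1, hi⟩ : Fin n)) (le_of_eq ?_)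
          change embeddingReal X ((⇑T)^[(i : ℕ) + 1] x) = embeddingReal X ((⇑T)^[(i : ℕ)] (T x))
          rw [← Function.iterate_succ_apply]
        · refine le_trans (ciInf_le (hbdd _) (⟨0, hn⟩ : Fin n)) (le_of_eq ?_)
          change embeddingReal X ((⇑T)^[0] x) = embeddingReal X ((⇑T)^[(i : ℕ)] (T x))
          have h2 : (i : ℕ) + 1 = n := le_antisymm i.2 hi
          rw [← Function.iterate_succ_apply, Nat.succ_eq_add_one, h2, hx',
            Function.iterate_zero_apply]
    obtain ⟨c, hc⟩ := hT.ae_eq_const_of_ae_eq_comp_ae hfm.aestronglyMeasurable hinv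
    have hnull : ∀ᵐ x ∂μ, ∀ i : Fin n, embeddingReal X ((⇑T)^[(i : ℕ)] x) ≠ c := by
      rw [ae_all_iff]
      intro i
      have hsub : {x | ¬ embeddingReal X ((⇑T)^[(i : ℕ)] x) ≠ c}.Subsingleton := by
        intro x hx y hy
        have hx' : embeddingReal X ((⇑T)^[(i : ℕ)] x) = c := not_not.1 hx
        have hy' : embeddingReal X ((⇑T)^[(i : ℕ)] y) = c := not_not.1 hy
        exact T.injective.iterate i (hgi (hx'.trans hy'.symm))
      exact hsub.measure_zero μ
    have hfalse : ∀ᵐ x ∂μ, False := by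
      filter_upwards [hc, hnull] with x h1 h2
      obtain ⟨i, hi⟩ := exists_eq_ciInf_of_finite
        (f := fun i : Fin n => embeddingReal X ((⇑T)^[(i : ℕ)] x))
      exact h2 i (hi.trans h1)
    exact hfalse.exists.elim fun _ h => h
  · filter_upwards [hP] with x hx
    exact hx

theorem aper {X : Type*} [MeasurableSpace X] [StandardBorelSpace X] (μ : Measure X)
    [IsProbabilityMeasure μ] [NullSingletonClass μ] (T : X ≃ᵐ X) (hT : Ergodic T μ) :
    ∀ᵐ x ∂μ, ∀ n : ℤ, ((T.toEquiv : Equiv.Perm X) ^ n) x = x → n = 0 := by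
  rw [ae_all_iff]
  intro n
  have hpow : ∀ (m : ℕ) (x : X), ((T.toEquiv : Equiv.Perm X) ^ m) x = (⇑T)^[m] x := by
    intro m x
    rw [← Equiv.Perm.iterate_eq_pow]
    rfl
  obtain ⟨m, rfl | rfl⟩ := n.eq_nat_or_neg
  · rcases Nat.eq_zero_or_pos m with rfl | hm
    · exact Filter.Eventually.of_forall fun x _ => rfl
    · filter_upwards [aper_pos μ T hT m hm] with x hx h1
      rw [zpow_natCast, hpow] at h1
      exact absurd h1 hx
  · rcases Nat.eq_zero_or_pos m with rfl | hm
    · exact Filter.Eventually.of_forall fun x _ => rfl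
    · filter_upwards [aper_pos μ T hT m hm] with x hx h1
      rw [zpow_neg, zpow_natCast, Equiv.Perm.inv_eq_iff_eq, hpow] at h1
      exact absurd h1.symm hx

end Pool.H110K2
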