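import Pool.Agent.H110K2.Defs
import Pool.Agent.H110K2.P_aper

set_option linter.all false

namespace Pool.H110K2
open MeasureTheory Set Filter Topology
open scoped ENNReal NNReal symmDiff


theorem act_free {X : Type*} [MeasurableSpace X] [StandardBorelSpace X] (μ : Measure X)
    [IsProbabilityMeasure μ] [NullSingletonClass μ] (T : X ≃ᵐ X) (hT : Ergodic T μ) :
    ∀ᵐ w ∂(μ.prod (Measure.count : Measure ℚ)), ∀ k : Lam, act T k w = w → k = 0 := by
  have h := (Measure.quasiMeasurePreserving_fst (μ := μ)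
    (ν := (Measure.count : Measure ℚ))).ae (aper μ T hT)
  filter_upwards [h] with w hw k hk
  have h1 : ((T.toEquiv : Equiv.Perm X) ^ (ofLex k).1) w.1 = w.1 := congrArg Prod.fst hk
  have h2 : w.2 + (ofLex k).2 = w.2 := congrArg Prod.snd hk
  have h3 : (ofLex k).1 = 0 := hw _ h1
  have h4 : (ofLex k).2 = 0 := by linarith
  have h5 : ofLex k = 0 := Prod.ext h3 h4
  exact h5

end Pool.H110K2
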