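import Pool.Agent.H110K2.Defs
import Pool.Agent.H110K2.P_act_basic

set_option linter.all false

namespace Pool.H110K2
open MeasureTheory Set Filter Topology
open scoped ENNReal NNReal symmDiff


theorem act_mp {X : Type*} [MeasurableSpace X] (μ : Measure X) [IsProbabilityMeasure μ]
    (T : X ≃ᵐ X) (hT : MeasurePreserving T μ μ) (k : Lam) :
    MeasurePreserving (act T k) (μ.prod (Measure.count : Measure ℚ))
      (μ.prod (Measure.count : Measure ℚ)) := by
  have hsym : MeasurePreserving (T.symm : X → X) μ μ := hT.symm T
  have hz : ∀ n : ℤ, MeasurePreserving (fun x => ((T.toEquiv : Equiv.Perm X) ^ n) x) μ μ := by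
    intro n
    induction n using Int.induction_on with
    | zero => exact MeasurePreserving.id μ
    | succ i ih =>
      have h : (fun x => ((T.toEquiv : Equiv.Perm X) ^ ((i : ℤ) + 1)) x)
          = (fun x => ((T.toEquiv : Equiv.Perm X) ^ (i : ℤ)) x) ∘ (T : X → X) := by
        funext x
        rw [zpow_add_one]
        rfl
      rw [h]
      exact ih.comp hT
    | pred i ih =>
      have h : (fun x => ((T.toEquiv : Equiv.Perm X) ^ (-(i : ℤ) - 1)) x)
          = (fun x => ((T.toEquiv : Equiv.Perm X) ^ (-(i : ℤ))) x) ∘ (T.symm : X → X) := by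
        funext x
        rw [zpow_sub_one]
        rfl
      rw [h]
      exact ih.comp hsym
  have hq : MeasurePreserving (fun q : ℚ => q + (ofLex k).2) (Measure.count : Measure ℚ)
      (Measure.count : Measure ℚ) := by
    have hm : Measurable (fun q : ℚ => q + (ofLex k).2) := measurable_from_top
    refine ⟨hm, ?_⟩
    ext s hs
    rw [Measure.map_apply hm hs, Measure.count_apply (hm hs), Measure.count_apply hs]
    congr 1
    exact Set.encard_preimage_of_bijective (Equiv.addRight (ofLex k).2).bijective s
  exact (hz (ofLex k).1).prod hq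

end Pool.H110K2
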