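import Pool.Agent.H110K2.Defs

set_option linter.all false

namespace Pool.H110K2
open MeasureTheory Set Filter Topology
open scoped ENNReal NNReal symmDiff


theorem recur_aux {X : Type*} [MeasurableSpace X] (μ : Measure X) [IsProbabilityMeasure μ]
    (f : X → X) (hf : MeasurePreserving f μ μ)
    (herg : ∀ s : Set X, MeasurableSet s → f ⁻¹' s = s → s =ᵐ[μ] (∅ : Set X) ∨ s =ᵐ[μ] univ)
    (A : Set X) (hA : MeasurableSet A) (h0 : μ A ≠ 0) :
    ∀ᵐ x ∂μ, ∃ᶠ n in atTop, f^[n] x ∈ A := by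
  have hG : MeasurableSet {x | ∃ᶠ n in atTop, f^[n] x ∈ A} := by
    have : {x | ∃ᶠ n in atTop, f^[n] x ∈ A} = ⋂ N : ℕ, ⋃ n : ℕ, ⋃ _ : N ≤ n, f^[n] ⁻¹' A := by
      ext x
      simp only [Set.mem_setOf_eq, Set.mem_iInter, Set.mem_iUnion, Set.mem_preimage,
        Filter.frequently_atTop]
      constructor
      · intro h N
        obtain ⟨b, hb, hb2⟩ := h N
        exact ⟨b, hb, hb2⟩
      · intro h N
        obtain ⟨b, hb, hb2⟩ := h N
        exact ⟨b, hb, hb2⟩
    rw [this]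
    refine MeasurableSet.iInter fun N => MeasurableSet.iUnion fun n => MeasurableSet.iUnion fun _ => ?_
    exact (hf.measurable.iterate n) hA
  have hinv : f ⁻¹' {x | ∃ᶠ n in atTop, f^[n] x ∈ A} = {x | ∃ᶠ n in atTop, f^[n] x ∈ A} := by
    ext x
    simp only [Set.mem_preimage, Set.mem_setOf_eq]
    rw [Filter.frequently_atTop, Filter.frequently_atTop]
    constructor
    · intro h N
      obtain ⟨b, hb, hb2⟩ := h N
      refine ⟨b + 1, by omega, ?_⟩
      rw [Function.iterate_succ_apply]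
      exact hb2
    · intro h N
      obtain ⟨b, hb, hb2⟩ := h (N + 1)
      obtain ⟨c, rfl⟩ : ∃ c, b = c + 1 := ⟨b - 1, by omega⟩
      refine ⟨c, by omega, ?_⟩
      rw [Function.iterate_succ_apply] at hb2
      exact hb2
  have hcons := hf.conservative.ae_mem_imp_frequently_image_mem hA.nullMeasurableSet
  rcases herg _ hG hinv with h | h
  · exfalso
    apply h0
    have h1 : μ {x | ∃ᶠ n in atTop, f^[n] x ∈ A} = 0 := by
      rw [measure_congr h]
      exact measure_empty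
    have h2 : ∀ᵐ x ∂μ, ¬ (∃ᶠ n in atTop, f^[n] x ∈ A) := by
      rw [ae_iff]
      simp only [not_not]
      exact h1
    have h3 : ∀ᵐ x ∂μ, x ∉ A := by
      filter_upwards [hcons, h2] with x hx hx2 hxA
      exact hx2 (hx hxA)
    rw [ae_iff] at h3
    simpa using h3
  · filter_upwards [h] with x hx
    have : x ∈ {x | ∃ᶠ n in atTop, f^[n] x ∈ A} := by
      have h4 : ({x | ∃ᶠ n in atTop, f^[n] x ∈ A} : Set X) x = (univ : Set X) x := hx
      have h5 : (univ : Set X) x := trivial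
      rw [← h4] at h5
      exact h5
    exact this

theorem recur {X : Type*} [MeasurableSpace X] (μ : Measure X) [IsProbabilityMeasure μ]
    (T : X ≃ᵐ X) (hT : Ergodic T μ) (A : Set X) (hA : MeasurableSet A) (h0 : μ A ≠ 0) :
    ∀ᵐ x ∂μ, ∀ n : ℤ, (∃ k, n < k ∧ ((T.toEquiv : Equiv.Perm X) ^ k) x ∈ A) ∧
      (∃ k, k < n ∧ ((T.toEquiv : Equiv.Perm X) ^ k) x ∈ A) := by
  have h1 := recur_aux μ T hT.toMeasurePreserving
    (fun s hs hfs => hT.toPreErgodic.ae_empty_or_univ hs hfs) A hA h0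
  have hsymm : MeasurePreserving T.symm μ μ := hT.toMeasurePreserving.symm T
  have h2 := recur_aux μ T.symm hsymm
    (fun s hs hfs => by
      refine hT.toPreErgodic.ae_empty_or_univ hs ?_
      ext x
      have h3 : (T x ∈ T.symm ⁻¹' s) ↔ (T x ∈ s) := by rw [hfs]
      simp only [Set.mem_preimage, MeasurableEquiv.symm_apply_apply] at h3 ⊢
      exact h3.symm) A hA h0
  filter_upwards [h1, h2] with x hx1 hx2
  intro n
  constructor
  · obtain ⟨m, hm, hmA⟩ := Filter.frequently_atTop.mp hx1 (n + 1).toNat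
    refine ⟨(m : ℤ), by omega, ?_⟩
    rw [zpow_natCast, ← Equiv.Perm.iterate_eq_pow]
    exact hmA
  · obtain ⟨m, hm, hmA⟩ := Filter.frequently_atTop.mp hx2 (-n + 1).toNat
    refine ⟨-(m : ℤ), by omega, ?_⟩
    rw [zpow_neg, zpow_natCast, ← inv_pow, ← Equiv.Perm.iterate_eq_pow]
    exact hmA

end Pool.H110K2
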