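import Pool.Agent.H110K2.Defs
import Pool.Agent.H110K2.P_recur

set_option linter.all false

namespace Pool.H110K2
open MeasureTheory Set Filter Topology
open scoped ENNReal NNReal symmDiff


theorem act_updown {X : Type*} [MeasurableSpace X] (μ : Measure X)
    [IsProbabilityMeasure μ] (T : X ≃ᵐ X) (hT : Ergodic T μ)
    (B : Set (X × ℚ)) (hB : MeasurableSet B)
    (h : (μ.prod (Measure.count : Measure ℚ)) B ≠ 0) :
    ∀ᵐ w ∂(μ.prod (Measure.count : Measure ℚ)), ∀ k : Lam,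
      (∃ l, k < l ∧ act T l w ∈ B) ∧ (∃ l, l < k ∧ act T l w ∈ B) := by
  have hq : ∃ q : ℚ, μ {x | (x, q) ∈ B} ≠ 0 := by
    by_contra hne
    push Not at hne
    apply h
    rw [Measure.prod_apply_symm hB]
    have : ∀ y : ℚ, μ ((fun x => (x, y)) ⁻¹' B) = 0 := fun y => hne y
    simp [this]
  obtain ⟨q, hq⟩ := hq
  have hA : MeasurableSet {x | (x, q) ∈ B} := measurable_prodMk_right hB
  have hr := recur μ T hT _ hA hq
  have hw := (Measure.quasiMeasurePreserving_fst (μ := μ)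
    (ν := (Measure.count : Measure ℚ))).ae hr
  filter_upwards [hw] with w hw k
  obtain ⟨⟨k1, hk1, hk1'⟩, ⟨k2, hk2, hk2'⟩⟩ := hw (ofLex k).1
  refine ⟨⟨toLex (k1, q - w.2), ?_, ?_⟩, ⟨toLex (k2, q - w.2), ?_, ?_⟩⟩
  · rw [Prod.Lex.lt_iff]
    left
    exact hk1
  · show (_, w.2 + (q - w.2)) ∈ B
    rw [add_sub_cancel]
    exact hk1'
  · rw [Prod.Lex.lt_iff]
    left
    exact hk2
  · show (_, w.2 + (q - w.2)) ∈ B
    rw [add_sub_cancel]
    exact hk2'

end Pool.H110K2
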