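import Pool.Agent.H110K2.Defs
import Pool.Agent.H110K2.P_act_basic
import Pool.Agent.H110K2.P_act_mp
import Pool.Agent.H110K2.P_act_fin
import Pool.Agent.H110K2.P_act_updown
import Pool.Agent.H110K2.P_act_free

set_option linter.all false

namespace Pool.H110K2
open MeasureTheory Set Filter Topology
open scoped ENNReal NNReal symmDiff


theorem act_sys {X : Type*} [MeasurableSpace X] [StandardBorelSpace X] (μ : Measure X)
    [IsProbabilityMeasure μ] [NullSingletonClass μ] (T : X ≃ᵐ X) (hT : Ergodic T μ) :
    Sys (μ.prod (Measure.count : Measure ℚ)) (act T) := by
  have hmp : MeasurePreserving T μ μ := hT.toMeasurePreserving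
  obtain ⟨h1, h2, h3⟩ := act_basic T
  exact
    { meas := h1
      zero := h2
      add := h3
      mp := act_mp μ T hmp
      free := act_free μ T hT
      fin := fun B hB h => act_fin μ T hmp B hB h
      up := fun B hB h => by
        filter_upwards [act_updown μ T hT B hB h] with w hw k
        exact (hw k).1
      down := fun B hB h => by
        filter_upwards [act_updown μ T hT B hB h] with w hw k
        exact (hw k).2 }

end Pool.H110K2
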