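import Pool.Agent.H110K2.Defs

set_option linter.all false

namespace Pool.H110K2
open MeasureTheory Set Filter Topology
open scoped ENNReal NNReal symmDiff


theorem chain (H : Set Lam) (hfin : ∀ k l, {j | k ≤ j ∧ j ≤ l ∧ j ∈ H}.Finite)
    (x y : Lam) (hx : x ∈ H) (hy : y ∈ H) (hxy : x < y) :
    ∃ (n : ℕ) (c : ℕ → Lam), 1 ≤ n ∧ c 0 = x ∧ c n = y ∧ (∀ i ≤ n, c i ∈ H) ∧
      ∀ i < n, c i < c (i+1) ∧ ∀ j, c i < j → j < c (i+1) → j ∉ H := by
  have key : ∀ N : ℕ, ∀ x : Lam, x ∈ H → x < y → {j | x ≤ j ∧ j ≤ y ∧ j ∈ H}.ncard ≤ N →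
      ∃ (n : ℕ) (c : ℕ → Lam), 1 ≤ n ∧ c 0 = x ∧ c n = y ∧ (∀ i ≤ n, c i ∈ H) ∧
      ∀ i < n, c i < c (i+1) ∧ ∀ j, c i < j → j < c (i+1) → j ∉ H := by
    intro N
    induction N with
    | zero =>
      intro x hx hxy hN
      exfalso
      have h0 := (Set.ncard_eq_zero (hfin x y)).1 (by omega)
      have h1 : x ∈ {j | x ≤ j ∧ j ≤ y ∧ j ∈ H} := ⟨le_rfl, hxy.le, hx⟩
      rw [h0] at h1
      exact h1
    | succ N ih =>
      intro x hx hxy hN
      have hfinS : {j | x < j ∧ j ≤ y ∧ j ∈ H}.Finite :=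
        (hfin x y).subset (fun j hj => ⟨hj.1.le, hj.2.1, hj.2.2⟩)
      have hne : {j | x < j ∧ j ≤ y ∧ j ∈ H}.Nonempty := ⟨y, hxy, le_rfl, hy⟩
      obtain ⟨z, ⟨hxz, hzy, hzH⟩, hzmin⟩ := Set.exists_min_image _ id hfinS hne
      have hgap : ∀ j, x < j → j < z → j ∉ H := fun j h1 h2 h3 =>
        absurd (hzmin j ⟨h1, h2.le.trans hzy, h3⟩) (not_le.2 h2)
      rcases hzy.eq_or_lt with hzy' | hzy'
      · refine ⟨1, fun i => if i = 0 then x else z, le_rfl, by simp, by simp [hzy'], ?_, ?_⟩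
        · intro i _
          by_cases h : i = 0
          · simp only [h, if_true]; exact hx
          · simp only [h, if_false]; exact hzH
        · intro i hi
          have h0 : i = 0 := by omega
          subst h0
          simp only [if_true]
          exact ⟨hxz, hgap⟩
      · have hlt : {j | z ≤ j ∧ j ≤ y ∧ j ∈ H}.ncard < {j | x ≤ j ∧ j ≤ y ∧ j ∈ H}.ncard := by
          apply Set.ncard_lt_ncard _ (hfin x y)
          refine ⟨fun j hj => ⟨hxz.le.trans hj.1, hj.2.1, hj.2.2⟩, fun hsub => ?_⟩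
          have := hsub (show x ∈ {j | x ≤ j ∧ j ≤ y ∧ j ∈ H} from ⟨le_rfl, hxy.le, hx⟩)
          exact absurd this.1 (not_le.2 hxz)
        obtain ⟨n, c, hn, h0, hnn, hH, hc⟩ := ih z hzH hzy' (by omega)
        refine ⟨n+1, fun i => Nat.casesOn i x c, by omega, rfl, hnn, ?_, ?_⟩
        · intro i hi
          cases i with
          | zero => exact hx
          | succ i => exact hH i (by omega)
        · intro i hi
          cases i with
          | zero =>
            change x < c 0 ∧ ∀ j, x < j → j < c 0 → j ∉ H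
            rw [h0]
            exact ⟨hxz, hgap⟩
          | succ i => exact hc i (by omega)
  exact key _ x hx hxy le_rfl

end Pool.H110K2
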