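import Pool.Agent.H110K2.Defs

set_option linter.all false

namespace Pool.H110K2
open MeasureTheory Set Filter Topology
open scoped ENNReal NNReal symmDiff


theorem code_ae {W X : Type*} [MeasurableSpace W] [MeasurableSpace X] {m : Measure W}
    {μ : Measure X} {B B' : Set W} {θ θ' : W → X} (h : IsCode m μ B θ)
    (hB' : MeasurableSet B') (hθ' : Measurable θ')
    (hB : ∀ᵐ w ∂m, w ∈ B ↔ w ∈ B') (hθ : ∀ᵐ w ∂m, w ∈ B → θ w = θ' w) :
    IsCode m μ B' θ' := by
  have hBB : B =ᵐ[m] B' := Filter.eventuallyEq_set.2 hB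
  have hm : m B = m B' := measure_congr hBB
  refine ⟨hB', hθ', ?_, ?_, ?_, ?_⟩
  · rw [← hm]; exact h.pos
  · rw [← hm]; exact h.fin
  · intro E hE
    rw [← hm, ← h.push E hE]
    apply measure_congr
    refine Filter.eventuallyEq_set.2 ?_
    filter_upwards [hB, hθ] with w h1 h2
    constructor
    · rintro ⟨hw, hw2⟩
      have hwB : w ∈ B := h1.2 hw
      refine ⟨hwB, ?_⟩
      rw [Set.mem_preimage] at hw2 ⊢
      rw [h2 hwB]; exact hw2
    · rintro ⟨hw, hw2⟩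
      refine ⟨h1.1 hw, ?_⟩
      rw [Set.mem_preimage] at hw2 ⊢
      rw [← h2 hw]; exact hw2
  · obtain ⟨N, hN, hNB, hN0, hinj⟩ := h.inj
    set Z0 : Set W := {w | ¬((w ∈ B ↔ w ∈ B') ∧ (w ∈ B → θ w = θ' w))} with hZ0
    have hZ0m : m Z0 = 0 := by
      have := hB.and hθ
      exact this
    set Z : Set W := toMeasurable m Z0 with hZ
    have hZm : m Z = 0 := by rw [hZ, measure_toMeasurable, hZ0m]
    have hZZ : Z0 ⊆ Z := subset_toMeasurable m Z0
    have key : ∀ w, w ∉ Z → (w ∈ B ↔ w ∈ B') ∧ (w ∈ B → θ w = θ' w) := by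
      intro w hw
      by_contra hc
      exact hw (hZZ hc)
    refine ⟨N \ Z, hN.diff (measurableSet_toMeasurable _ _), ?_, ?_, ?_⟩
    · rintro w ⟨hw, hwZ⟩
      exact (key w hwZ).1.1 (hNB hw)
    · have hsub : B' \ (N \ Z) ⊆ Z ∪ (B \ N) := by
        rintro w ⟨hw, hwn⟩
        by_cases hwZ : w ∈ Z
        · exact Or.inl hwZ
        · refine Or.inr ⟨(key w hwZ).1.2 hw, fun hwN => hwn ⟨hwN, hwZ⟩⟩
      exact measure_mono_null hsub (measure_union_null hZm hN0)
    · rintro w ⟨hw, hwZ⟩ w' ⟨hw', hwZ'⟩ he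
      refine hinj hw hw' ?_
      rw [(key w hwZ).2 (hNB hw), (key w' hwZ').2 (hNB hw')]
      exact he

end Pool.H110K2
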