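import Pool.Agent.H110K2.Defs

set_option linter.all false

namespace Pool.H110K2
open MeasureTheory Set Filter Topology
open scoped ENNReal NNReal symmDiff


theorem inv_map {W X : Type*} [MeasurableSpace W] [StandardBorelSpace W] [MeasurableSpace X]
    {m : Measure W} {μ : Measure X} (e : X ≃ᵐ (ℕ → Bool)) {B : Set W} {θ : W → X}
    (h : IsCode m μ B θ) :
    ∃ η : X → W, Measurable η ∧ ∀ᵐ w ∂m, w ∈ B → η (θ w) = w := by
  obtain ⟨N, hN, hNB, hm0, hinj⟩ := h.inj
  have hne : Nonempty W := by
    by_contra hcon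
    rw [not_nonempty_iff] at hcon
    apply h.pos
    rw [Set.eq_empty_of_isEmpty B, measure_empty]
  haveI : StandardBorelSpace N := hN.standardBorel
  have hmeas : Measurable (fun w : N => e (θ w.1)) :=
    e.measurable.comp (h.measθ.comp measurable_subtype_coe)
  have hinj' : Function.Injective (fun w : N => e (θ w.1)) := by
    intro w w' hw
    have h1 : θ w.1 = θ w'.1 := e.injective hw
    exact Subtype.ext (hinj w.2 w'.2 h1)
  have hemb : MeasurableEmbedding (fun w : N => e (θ w.1)) := hmeas.measurableEmbedding hinj'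
  obtain ⟨g', hg', hg⟩ := hemb.exists_measurable_extend
    (g := fun w : N => (w.1 : W)) measurable_subtype_coe (fun _ => hne)
  refine ⟨fun x => g' (e x), hg'.comp e.measurable, ?_⟩
  have hae : ∀ᵐ w ∂m, w ∉ B \ N := measure_eq_zero_iff_ae_notMem.1 hm0
  filter_upwards [hae] with w hw hwB
  have hwN : w ∈ N := by
    by_contra hcon
    exact hw ⟨hwB, hcon⟩
  exact congrFun hg ⟨w, hwN⟩

end Pool.H110K2
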