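import Pool.Agent.H110K2.Defs
import Pool.Agent.H110K2.P_lam_countable
import Pool.Agent.H110K2.P_succ_unique

set_option linter.all false

namespace Pool.H110K2
open MeasureTheory Set Filter Topology
open scoped ENNReal NNReal symmDiff


theorem isPred_meas {W : Type*} [MeasurableSpace W] {m : Measure W}
    {a : Lam → W → W} (hS : Sys m a) {B : Set W} (hB : MeasurableSet B) (k : Lam) :
    MeasurableSet {w | IsPred a B w k} := by
  haveI := lam_countable
  by_cases hk : 0 < k
  · have : {w | IsPred a B w k} = (a (-k)) ⁻¹' B ∩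
        ⋂ j : Lam, {w | 0 < j → j < k → a (-j) w ∉ B} := by
      ext w
      simp only [Set.mem_setOf_eq, IsPred, Set.mem_inter_iff, Set.mem_preimage, Set.mem_iInter]
      exact ⟨fun h => ⟨h.2.1, h.2.2⟩, fun h => ⟨hk, h.1, h.2⟩⟩
    rw [this]
    refine ((hS.meas (-k)) hB).inter (MeasurableSet.iInter fun j => ?_)
    by_cases h1 : 0 < j ∧ j < k
    · have : {w | 0 < j → j < k → a (-j) w ∉ B} = ((a (-j)) ⁻¹' B)ᶜ := by
        ext w
        simp only [Set.mem_setOf_eq, Set.mem_compl_iff, Set.mem_preimage]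
        exact ⟨fun h => h h1.1 h1.2, fun h _ _ => h⟩
      rw [this]
      exact ((hS.meas (-j)) hB).compl
    · have : {w | 0 < j → j < k → a (-j) w ∉ B} = Set.univ := by
        ext w
        simp only [Set.mem_setOf_eq, Set.mem_univ, iff_true]
        exact fun h2 h3 => absurd ⟨h2, h3⟩ h1
      rw [this]
      exact MeasurableSet.univ
  · have : {w | IsPred a B w k} = ∅ := by
      ext w
      simp only [Set.mem_setOf_eq, Set.mem_empty_iff_false, iff_false]
      exact fun h => hk h.1
    rw [this]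
    exact MeasurableSet.empty

theorem pred_map {W : Type*} [MeasurableSpace W] {m : Measure W}
    {a : Lam → W → W} (hS : Sys m a) {B : Set W} (hB : MeasurableSet B) :
    ∃ Q : W → W, Measurable Q ∧ ∀ w k, IsPred a B w k → Q w = a (-k) w := by
  classical
  haveI := lam_countable
  let Q : W → W := fun w => if h : ∃ k, IsPred a B w k then a (-h.choose) w else w
  have hQ1 : ∀ w k, IsPred a B w k → Q w = a (-k) w := by
    intro w k hk
    have hex : ∃ k, IsPred a B w k := ⟨k, hk⟩
    have h1 : Q w = a (-hex.choose) w := dif_pos hex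
    rw [h1, (succ_unique hS w).2.1 _ _ hex.choose_spec hk]
  have hQ2 : ∀ w, (¬ ∃ k, IsPred a B w k) → Q w = w := fun w hw => dif_neg hw
  refine ⟨Q, ?_, hQ1⟩
  intro E hE
  have : Q ⁻¹' E = (⋃ k : Lam, {w | IsPred a B w k} ∩ (a (-k)) ⁻¹' E) ∪
      ((⋃ k : Lam, {w | IsPred a B w k})ᶜ ∩ E) := by
    ext w
    simp only [Set.mem_preimage, Set.mem_union, Set.mem_iUnion, Set.mem_inter_iff,
      Set.mem_setOf_eq, Set.mem_compl_iff]
    by_cases hw : ∃ k, IsPred a B w k
    · obtain ⟨k, hk⟩ := hw
      rw [hQ1 w k hk]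
      constructor
      · intro h; exact Or.inl ⟨k, hk, h⟩
      · rintro (⟨k', hk', h⟩ | ⟨h, -⟩)
        · rwa [(succ_unique hS w).2.1 _ _ hk hk']
        · exact absurd ⟨k, hk⟩ h
    · rw [hQ2 w hw]
      constructor
      · intro h; exact Or.inr ⟨hw, h⟩
      · rintro (⟨k', hk', h⟩ | ⟨-, h⟩)
        · exact absurd ⟨k', hk'⟩ hw
        · exact h
  rw [this]
  refine MeasurableSet.union (MeasurableSet.iUnion fun k => (isPred_meas hS hB k).inter
    ((hS.meas _) hE)) (MeasurableSet.inter (MeasurableSet.compl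
      (MeasurableSet.iUnion fun k => isPred_meas hS hB k)) hE)

end Pool.H110K2
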