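import Pool.Agent.H110K2.Defs
import Pool.Agent.H110K2.P_ae_all

set_option linter.all false

namespace Pool.H110K2
open MeasureTheory Set Filter Topology
open scoped ENNReal NNReal symmDiff


theorem succ_exists {W : Type*} [MeasurableSpace W] {m : Measure W} {a : Lam → W → W}
    (hS : Sys m a) {B : Set W} (hB : MeasurableSet B) (h0 : m B ≠ 0) (h1 : m B ≠ ⊤) :
    ∀ᵐ w ∂m, ∀ j, (∃ k, IsSucc a B (a j w) k) ∧ (∃ k, IsPred a B (a j w) k) := by
  
  have key : ∀ᵐ w ∂m, (∃ k, IsSucc a B w k) ∧ (∃ k, IsPred a B w k) := by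
    filter_upwards [hS.fin B hB h1, hS.up B hB h0, hS.down B hB h0] with w hfin hup hdown
    constructor
    · obtain ⟨l, hl, hlB⟩ := hup 0
      have hf : {j : Lam | 0 < j ∧ j ≤ l ∧ a j w ∈ B}.Finite :=
        (hfin 0 l).subset fun j hj => ⟨hj.1.le, hj.2.1, hj.2.2⟩
      obtain ⟨j0, hj0, hmin⟩ := Set.exists_min_image _ id hf ⟨l, hl, le_refl l, hlB⟩
      refine ⟨j0, hj0.1, hj0.2.2, fun j hj1 hj2 hj3 => ?_⟩
      have := hmin j ⟨hj1, hj2.le.trans hj0.2.1, hj3⟩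
      exact absurd hj2 (not_lt.2 this)
    · obtain ⟨l, hl, hlB⟩ := hdown 0
      have hf : {j : Lam | l ≤ j ∧ j < 0 ∧ a j w ∈ B}.Finite :=
        (hfin l 0).subset fun j hj => ⟨hj.1, hj.2.1.le, hj.2.2⟩
      obtain ⟨j0, hj0, hmax⟩ := Set.exists_max_image _ id hf ⟨l, le_refl l, hl, hlB⟩
      refine ⟨-j0, neg_pos.2 hj0.2.1, by rw [neg_neg]; exact hj0.2.2, fun j hj1 hj2 hj3 => ?_⟩
      have h2 : j0 < -j := lt_neg_of_lt_neg hj2
      have := hmax (-j) ⟨hj0.1.trans h2.le, neg_neg_of_pos hj1, hj3⟩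
      exact absurd h2 (not_lt.2 this)
  exact ae_all hS key

end Pool.H110K2
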