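import Pool.Agent.H110K2.Defs
import Pool.Agent.H110K2.P_cyl_meas
import Pool.Agent.H110K2.P_succ_exists

set_option linter.all false

namespace Pool.H110K2
open MeasureTheory Set Filter Topology
open scoped ENNReal NNReal symmDiff


theorem tt_of_pred {W X : Type*} [MeasurableSpace W] [MeasurableSpace X]
    {m : Measure W} {μ : Measure X} {a : Lam → W → W} (hS : Sys m a)
    (e : X ≃ᵐ (ℕ → Bool)) {B : Set W} {θ : W → X}
    (h : IsCode m μ B θ) (U : X → X) (hU : Measurable U)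
    (hp : ∀ᵐ w ∂m, w ∈ B → ∀ k, IsPred a B w k → θ (a (-k) w) = U (θ w)) (i j : Idx) :
    tt m a e B θ (i, j) = (μ (U ⁻¹' Cyl e i ∩ Cyl e j)).toReal := by
  have hE : MeasurableSet (U ⁻¹' Cyl e i ∩ Cyl e j) := (hU (cyl_meas e i)).inter (cyl_meas e j)
  have hset : (NB a B (B ∩ θ ⁻¹' Cyl e i) ∩ θ ⁻¹' Cyl e j : Set W) =ᵐ[m]
      (B ∩ θ ⁻¹' (U ⁻¹' Cyl e i ∩ Cyl e j) : Set W) := by
    rw [Filter.eventuallyEq_set]
    filter_upwards [hp, succ_exists hS h.measB h.pos h.fin] with w h1 h2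
    obtain ⟨k, hk⟩ := (h2 0).2
    rw [hS.zero] at hk
    constructor
    · rintro ⟨⟨hwB, k', hk', -, hki⟩, hj⟩
      refine ⟨hwB, ?_, hj⟩
      change U (θ w) ∈ Cyl e i
      rw [← h1 hwB k' hk']
      exact hki
    · rintro ⟨hwB, hi, hj⟩
      refine ⟨⟨hwB, k, hk, hk.2.1, ?_⟩, hj⟩
      change θ (a (-k) w) ∈ Cyl e i
      rw [h1 hwB k hk]
      exact hi
  have hB0 : (m B).toReal ≠ 0 := (ENNReal.toReal_pos h.pos h.fin).ne'
  change (m (NB a B (B ∩ θ ⁻¹' Cyl e i) ∩ θ ⁻¹' Cyl e j)).toReal / (m B).toReal = _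
  rw [measure_congr hset, h.push _ hE, ENNReal.toReal_mul, mul_div_assoc, mul_comm,
    div_mul_cancel₀ _ hB0]

end Pool.H110K2
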