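import Pool.Agent.H110K2.Defs
import Pool.Agent.H110K2.P_inv_map
import Pool.Agent.H110K2.P_pred_map
import Pool.Agent.H110K2.P_tt_of_pred

set_option linter.all false

namespace Pool.H110K2
open MeasureTheory Set Filter Topology
open scoped ENNReal NNReal symmDiff


theorem code_map {W X : Type*} [MeasurableSpace W] [StandardBorelSpace W] [MeasurableSpace X]
    {m : Measure W} {μ : Measure X} {a : Lam → W → W} (hS : Sys m a)
    (e : X ≃ᵐ (ℕ → Bool)) {B : Set W} {θ : W → X}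
    (h : IsCode m μ B θ) : ∃ U : X → X, Measurable U ∧
      (∀ᵐ w ∂m, w ∈ B → ∀ k, IsPred a B w k → θ (a (-k) w) = U (θ w)) ∧
      ∀ i j, tt m a e B θ (i, j) = (μ (U ⁻¹' Cyl e i ∩ Cyl e j)).toReal := by
  obtain ⟨η, hη, hηe⟩ := inv_map e h
  obtain ⟨Q, hQ, hQp⟩ := pred_map hS h.measB
  have hp : ∀ᵐ w ∂m, w ∈ B → ∀ k, IsPred a B w k → θ (a (-k) w) = (θ ∘ Q ∘ η) (θ w) := by
    filter_upwards [hηe] with w hw hB k hk
    simp only [Function.comp]
    rw [hw hB, hQp w k hk]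
  have hU : Measurable (θ ∘ Q ∘ η) := h.measθ.comp (hQ.comp hη)
  exact ⟨θ ∘ Q ∘ η, hU, hp, fun i j => tt_of_pred hS e h _ hU hp i j⟩

end Pool.H110K2
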