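import Pool.Agent.H110K2.Defs

set_option linter.all false

namespace Pool.H110K2
open MeasureTheory Set Filter Topology
open scoped ENNReal NNReal symmDiff


theorem code_real {W X : Type*} [MeasurableSpace W] [MeasurableSpace X] {m : Measure W}
    (e : X ≃ᵐ (ℕ → Bool)) (B : Set W) (θ : W → X) (hB : MeasurableSet B) (hB' : m B ≠ ⊤)
    (hθ : Measurable θ) :
    ∃ p : Code m, (∀ᵐ w ∂m, w ∈ Bs p ↔ w ∈ B) ∧ ∀ᵐ w ∂m, w ∈ B → th e p w = θ w := by
  classical
  obtain ⟨A, hA0, hAs⟩ : ∃ A : ℕ → Set W, A 0 = B ∧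
      ∀ n, A (n + 1) = B ∩ {w | e (θ w) n = true} :=
    ⟨fun n => Nat.casesOn n B (fun n => B ∩ {w | e (θ w) n = true}), rfl, fun _ => rfl⟩
  have hsub : ∀ n, A n ⊆ B := by
    intro n
    cases n with
    | zero => rw [hA0]
    | succ n => rw [hAs]; exact inter_subset_left
  have hmeas : ∀ n, MeasurableSet (A n) := by
    intro n
    cases n with
    | zero => rw [hA0]; exact hB
    | succ n =>
      rw [hAs]
      refine hB.inter ?_
      have h1 : Measurable (fun w => e (θ w) n) :=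
        (measurable_pi_apply n).comp (e.measurable.comp hθ)
      exact h1 (measurableSet_singleton true)
  have hfin : ∀ n, m (A n) ≠ ⊤ := fun n => ne_top_of_le_ne_top hB' (measure_mono (hsub n))
  obtain ⟨q, hq⟩ : ∃ q : ℕ → Lp ℝ 1 m,
      ∀ n, (q n : W → ℝ) =ᵐ[m] (A n).indicator (fun _ => (1:ℝ)) :=
    ⟨fun n => indicatorConstLp 1 (hmeas n) (hfin n) (1:ℝ), fun n => indicatorConstLp_coeFn⟩
  have hKK : ∀ n, ∀ᵐ w ∂m, ((q 0 : W → ℝ) w, (q n : W → ℝ) w) ∈ KK := by
    intro n
    filter_upwards [hq 0, hq n] with w h0 hn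
    rw [h0, hn, hA0]
    unfold KK
    by_cases h1 : w ∈ A n
    · have h2 : w ∈ B := hsub n h1
      rw [Set.indicator_of_mem h1, Set.indicator_of_mem h2]
      simp
    · by_cases h2 : w ∈ B
      · rw [Set.indicator_of_notMem h1, Set.indicator_of_mem h2]
        simp
      · rw [Set.indicator_of_notMem h1, Set.indicator_of_notMem h2]
        simp
  refine ⟨⟨q, hKK⟩, ?_, ?_⟩
  · filter_upwards [hq 0] with w h0
    show (q 0 : W → ℝ) w = 1 ↔ w ∈ B
    rw [h0, hA0]
    by_cases h2 : w ∈ B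
    · rw [Set.indicator_of_mem h2]; simp [h2]
    · rw [Set.indicator_of_notMem h2]; simp [h2]
  · have hall : ∀ᵐ w ∂m, ∀ n, (q n : W → ℝ) w = (A n).indicator (fun _ => (1:ℝ)) w :=
      ae_all_iff.2 hq
    filter_upwards [hall] with w hw hwB
    show e.symm (fun n => decide ((q (n+1) : W → ℝ) w = 1)) = θ w
    rw [MeasurableEquiv.symm_apply_eq]
    funext n
    rw [hw (n+1), hAs n]
    by_cases h1 : e (θ w) n = true
    · have h2 : w ∈ B ∩ {w | e (θ w) n = true} := ⟨hwB, h1⟩
      rw [Set.indicator_of_mem h2, h1]; simp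
    · have h2 : w ∉ B ∩ {w | e (θ w) n = true} := fun h => h1 h.2
      rw [Set.indicator_of_notMem h2]
      have h3 : e (θ w) n = false := by simpa using h1
      rw [h3]; simp

end Pool.H110K2
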