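import Pool.Agent.H110K2.Defs

set_option linter.all false

namespace Pool.H110K2
open MeasureTheory Set Filter Topology
open scoped ENNReal NNReal symmDiff


theorem cyl_sep {X : Type*} [MeasurableSpace X] (e : X ≃ᵐ (ℕ → Bool)) (x y : X)
    (h : ∀ i, x ∈ Cyl e i ↔ y ∈ Cyl e i) : x = y := by
  classical
  apply e.injective
  funext n
  have h1 := h ⟨n+1, {fun k : Fin (n+1) => e x k}⟩
  have h2 : y ∈ Cyl e ⟨n+1, {fun k : Fin (n+1) => e x k}⟩ := by
    apply h1.mp
    show (fun k : Fin (n+1) => e x k) ∈ ({fun k : Fin (n+1) => e x k} : Finset (Fin (n+1) → Bool))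
    exact Finset.mem_singleton_self _
  have h3 : (fun k : Fin (n+1) => e y k) = (fun k : Fin (n+1) => e x k) := by
    have : (fun k : Fin (n+1) => e y k) ∈ ({fun k : Fin (n+1) => e x k} : Finset (Fin (n+1) → Bool)) := h2
    exact Finset.mem_singleton.mp this
  have h4 := congrFun h3 (Fin.last n)
  simpa using h4.symm

end Pool.H110K2
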