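import Pool.Agent.H110K2.Defs
import Pool.Agent.H110K2.P_cyl_meas
import Pool.Agent.H110K2.P_cyl_sep
import Pool.Agent.H110K2.P_meas_ext_cyl

set_option linter.all false

namespace Pool.H110K2
open MeasureTheory Set Filter Topology
open scoped ENNReal NNReal symmDiff


theorem map_unique_half {X : Type*} [MeasurableSpace X] (μ : Measure X) [IsFiniteMeasure μ]
    (e : X ≃ᵐ (ℕ → Bool)) (U U' : X → X) (hU : Measurable U) (hU' : Measurable U')
    (h : ∀ i j, μ (U ⁻¹' Cyl e i ∩ Cyl e j) = μ (U' ⁻¹' Cyl e i ∩ Cyl e j)) (i : Idx) :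
    μ (U ⁻¹' Cyl e i \ U' ⁻¹' Cyl e i) = 0 := by
  have hA : MeasurableSet (U ⁻¹' Cyl e i) := hU (cyl_meas e i)
  have hA' : MeasurableSet (U' ⁻¹' Cyl e i) := hU' (cyl_meas e i)
  have hr : μ.restrict (U ⁻¹' Cyl e i) = μ.restrict (U' ⁻¹' Cyl e i) := by
    apply meas_ext_cyl _ _ e
    intro j
    rw [Measure.restrict_apply (cyl_meas e j), Measure.restrict_apply (cyl_meas e j),
      Set.inter_comm, Set.inter_comm (Cyl e j)]
    exact h i j
  have hE : MeasurableSet (U ⁻¹' Cyl e i \ U' ⁻¹' Cyl e i) := hA.diff hA'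
  have h1 : μ.restrict (U ⁻¹' Cyl e i) (U ⁻¹' Cyl e i \ U' ⁻¹' Cyl e i) =
      μ.restrict (U' ⁻¹' Cyl e i) (U ⁻¹' Cyl e i \ U' ⁻¹' Cyl e i) := by rw [hr]
  rw [Measure.restrict_apply hE, Measure.restrict_apply hE] at h1
  have h2 : (U ⁻¹' Cyl e i \ U' ⁻¹' Cyl e i) ∩ U ⁻¹' Cyl e i = U ⁻¹' Cyl e i \ U' ⁻¹' Cyl e i := by
    ext x
    simp only [Set.mem_inter_iff, Set.mem_diff]
    tauto
  have h3 : (U ⁻¹' Cyl e i \ U' ⁻¹' Cyl e i) ∩ U' ⁻¹' Cyl e i = ∅ := by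
    ext x
    simp only [Set.mem_inter_iff, Set.mem_diff, Set.mem_empty_iff_false]
    tauto
  rw [h2, h3, measure_empty] at h1
  exact h1

theorem map_unique {X : Type*} [MeasurableSpace X] (μ : Measure X) [IsFiniteMeasure μ]
    (e : X ≃ᵐ (ℕ → Bool)) (U U' : X → X) (hU : Measurable U) (hU' : Measurable U')
    (h : ∀ i j, μ (U ⁻¹' Cyl e i ∩ Cyl e j) = μ (U' ⁻¹' Cyl e i ∩ Cyl e j)) :
    ∀ᵐ x ∂μ, U x = U' x := by
  have hall : ∀ᵐ x ∂μ, ∀ i : Idx, U x ∈ Cyl e i ↔ U' x ∈ Cyl e i := by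
    rw [ae_all_iff]
    intro i
    have h1 := map_unique_half μ e U U' hU hU' h i
    have h2 := map_unique_half μ e U' U hU' hU (fun i j => (h i j).symm) i
    have h3 : ∀ᵐ x ∂μ, x ∉ U ⁻¹' Cyl e i \ U' ⁻¹' Cyl e i := measure_eq_zero_iff_ae_notMem.mp h1
    have h4 : ∀ᵐ x ∂μ, x ∉ U' ⁻¹' Cyl e i \ U ⁻¹' Cyl e i := measure_eq_zero_iff_ae_notMem.mp h2
    filter_upwards [h3, h4] with x hx hx'
    constructor
    · intro hm
      by_contra hn
      exact hx ⟨hm, hn⟩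
    · intro hm
      by_contra hn
      exact hx' ⟨hm, hn⟩
  filter_upwards [hall] with x hx
  exact cyl_sep e _ _ hx

end Pool.H110K2
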