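import Pool.Agent.H110K2.Defs
import Pool.Agent.H110K2.P_ae_all
import Pool.Agent.H110K2.P_succ_unique

set_option linter.all false

namespace Pool.H110K2
open MeasureTheory Set Filter Topology
open scoped ENNReal NNReal symmDiff


theorem pred_of_succ {W X : Type*} [MeasurableSpace W] [MeasurableSpace X] {m : Measure W}
    {a : Lam → W → W} (hS : Sys m a) {B : Set W} {θ : W → X} (S : X ≃ᵐ X) :
    (∀ᵐ v ∂m, v ∈ B → ∀ k, IsSucc a B v k → θ (a k v) = S (θ v)) ↔
    (∀ᵐ w ∂m, w ∈ B → ∀ k, IsPred a B w k → θ (a (-k) w) = S.symm (θ w)) := by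
  have e1 : ∀ k w, a k (a (-k) w) = w := by
    intro k w
    rw [← hS.add, add_neg_cancel, hS.zero]
  have e2 : ∀ k w, a (-k) (a k w) = w := by
    intro k w
    rw [← hS.add, neg_add_cancel, hS.zero]
  constructor
  · intro h
    filter_upwards [ae_all hS h] with w hw hwB k hk
    have h1 := hw (-k) hk.2.1 k ((succ_unique hS w).2.2.2 k hwB hk)
    rw [e1] at h1
    rw [h1, MeasurableEquiv.symm_apply_apply]
  · intro h
    filter_upwards [ae_all hS h] with v hv hvB k hk
    have h1 := hv k hk.2.1 k ((succ_unique hS v).2.2.1 k hvB hk)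
    rw [e2] at h1
    rw [h1, MeasurableEquiv.apply_symm_apply]

end Pool.H110K2
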