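import Pool.Agent.H110K2.Defs
import Pool.Agent.H110K2.P_NB_ae

set_option linter.all false

namespace Pool.H110K2
open MeasureTheory Set Filter Topology
open scoped ENNReal NNReal symmDiff


theorem tt_ae {W X : Type*} [MeasurableSpace W] [MeasurableSpace X] {m : Measure W}
    {a : Lam → W → W} (hS : Sys m a) (e : X ≃ᵐ (ℕ → Bool)) {B B' : Set W} {θ θ' : W → X}
    (hB : ∀ᵐ w ∂m, w ∈ B ↔ w ∈ B') (hθ : ∀ᵐ w ∂m, w ∈ B → θ w = θ' w) :
    tt m a e B θ = tt m a e B' θ' := by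
  funext ij
  have hD : ∀ᵐ w ∂m, w ∈ B ∩ θ ⁻¹' Cyl e ij.1 ↔ w ∈ B' ∩ θ' ⁻¹' Cyl e ij.1 := by
    filter_upwards [hB, hθ] with w h1 h2
    constructor
    · rintro ⟨hw, hw2⟩
      refine ⟨h1.1 hw, ?_⟩
      show θ' w ∈ Cyl e ij.1
      rw [← h2 hw]
      exact hw2
    · rintro ⟨hw, hw2⟩
      refine ⟨h1.2 hw, ?_⟩
      show θ w ∈ Cyl e ij.1
      rw [h2 (h1.2 hw)]
      exact hw2
  have hN := NB_ae hS hB hD
  have hE1 : m (NB a B (B ∩ θ ⁻¹' Cyl e ij.1) ∩ θ ⁻¹' Cyl e ij.2) =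
      m (NB a B' (B' ∩ θ' ⁻¹' Cyl e ij.1) ∩ θ' ⁻¹' Cyl e ij.2) := by
    apply measure_congr
    filter_upwards [hB, hθ, hN] with w h1 h2 h3
    apply propext
    constructor
    · rintro ⟨hw, hw2⟩
      refine ⟨h3.1 hw, ?_⟩
      show θ' w ∈ Cyl e ij.2
      rw [← h2 hw.1]
      exact hw2
    · rintro ⟨hw, hw2⟩
      have hw3 := h3.2 hw
      refine ⟨hw3, ?_⟩
      show θ w ∈ Cyl e ij.2
      rw [h2 hw3.1]
      exact hw2
  have hE2 : m B = m B' := by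
    apply measure_congr
    filter_upwards [hB] with w h1
    exact propext h1
  unfold tt
  rw [hE1, hE2]

end Pool.H110K2
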