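import Pool.Agent.H110K2.Defs

set_option linter.all false

namespace Pool.H110K2
open MeasureTheory Set Filter Topology
open scoped ENNReal NNReal symmDiff


theorem ret_meas {X : Type*} [MeasurableSpace X] (S : X → X) (hS : Measurable S) (C : Set X)
    (hC : MeasurableSet C) : Measurable (retTime S C) := by
  have hit : ∀ n, MeasurableSet ((S^[n]) ⁻¹' C) := fun n => (hS.iterate n) hC
  apply measurable_to_countable'
  intro n
  rcases Nat.eq_zero_or_pos n with hn | hn
  · subst hn
    have : retTime S C ⁻¹' {0} = (⋃ m : ℕ, (S^[m + 1]) ⁻¹' C)ᶜ := by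
      ext y
      simp only [Set.mem_preimage, Set.mem_singleton_iff, Set.mem_compl_iff, Set.mem_iUnion,
        retTime]
      constructor
      · intro h
        rw [Nat.sInf_eq_zero] at h
        rcases h with h | h
        · exact absurd h.1 (by norm_num)
        · rintro ⟨m, hm⟩
          have : (m + 1) ∈ {n | 1 ≤ n ∧ S^[n] y ∈ C} := ⟨by omega, hm⟩
          rw [h] at this
          exact this
      · intro h
        rw [Nat.sInf_eq_zero]
        right
        ext k
        simp only [Set.mem_setOf_eq, Set.mem_empty_iff_false, iff_false]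
        rintro ⟨h1, h2⟩
        obtain ⟨j, rfl⟩ := Nat.exists_eq_add_of_le h1
        exact h ⟨j, by rw [add_comm j 1]; exact h2⟩
    rw [this]
    exact (MeasurableSet.iUnion fun m => hit _).compl
  · have : retTime S C ⁻¹' {n} = (S^[n]) ⁻¹' C ∩
        ⋂ m : ℕ, ⋂ _ : 1 ≤ m, ⋂ _ : m < n, ((S^[m]) ⁻¹' C)ᶜ := by
      ext y
      simp only [Set.mem_preimage, Set.mem_singleton_iff, Set.mem_inter_iff, Set.mem_iInter,
        Set.mem_compl_iff, retTime]
      constructor
      · intro h
        have hne : {n | 1 ≤ n ∧ S^[n] y ∈ C}.Nonempty := by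
          by_contra hcon
          rw [Set.not_nonempty_iff_eq_empty] at hcon
          rw [hcon, Nat.sInf_empty] at h
          omega
        have h1 := Nat.sInf_mem hne
        rw [h] at h1
        refine ⟨h1.2, ?_⟩
        intro m hm1 hm2 hm3
        exact Nat.notMem_of_lt_sInf (s := {n | 1 ≤ n ∧ S^[n] y ∈ C}) (by rw [h]; exact hm2)
          ⟨hm1, hm3⟩
      · rintro ⟨h1, h2⟩
        have hmem : n ∈ {n | 1 ≤ n ∧ S^[n] y ∈ C} := ⟨hn, h1⟩
        apply le_antisymm (Nat.sInf_le hmem)
        by_contra hcon
        push Not at hcon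
        have h3 := Nat.sInf_mem (s := {n | 1 ≤ n ∧ S^[n] y ∈ C}) ⟨n, hmem⟩
        exact h2 _ h3.1 hcon h3.2
    rw [this]
    exact (hit n).inter (MeasurableSet.iInter fun m => MeasurableSet.iInter fun _ =>
      MeasurableSet.iInter fun _ => (hit m).compl)

end Pool.H110K2
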