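import Pool.Agent.H110K2.Defs
import Pool.Agent.H110K2.P_ret_meas

set_option linter.all false

namespace Pool.H110K2
open MeasureTheory Set Filter Topology
open scoped ENNReal NNReal symmDiff


theorem tw_meas {X : Type*} [MeasurableSpace X] (S : X → X) (hS : Measurable S)
    (A C : Set X) (φ : X → X) (hA : MeasurableSet A) (hC : MeasurableSet C)
    (hφ : Measurable φ) : MeasurableSet (Tw S A C φ) ∧ Measurable (Tth S φ) := by
  constructor
  · have h : Tw S A C φ = (Prod.fst ⁻¹' A) ∩ ⋃ i : ℕ, ((Prod.snd ⁻¹' {(i : ℚ)}) ∩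
        ((fun w : X × ℚ => retTime S C (φ w.1)) ⁻¹' (Set.Ioi i))) := by
      ext w
      simp only [Tw, Set.mem_setOf_eq, Set.mem_inter_iff, Set.mem_preimage, Set.mem_iUnion,
        Set.mem_singleton_iff, Set.mem_Ioi]
    rw [h]
    refine (measurable_fst hA).inter (MeasurableSet.iUnion fun i => ?_)
    refine MeasurableSet.inter (measurable_snd (measurableSet_singleton _)) ?_
    exact ((ret_meas S hS C hC).comp (hφ.comp measurable_fst)) measurableSet_Ioi
  · apply measurable_from_prod_countable_left
    intro q
    exact (hS.iterate q.num.toNat).comp hφ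

end Pool.H110K2
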