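import Pool.Agent.H110K2.Defs
import Pool.Agent.H110K2.P_tw_meas

set_option linter.all false

namespace Pool.H110K2
open MeasureTheory Set Filter Topology
open scoped ENNReal NNReal symmDiff


theorem tw_inj_aux {X : Type*} [MeasurableSpace X] (S : X ≃ᵐ X) (A C : Set X) (φ ψ : X → X)
    (x x' : X) (i j : ℕ) (hij : i ≤ j) (hj : j < retTime S C (φ x')) (hx : φ x ∈ C)
    (hψ : ψ (φ x) = x) (hψ' : ψ (φ x') = x') (h : S^[i] (φ x) = S^[j] (φ x')) :
    x = x' ∧ i = j := by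
  have h1 : S^[j] (φ x') = S^[i] (S^[j - i] (φ x')) := by
    rw [← Function.iterate_add_apply]
    congr 2
    omega
  rw [h1] at h
  have h2 : φ x = S^[j - i] (φ x') := (S.injective.iterate i) h
  have h3 : i = j := by
    by_contra hne
    have h4 : 1 ≤ j - i := by omega
    have h5 : retTime S C (φ x') ≤ j - i := by
      apply Nat.sInf_le
      exact ⟨h4, by rw [← h2]; exact hx⟩
    omega
  subst h3
  rw [Nat.sub_self, Function.iterate_zero, id] at h2
  exact ⟨by rw [← hψ, h2, hψ'], rfl⟩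

theorem tw_inj_eq {X : Type*} [MeasurableSpace X] [StandardBorelSpace X] {Y : Type*}
    [MeasurableSpace Y] (f g : Y → X) (hf : Measurable f) (hg : Measurable g) :
    MeasurableSet {y | f y = g y} := by
  letI := upgradeStandardBorel X
  have h1 : MeasurableSet (Set.diagonal X) := isClosed_diagonal.measurableSet
  exact (hf.prodMk hg) h1

theorem tw_inj {X : Type*} [MeasurableSpace X] [StandardBorelSpace X] (μ : Measure X)
    [IsProbabilityMeasure μ] (T S : X ≃ᵐ X) (hS : Ergodic S μ) (A C : Set X) (φ ψ : X → X)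
    (hK : KIso μ T S A C φ ψ) :
    ∃ N, MeasurableSet N ∧ N ⊆ Tw S A C φ ∧
      (μ.prod (Measure.count : Measure ℚ)) (Tw S A C φ \ N) = 0 ∧ InjOn (Tth S φ) N := by
  have htw := tw_meas S S.measurable A C φ hK.measA hK.measC hK.measφ
  have hφ1 : Measurable (fun w : X × ℚ => φ w.1) := hK.measφ.comp measurable_fst
  refine ⟨{w | w ∈ Tw S A C φ ∧ φ w.1 ∈ C ∧ ψ (φ w.1) = w.1}, ?_, fun w hw => hw.1, ?_, ?_⟩
  · have h1 : MeasurableSet {w : X × ℚ | φ w.1 ∈ C} := hφ1 hK.measC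
    have h2 : MeasurableSet {w : X × ℚ | ψ (φ w.1) = w.1} :=
      tw_inj_eq _ _ (hK.measψ.comp hφ1) measurable_fst
    exact htw.1.inter (h1.inter h2)
  · have h0 : μ {x | x ∈ A ∧ ¬ (φ x ∈ C ∧ ψ (φ x) = x)} = 0 := by
      have h1 := hK.fwd
      rw [ae_restrict_iff' hK.measA] at h1
      refine measure_mono_null ?_ (ae_iff.1 h1)
      intro x hx hcon
      have h2 := hcon hx.1
      exact hx.2 ⟨h2.1, h2.2.1⟩
    have h3 : (μ.prod (Measure.count : Measure ℚ))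
        ({x | x ∈ A ∧ ¬ (φ x ∈ C ∧ ψ (φ x) = x)} ×ˢ (univ : Set ℚ)) = 0 := by
      rw [Measure.prod_prod, h0, zero_mul]
    refine measure_mono_null ?_ h3
    rintro w ⟨hw1, hw2⟩
    refine ⟨⟨hw1.1, fun hcon => hw2 ⟨hw1, hcon⟩⟩, mem_univ _⟩
  · rintro ⟨x, r⟩ ⟨⟨hxA, i, hi, hir⟩, hx1, hx2⟩ ⟨x', r'⟩ ⟨⟨hxA', j, hj, hjr⟩, hx1', hx2'⟩ h
    simp only at hi hir hx1 hx2 hj hjr hx1' hx2'
    subst hi
    subst hj
    have hT : S^[i] (φ x) = S^[j] (φ x') := by
      have h4 : Tth S φ (x, (i : ℚ)) = Tth S φ (x', (j : ℚ)) := h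
      simpa [Tth] using h4
    rcases le_total i j with hle | hle
    · obtain ⟨e1, e2⟩ := tw_inj_aux S A C φ ψ x x' i j hle hjr hx1 hx2 hx2' hT
      rw [e1, e2]
    · obtain ⟨e1, e2⟩ := tw_inj_aux S A C φ ψ x' x j i hle hir hx1' hx2' hx2 hT.symm
      rw [e1, e2]

end Pool.H110K2
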