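import Pool.Agent.H110K2.Defs
import Pool.Agent.H110K2.P_recur

set_option linter.all false

namespace Pool.H110K2
open MeasureTheory Set Filter Topology
open scoped ENNReal NNReal symmDiff


theorem ret_good {X : Type*} [MeasurableSpace X] (μ : Measure X) [IsProbabilityMeasure μ]
    (S : X ≃ᵐ X) (hS : Ergodic S μ) (C : Set X) (hC : MeasurableSet C) (h0 : μ C ≠ 0) :
    ∀ᵐ y ∂μ, 1 ≤ retTime S C y ∧ S^[retTime S C y] y ∈ C ∧
      ∀ j, 1 ≤ j → j < retTime S C y → S^[j] y ∉ C := by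
  filter_upwards [recur μ S hS C hC h0] with y hy
  obtain ⟨⟨k, hk, hkC⟩, -⟩ := hy 0
  have hne : {n : ℕ | 1 ≤ n ∧ S^[n] y ∈ C}.Nonempty := by
    refine ⟨k.toNat, by omega, ?_⟩
    have h1 : k = (k.toNat : ℤ) := by omega
    rw [h1, zpow_natCast] at hkC
    have h2 : ∀ n : ℕ, ((S.toEquiv : Equiv.Perm X) ^ n) y = S^[n] y := by
      intro n
      have := congrFun (Equiv.Perm.iterate_eq_pow (S.toEquiv : Equiv.Perm X) n) y
      exact this.symm
    rw [h2] at hkC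
    exact hkC
  have hmem := Nat.sInf_mem hne
  refine ⟨hmem.1, hmem.2, ?_⟩
  intro j hj1 hj2 hjC
  exact Nat.notMem_of_lt_sInf hj2 ⟨hj1, hjC⟩

end Pool.H110K2
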