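import Pool.Agent.H110K2.Defs
import Pool.Agent.H110K2.P_recur
import Pool.Agent.H110K2.P_ret_good
import Pool.Agent.H110K2.P_ret_meas

set_option linter.all false

namespace Pool.H110K2
open MeasureTheory Set Filter Topology
open scoped ENNReal NNReal symmDiff


theorem kac_inv {X : Type*} [MeasurableSpace X] (S : X ≃ᵐ X) (i : ℕ) (x : X) :
    S^[i] (S.symm^[i] x) = x :=
  Function.LeftInverse.iterate (f := S.symm) (g := S) (fun y => S.apply_symm_apply y) i x

theorem kac_sub {X : Type*} [MeasurableSpace X] (S : X ≃ᵐ X) (k i : ℕ) (x : X) :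
    S^[k] (S.symm^[k + i] x) = S.symm^[i] x := by
  rw [Function.iterate_add_apply]
  exact kac_inv S k _

theorem kac_perm {X : Type*} [MeasurableSpace X] (S : X ≃ᵐ X) (i : ℕ) (x : X) :
    ((S.toEquiv : Equiv.Perm X) ^ (-(i : ℤ))) x = S.symm^[i] x := by
  have h1 : ((S.toEquiv : Equiv.Perm X) ^ (-(i : ℤ))) = ((S.toEquiv : Equiv.Perm X)⁻¹) ^ i := by
    rw [zpow_neg, zpow_natCast, inv_pow]
  rw [h1, ← Equiv.Perm.iterate_eq_pow]
  rfl

theorem kac {X : Type*} [MeasurableSpace X] (μ : Measure X) [IsProbabilityMeasure μ]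
    (S : X ≃ᵐ X) (hS : Ergodic S μ) (C : Set X) (hC : MeasurableSet C) (h0 : μ C ≠ 0)
    (E : Set X) (hE : MeasurableSet E) :
    ∑' i : ℕ, μ (C ∩ ({y | i < retTime S C y} ∩ S^[i] ⁻¹' E)) = μ E := by
  have hmp : MeasurePreserving S μ μ := hS.toMeasurePreserving
  have hmps : MeasurePreserving S.symm μ μ := hmp.symm S
  set D : ℕ → Set X := fun i => C ∩ ({y | i < retTime S C y} ∩ S^[i] ⁻¹' E) with hD
  have hDm : ∀ i, MeasurableSet (D i) := by
    intro i
    refine hC.inter (MeasurableSet.inter ?_ ?_)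
    · exact (ret_meas S S.measurable C hC) (measurableSet_Ioi (a := i))
    · exact (S.measurable.iterate i) hE
  set B : ℕ → Set X := fun i => (S.symm^[i]) ⁻¹' (D i) with hB
  have hBm : ∀ i, MeasurableSet (B i) := fun i => (S.symm.measurable.iterate i) (hDm i)
  have hBD : ∀ i, μ (B i) = μ (D i) := fun i =>
    (hmps.iterate i).measure_preimage (hDm i).nullMeasurableSet
  have hdisj : ∀ i j : ℕ, i < j → Disjoint (B i) (B j) := by
    intro i j hij
    rw [Set.disjoint_left]
    intro x hi hj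
    obtain ⟨k, rfl⟩ := Nat.exists_eq_add_of_lt hij
    have h1 : S.symm^[i] x ∈ C := hi.1
    have h2 : i + k + 1 < retTime S C (S.symm^[i + k + 1] x) := hj.2.1
    have h3 : S^[k + 1] (S.symm^[i + k + 1] x) = S.symm^[i] x := by
      have := kac_sub S (k + 1) i x
      rwa [show k + 1 + i = i + k + 1 by omega] at this
    have h4 : k + 1 < retTime S C (S.symm^[i + k + 1] x) := by omega
    have h5 : k + 1 ∉ {n | 1 ≤ n ∧ S^[n] (S.symm^[i + k + 1] x) ∈ C} := Nat.notMem_of_lt_sInf h4
    apply h5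
    refine ⟨by omega, ?_⟩
    rw [h3]
    exact h1
  have hpair : Pairwise (Function.onFun Disjoint B) := by
    intro i j hij
    rcases lt_or_gt_of_ne hij with h | h
    · exact hdisj i j h
    · exact (hdisj j i h).symm
  have hsub : (⋃ i, B i) ⊆ E := by
    intro x hx
    obtain ⟨i, hi⟩ := Set.mem_iUnion.1 hx
    have h1 : S^[i] (S.symm^[i] x) ∈ E := hi.2.2
    rwa [kac_inv] at h1
  have hgood : ∀ᵐ x ∂μ, ∀ i : ℕ, 1 ≤ retTime S C (S.symm^[i] x) ∧
      S^[retTime S C (S.symm^[i] x)] (S.symm^[i] x) ∈ C := by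
    rw [ae_all_iff]
    intro i
    have h1 := (hmps.iterate i).quasiMeasurePreserving.ae (ret_good μ S hS C hC h0)
    filter_upwards [h1] with x hx
    exact ⟨hx.1, hx.2.1⟩
  have hae : ∀ᵐ x ∂μ, x ∈ E → x ∈ ⋃ i, B i := by
    filter_upwards [recur μ S hS C hC h0, hgood] with x hrec hg hxE
    obtain ⟨k, hk1, hkC⟩ := (hrec 1).2
    have hex : ∃ i : ℕ, S.symm^[i] x ∈ C := by
      refine ⟨(-k).toNat, ?_⟩
      rw [← kac_perm, show (-(((-k).toNat : ℕ) : ℤ)) = k by omega]
      exact hkC
    classical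
    set i := Nat.find hex with hi
    have hiC : S.symm^[i] x ∈ C := Nat.find_spec hex
    have hlt : i < retTime S C (S.symm^[i] x) := by
      by_contra hge
      push Not at hge
      obtain ⟨h1, h2⟩ := hg i
      set r := retTime S C (S.symm^[i] x) with hr
      have h3 : S^[r] (S.symm^[i] x) = S.symm^[i - r] x := by
        have := kac_sub S r (i - r) x
        rwa [show r + (i - r) = i by omega] at this
      rw [h3] at h2
      exact Nat.find_min hex (show i - r < i by omega) h2
    refine Set.mem_iUnion.2 ⟨i, hiC, hlt, ?_⟩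
    change S^[i] (S.symm^[i] x) ∈ E
    rw [kac_inv]
    exact hxE
  have hunion : μ (⋃ i, B i) = μ E := by
    refine measure_congr ?_
    filter_upwards [hae] with x hx
    exact propext ⟨fun h => hsub h, fun h => hx h⟩
  calc ∑' i : ℕ, μ (D i) = ∑' i : ℕ, μ (B i) := by
        refine tsum_congr (fun i => (hBD i).symm)
    _ = μ (⋃ i, B i) := (measure_iUnion hpair hBm).symm
    _ = μ E := hunion

end Pool.H110K2
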