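import Pool.Agent.H110K2.Defs
import Pool.Agent.H110K2.P_ret_meas
import Pool.Agent.H110K2.P_kac
import Pool.Agent.H110K2.P_tw_meas

set_option linter.all false

namespace Pool.H110K2
open MeasureTheory Set Filter Topology
open scoped ENNReal NNReal symmDiff


theorem tw_mass {X : Type*} [MeasurableSpace X] (μ : Measure X) [IsProbabilityMeasure μ]
    (T S : X ≃ᵐ X) (hS : Ergodic S μ) (A C : Set X) (φ ψ : X → X)
    (hK : KIso μ T S A C φ ψ) (E : Set X) (hE : MeasurableSet E) :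
    (μ.prod (Measure.count : Measure ℚ)) (Tw S A C φ ∩ Tth S φ ⁻¹' E) = (μ A / μ C) * μ E := by
  obtain ⟨hTw, hTth⟩ := tw_meas S S.measurable A C φ hK.measA hK.measC hK.measφ
  have hA1 : μ A ≠ ⊤ := measure_ne_top μ A
  have hms : MeasurableSet (Tw S A C φ ∩ Tth S φ ⁻¹' E) := hTw.inter (hTth hE)
  rw [Measure.prod_apply_symm hms, lintegral_count]
  have hinj : Function.Injective (fun n : ℕ => (n : ℚ)) := Nat.cast_injective
  rw [← hinj.tsum_eq (f := fun q : ℚ => μ ((fun x => (x, q)) ⁻¹' (Tw S A C φ ∩ Tth S φ ⁻¹' E)))]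
  · rw [← kac μ S hS C hK.measC hK.posC E hE, ← ENNReal.tsum_mul_left]
    refine tsum_congr (fun n => ?_)
    have hset : (fun x : X => (x, (n : ℚ))) ⁻¹' (Tw S A C φ ∩ Tth S φ ⁻¹' E)
        = A ∩ φ ⁻¹' ({y | n < retTime S C y} ∩ S^[n] ⁻¹' E) := by
      ext x
      simp only [Tw, Tth, mem_preimage, mem_inter_iff, mem_setOf_eq]
      constructor
      · rintro ⟨⟨hxA, i, hi, hlt⟩, hE'⟩
        have hni : n = i := by exact_mod_cast hi
        subst hni
        refine ⟨hxA, hlt, ?_⟩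
        simpa using hE'
      · rintro ⟨hxA, hlt, hE'⟩
        refine ⟨⟨hxA, n, rfl, hlt⟩, ?_⟩
        simpa using hE'
    rw [hset]
    have hsc := hK.scale ({y | n < retTime S C y} ∩ S^[n] ⁻¹' E)
      ((measurableSet_lt measurable_const (ret_meas S S.measurable C hK.measC)).inter
        ((S.measurable.iterate n) hE))
    have h2 : μ (A ∩ φ ⁻¹' ({y | n < retTime S C y} ∩ S^[n] ⁻¹' E))
        = μ A * (μ (A ∩ φ ⁻¹' ({y | n < retTime S C y} ∩ S^[n] ⁻¹' E)) / μ A) := by
      rw [ENNReal.mul_div_cancel hK.posA hA1]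
    rw [h2, hsc, ENNReal.div_eq_inv_mul, ENNReal.div_eq_inv_mul]
    ring
  · intro q hq
    rw [Function.mem_support] at hq
    by_contra hcon
    apply hq
    have : (fun x : X => (x, q)) ⁻¹' (Tw S A C φ ∩ Tth S φ ⁻¹' E) = ∅ := by
      ext x
      simp only [Tw, mem_preimage, mem_inter_iff, mem_setOf_eq, mem_empty_iff_false, iff_false]
      rintro ⟨⟨_, i, hi, _⟩, _⟩
      exact hcon ⟨i, hi.symm⟩
    simp only [this, measure_empty]

end Pool.H110K2
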