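import Pool.Agent.H110K2.Defs
import Pool.Agent.H110K2.P_tw_meas
import Pool.Agent.H110K2.P_tw_mass
import Pool.Agent.H110K2.P_tw_inj

set_option linter.all false

namespace Pool.H110K2
open MeasureTheory Set Filter Topology
open scoped ENNReal NNReal symmDiff


theorem tw_code {X : Type*} [MeasurableSpace X] [StandardBorelSpace X] (μ : Measure X)
    [IsProbabilityMeasure μ] (T S : X ≃ᵐ X) (hS : Ergodic S μ) (A C : Set X) (φ ψ : X → X)
    (hK : KIso μ T S A C φ ψ) :
    IsCode (μ.prod (Measure.count : Measure ℚ)) μ (Tw S A C φ) (Tth S φ) := by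
  have hm := tw_meas (S : X → X) S.measurable A C φ hK.measA hK.measC hK.measφ
  have h1 : (μ.prod (Measure.count : Measure ℚ)) (Tw S A C φ) = μ A / μ C := by
    have h := tw_mass μ T S hS A C φ ψ hK Set.univ MeasurableSet.univ
    rw [Set.preimage_univ, Set.inter_univ, measure_univ, mul_one] at h
    exact h
  refine ⟨hm.1, hm.2, ?_, ?_, ?_, tw_inj μ T S hS A C φ ψ hK⟩
  · rw [h1]
    exact ENNReal.div_ne_zero.2 ⟨hK.posA, measure_ne_top μ C⟩
  · rw [h1]
    exact ENNReal.div_ne_top (measure_ne_top μ A) hK.posC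
  · intro E hE
    rw [h1]
    exact tw_mass μ T S hS A C φ ψ hK E hE

end Pool.H110K2
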