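import Pool.Agent.H110K2.Defs
import Pool.Agent.H110K2.P_ret_good
import Pool.Agent.H110K2.P_tw_meas

set_option linter.all false

namespace Pool.H110K2
open MeasureTheory Set Filter Topology
open scoped ENNReal NNReal symmDiff


/-- good return -/
def RG {X : Type*} (S : X → X) (C : Set X) (y : X) : Prop :=
  1 ≤ retTime S C y ∧ S^[retTime S C y] y ∈ C ∧
      ∀ j, 1 ≤ j → j < retTime S C y → S^[j] y ∉ C

theorem act_nat {X : Type*} [MeasurableSpace X] (T : X ≃ᵐ X) (m : ℕ) (b : ℚ) (w : X × ℚ)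
    (k : Lam) (h1 : (ofLex k).1 = m) (h2 : (ofLex k).2 = b) :
    act T k w = (T^[m] w.1, w.2 + b) := by
  unfold act
  rw [h1, h2, zpow_natCast, ← Equiv.Perm.iterate_eq_pow]
  rfl

theorem succ_uniq {W : Type*} (a : Lam → W → W) (B : Set W) (w : W) (k l : Lam)
    (hk : IsSucc a B w k) (hl : IsSucc a B w l) : k = l := by
  rcases lt_trichotomy k l with h | h | h
  · exact absurd hk.2.1 (hl.2.2 k hk.1 h)
  · exact h
  · exact absurd hl.2.1 (hk.2.2 l hl.1 h)

theorem tw_det {X : Type*} [MeasurableSpace X] (T S : X ≃ᵐ X) (A C : Set X) (φ : X → X)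
    (x : X) (q : ℚ) (hv : (x, q) ∈ Tw S A C φ)
    (hφ : φ (induced T A x) = induced S C (φ x)) (hRT : RG T A x)
    (hR2 : 1 ≤ retTime S C (φ (induced T A x))) (k : Lam)
    (hk : IsSucc (act T) (Tw S A C φ) (x, q) k) :
    Tth S φ (act T k (x, q)) = S (Tth S φ (x, q)) := by
  obtain ⟨hxA, i, hqi, hir⟩ := hv
  simp only at hxA hqi hir
  subst hqi
  obtain ⟨hn1, hnA, hnot⟩ := hRT
  have hT0 : Tth S φ (x, (i : ℚ)) = S^[i] (φ x) := by
    unfold Tth
    simp
  by_cases hcase : i + 1 < retTime S C (φ x)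
  · have hs : IsSucc (act T) (Tw S A C φ) (x, (i : ℚ)) (toLex ((0 : ℤ), (1 : ℚ))) := by
      refine ⟨?_, ?_, ?_⟩
      · rw [Prod.Lex.lt_iff]
        right
        exact ⟨rfl, by show (0 : ℚ) < 1; norm_num⟩
      · rw [act_nat T 0 1 _ _ rfl rfl]
        exact ⟨hxA, i + 1, by push_cast; rfl, hcase⟩
      · intro j hj0 hj1 hmem
        rw [Prod.Lex.lt_iff] at hj0 hj1
        have e1 : (ofLex (0 : Lam)).1 = (0 : ℤ) := rfl
        have e2 : (ofLex (0 : Lam)).2 = (0 : ℚ) := rfl
        have e3 : (ofLex (toLex ((0 : ℤ), (1 : ℚ)))).1 = (0 : ℤ) := rfl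
        have e4 : (ofLex (toLex ((0 : ℤ), (1 : ℚ)))).2 = (1 : ℚ) := rfl
        rw [e1, e2] at hj0
        rw [e3, e4] at hj1
        have ha : (ofLex j).1 = 0 := by
          rcases hj0 with h | h
          · rcases hj1 with h' | h'
            · omega
            · exact h'.1
          · exact h.1.symm
        have hb0 : 0 < (ofLex j).2 := by
          rcases hj0 with h | h
          · omega
          · exact h.2
        have hb1 : (ofLex j).2 < 1 := by
          rcases hj1 with h | h
          · omega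
          · exact h.2
        rw [act_nat T 0 (ofLex j).2 _ _ (by rw [ha]; rfl) rfl] at hmem
        obtain ⟨_, i', hi', _⟩ := hmem
        simp only at hi'
        have h1 : (i : ℚ) < i' := by linarith
        have h2 : (i' : ℚ) < i + 1 := by linarith
        have h1' : i < i' := by exact_mod_cast h1
        have h2' : i' < i + 1 := by exact_mod_cast h2
        omega
    have hkk := succ_uniq _ _ _ _ _ hk hs
    rw [hkk, act_nat T 0 1 _ _ rfl rfl, hT0]
    have : Tth S φ (T^[0] (x, (i : ℚ)).1, (x, (i : ℚ)).2 + 1) = S^[i + 1] (φ x) := by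
      unfold Tth
      have e : ((i : ℚ) + 1) = ((i + 1 : ℕ) : ℚ) := by push_cast; rfl
      simp only [Function.iterate_zero, id]
      rw [e, Rat.num_natCast]
      rfl
    rw [this, Function.iterate_succ_apply']
  · have hr : retTime S C (φ x) = i + 1 := by omega
    set n := retTime T A x with hn
    have hs : IsSucc (act T) (Tw S A C φ) (x, (i : ℚ)) (toLex ((n : ℤ), (-(i : ℚ)))) := by
      have e1 : (ofLex (0 : Lam)).1 = (0 : ℤ) := rfl
      have e2 : (ofLex (0 : Lam)).2 = (0 : ℚ) := rfl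
      have e3 : (ofLex (toLex ((n : ℤ), (-(i : ℚ))))).1 = (n : ℤ) := rfl
      have e4 : (ofLex (toLex ((n : ℤ), (-(i : ℚ))))).2 = (-(i : ℚ)) := rfl
      refine ⟨?_, ?_, ?_⟩
      · rw [Prod.Lex.lt_iff]
        left
        rw [e1, e3]
        exact_mod_cast hn1
      · rw [act_nat T n (-(i : ℚ)) _ _ rfl rfl]
        refine ⟨hnA, 0, ?_, ?_⟩
        · show (i : ℚ) + (-(i : ℚ)) = ((0 : ℕ) : ℚ)
          simp
        · exact hR2
      · intro j hj0 hj1 hmem
        rw [Prod.Lex.lt_iff] at hj0 hj1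
        rw [e1, e2] at hj0
        rw [e3, e4] at hj1
        have ha0 : 0 ≤ (ofLex j).1 := by
          rcases hj0 with h | h
          · exact h.le
          · exact h.1.le
        obtain ⟨a, ha⟩ := Int.eq_ofNat_of_zero_le ha0
        rw [act_nat T a (ofLex j).2 _ _ ha rfl] at hmem
        obtain ⟨hmA, i', hi', hi'r⟩ := hmem
        simp only at hi' hmA hi'r
        rw [ha] at hj0 hj1
        rcases hj1 with h1 | h1
        · have h1' : a < n := by exact_mod_cast h1
          by_cases ha1 : a = 0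
          · subst ha1
            have hb : 0 < (ofLex j).2 := by
              rcases hj0 with h | h
              · exact absurd h (by simp)
              · exact h.2
            simp only [Function.iterate_zero, id] at hi'r
            rw [hr] at hi'r
            have h2 : (i : ℚ) < i' := by linarith
            have h2' : i < i' := by exact_mod_cast h2
            omega
          · exact hnot a (by omega) h1' hmA
        · have h2 : (i' : ℚ) < 0 := by linarith [h1.2]
          have h3 : (0 : ℚ) ≤ i' := by positivity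
          linarith
    have hkk := succ_uniq _ _ _ _ _ hk hs
    rw [hkk, act_nat T n (-(i : ℚ)) _ _ rfl rfl, hT0]
    have : Tth S φ (T^[n] (x, (i : ℚ)).1, (x, (i : ℚ)).2 + -(i : ℚ)) = φ (induced T A x) := by
      unfold Tth
      simp only [add_neg_cancel, Rat.num_zero, Int.toNat_zero, Function.iterate_zero, id]
      rfl
    rw [this, hφ]
    unfold induced
    rw [hr, Function.iterate_succ_apply']

theorem tw_succ {X : Type*} [MeasurableSpace X] [StandardBorelSpace X] (μ : Measure X)
    [IsProbabilityMeasure μ] (T S : X ≃ᵐ X) (hT : Ergodic T μ) (hS : Ergodic S μ)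
    (A C : Set X) (φ ψ : X → X) (hK : KIso μ T S A C φ ψ) :
    ∀ᵐ v ∂(μ.prod (Measure.count : Measure ℚ)), v ∈ Tw S A C φ →
      ∀ k, IsSucc (act T) (Tw S A C φ) v k → Tth S φ (act T k v) = S (Tth S φ v) := by
  have h1 : ∀ᵐ y ∂μ, RG S C y := ret_good μ S hS C hK.measC hK.posC
  have h2 : ∀ᵐ x ∂μ, RG T A x := ret_good μ T hT A hK.measA hK.posA
  have h3 : ∀ᵐ x ∂μ, x ∈ A → φ x ∈ C ∧ ψ (φ x) = x ∧ φ (induced T A x) = induced S C (φ x) :=
    (ae_restrict_iff' hK.measA).1 hK.fwd
  have h4 : ∀ᵐ x ∂μ, x ∈ A → RG S C (φ x) := by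
    have hN : μ {y | ¬ RG S C y} = 0 := ae_iff.1 h1
    set N := toMeasurable μ {y | ¬ RG S C y} with hNd
    have hN0 : μ N = 0 := by rw [hNd, measure_toMeasurable]; exact hN
    have hsc := hK.scale N (measurableSet_toMeasurable _ _)
    have hc0 : μ (C ∩ N) = 0 := measure_mono_null inter_subset_right hN0
    rw [hc0, ENNReal.zero_div, ENNReal.div_eq_zero_iff] at hsc
    have hA0 : μ (A ∩ φ ⁻¹' N) = 0 := by
      rcases hsc with h | h
      · exact h
      · exact absurd h (measure_ne_top μ A)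
    rw [ae_iff]
    refine measure_mono_null ?_ hA0
    intro x hx
    have hx' : ¬ (x ∈ A → RG S C (φ x)) := hx
    push Not at hx'
    exact ⟨hx'.1, subset_toMeasurable _ _ hx'.2⟩
  have h5 : ∀ᵐ x ∂μ, ∀ n : ℕ, T^[n] x ∈ A → RG S C (φ (T^[n] x)) := by
    rw [ae_all_iff]
    intro n
    exact (hT.toMeasurePreserving.iterate n).quasiMeasurePreserving.ae h4
  have h6 : ∀ᵐ x ∂μ, RG T A x ∧
      (x ∈ A → φ x ∈ C ∧ ψ (φ x) = x ∧ φ (induced T A x) = induced S C (φ x)) ∧
      ∀ n : ℕ, T^[n] x ∈ A → RG S C (φ (T^[n] x)) := by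
    filter_upwards [h2, h3, h5] with x a b c
    exact ⟨a, b, c⟩
  have h7 := (Measure.quasiMeasurePreserving_fst (μ := μ) (ν := (Measure.count : Measure ℚ))).ae h6
  filter_upwards [h7] with v hv hvT k hk
  obtain ⟨x, q⟩ := v
  simp only at hv
  obtain ⟨hRT, hfw, hall⟩ := hv
  exact tw_det T S A C φ x q hvT (hfw hvT.1).2.2 hRT (hall _ hRT.2.1).1 k hk

end Pool.H110K2
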