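import Pool.Agent.H110K2.Defs
import Pool.Agent.H110K2.P_bs_meas
import Pool.Agent.H110K2.P_th_meas
import Pool.Agent.H110K2.P_code_real
import Pool.Agent.H110K2.P_tt_ae
import Pool.Agent.H110K2.P_code_ae
import Pool.Agent.H110K2.P_map_unique
import Pool.Agent.H110K2.P_tt_of_pred
import Pool.Agent.H110K2.P_code_map
import Pool.Agent.H110K2.P_act_sys
import Pool.Agent.H110K2.P_tw_code
import Pool.Agent.H110K2.P_tw_succ
import Pool.Agent.H110K2.P_pred_of_succ
import Pool.Agent.H110K2.P_ind_main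

set_option linter.all false

namespace Pool.H110K2
open MeasureTheory Set Filter Topology
open scoped ENNReal NNReal symmDiff


theorem class_iff {X : Type*} [MeasurableSpace X] [StandardBorelSpace X] (μ : Measure X)
    [IsProbabilityMeasure μ] [NullSingletonClass μ] (e : X ≃ᵐ (ℕ → Bool)) (T S : X ≃ᵐ X)
    (hT : Ergodic T μ) (hS : Ergodic S μ) :
    KakutaniEquiv μ T S ↔
      (fun ij : Idx × Idx => (μ (S.symm ⁻¹' Cyl e ij.1 ∩ Cyl e ij.2)).toReal) ∈
        range (fun p : PP (μ.prod (Measure.count : Measure ℚ)) μ e =>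
          tt (μ.prod (Measure.count : Measure ℚ)) (act T) e (Bs p.1) (th e p.1)) := by
  have hsys := act_sys μ T hT
  constructor
  · rintro ⟨A, C, hA, hC, hA0, hC0, φ, ψ, hφ, hψ, h1, h2, h3⟩
    have hK : KIso μ T S A C φ ψ := ⟨hA, hC, hA0, hC0, hφ, hψ, h1, h2, h3⟩
    have hc := tw_code μ T S hS A C φ ψ hK
    have hsucc := tw_succ μ T S hT hS A C φ ψ hK
    have hpred := (pred_of_succ hsys S).1 hsucc
    obtain ⟨p, hp1, hp2⟩ := code_real e (Tw S A C φ) (Tth S φ) hc.measB hc.fin hc.measθ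
    have e1 : ∀ᵐ w ∂(μ.prod (Measure.count : Measure ℚ)), w ∈ Tw S A C φ ↔ w ∈ Bs p := by
      filter_upwards [hp1] with w hw using hw.symm
    have e2 : ∀ᵐ w ∂(μ.prod (Measure.count : Measure ℚ)), w ∈ Tw S A C φ →
        Tth S φ w = th e p w := by
      filter_upwards [hp2] with w hw h using (hw h).symm
    have hp : IsCode (μ.prod (Measure.count : Measure ℚ)) μ (Bs p) (th e p) :=
      code_ae hc (bs_meas p).1 (th_meas e p) e1 e2
    refine ⟨⟨p, hp⟩, ?_⟩
    have ht := tt_ae hsys e e1 e2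
    funext ij
    obtain ⟨i, j⟩ := ij
    have := tt_of_pred hsys e hc S.symm S.symm.measurable hpred i j
    show tt (μ.prod (Measure.count : Measure ℚ)) (act T) e (Bs p) (th e p) (i, j) = _
    rw [← ht, this]
  · rintro ⟨⟨p, hp⟩, hpt⟩
    have hp' : IsCode (μ.prod (Measure.count : Measure ℚ)) μ (Bs p) (th e p) := hp
    obtain ⟨U, hU, hUp, hUt⟩ := code_map hsys e hp'
    have hEq : ∀ i j, μ (U ⁻¹' Cyl e i ∩ Cyl e j) = μ (S.symm ⁻¹' Cyl e i ∩ Cyl e j) := by
      intro i j
      have h1 := hUt i j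
      have h2 := congrFun hpt (i, j)
      have h3 : tt (μ.prod (Measure.count : Measure ℚ)) (act T) e (Bs p) (th e p) (i, j) =
        (μ (S.symm ⁻¹' Cyl e i ∩ Cyl e j)).toReal := h2
      rw [h1] at h3
      exact (ENNReal.toReal_eq_toReal_iff' (measure_ne_top _ _) (measure_ne_top _ _)).1 h3
    have hae := map_unique μ e U S.symm hU S.symm.measurable hEq
    have hae2 : ∀ᵐ w ∂(μ.prod (Measure.count : Measure ℚ)), w ∈ Bs p →
        U (th e p w) = S.symm (th e p w) := by
      have h0 : μ {x | ¬ (U x = S.symm x)} = 0 := hae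
      have h4 : μ (toMeasurable μ {x | ¬ (U x = S.symm x)}) = 0 := by
        rw [measure_toMeasurable, h0]
      have h5 := hp'.push _ (measurableSet_toMeasurable μ {x | ¬ (U x = S.symm x)})
      rw [h4, mul_zero] at h5
      have h6 : ∀ᵐ w ∂(μ.prod (Measure.count : Measure ℚ)), w ∉ (Bs p ∩ th e p ⁻¹'
          toMeasurable μ {x | ¬ (U x = S.symm x)}) := measure_eq_zero_iff_ae_notMem.1 h5
      filter_upwards [h6] with w hw hB
      by_contra hne
      exact hw ⟨hB, subset_toMeasurable μ _ hne⟩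
    have hpred : ∀ᵐ w ∂(μ.prod (Measure.count : Measure ℚ)), w ∈ Bs p →
        ∀ k, IsPred (act T) (Bs p) w k → th e p (act T (-k) w) = S.symm (th e p w) := by
      filter_upwards [hUp, hae2] with w h1 h2 hB k hk
      rw [h1 hB k hk, h2 hB]
    have hsucc := (pred_of_succ hsys S).2 hpred
    exact ind_main μ e T S hT (Bs p) (th e p) hp' hsucc

end Pool.H110K2
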