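import Pool.Agent.H110K2.Defs

set_option linter.all false

namespace Pool.H110K2
open MeasureTheory Set Filter Topology
open scoped ENNReal NNReal symmDiff


theorem code_closed {W : Type*} [MeasurableSpace W] (m : Measure W) :
    IsClosed {p : ℕ → Lp ℝ 1 m | ∀ n, ∀ᵐ w ∂m, ((p 0 : W → ℝ) w, (p n : W → ℝ) w) ∈ KK} := by
  have hKK : IsClosed KK := by
    apply Set.Finite.isClosed
    unfold KK
    simp
  haveI : Fact ((1 : ℝ≥0∞) ≤ 1) := ⟨le_rfl⟩
  apply IsSeqClosed.isClosed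
  intro u p hu hlim n
  rw [tendsto_pi_nhds] at hlim
  have h0 := tendstoInMeasure_of_tendsto_Lp (hlim 0)
  obtain ⟨ns, hns, hae0⟩ := h0.exists_seq_tendsto_ae
  have hn : Tendsto (fun k => u (ns k) n) atTop (𝓝 (p n)) := (hlim n).comp hns.tendsto_atTop
  have h1 := tendstoInMeasure_of_tendsto_Lp hn
  obtain ⟨ms, hms, hae1⟩ := h1.exists_seq_tendsto_ae
  have hall : ∀ᵐ w ∂m, ∀ k, ((u k 0 : W → ℝ) w, (u k n : W → ℝ) w) ∈ KK := by
    rw [ae_all_iff]
    intro k
    exact hu k n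
  filter_upwards [hae0, hae1, hall] with w w0 w1 w2
  have w0' := w0.comp hms.tendsto_atTop
  have hl := w0'.prodMk_nhds w1
  exact hKK.mem_of_tendsto hl (Eventually.of_forall fun k => w2 (ns (ms k)))

end Pool.H110K2
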