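import Pool.Agent.H110K2.Defs

set_option linter.all false

namespace Pool.H110K2
open MeasureTheory Set Filter Topology
open scoped ENNReal NNReal symmDiff


theorem code_ext {W X : Type*} [MeasurableSpace W] [MeasurableSpace X] {m : Measure W}
    (e : X ≃ᵐ (ℕ → Bool)) (p p' : Code m) (h0 : ∀ᵐ w ∂m, w ∈ Bs p ↔ w ∈ Bs p')
    (h1 : ∀ᵐ w ∂m, w ∈ Bs p → th e p w = th e p' w) : p = p' := by
  classical
  apply Subtype.ext
  funext n
  apply Lp.ext
  filter_upwards [h0, h1, p.2 n, p'.2 n] with w hw0 hw1 hp hp'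
  simp only [KK, Set.mem_insert_iff, Set.mem_singleton_iff, Prod.mk.injEq] at hp hp'
  simp only [Bs, Set.mem_setOf_eq] at hw0 hw1
  cases n with
  | zero =>
    rcases hp with ⟨ha, _⟩ | ⟨_, ha⟩ | ⟨ha, _⟩
    · rcases hp' with ⟨hb, _⟩ | ⟨_, hb⟩ | ⟨hb, _⟩
      · rw [ha, hb]
      · rw [ha, hb]
      · rw [ha, hb]
        exact absurd (hw0.2 hb) (by rw [ha]; norm_num)
    · rcases hp' with ⟨hb, _⟩ | ⟨_, hb⟩ | ⟨hb, _⟩
      · rw [ha, hb]
      · rw [ha, hb]
      · rw [ha, hb]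
        exact absurd (hw0.2 hb) (by rw [ha]; norm_num)
    · have := hw0.1 ha
      rw [ha, this]
  | succ k =>
    by_cases hB : (p.1 0 : W → ℝ) w = 1
    · have hB' := hw0.1 hB
      have hth := hw1 hB
      simp only [th] at hth
      have hth2 := e.symm.injective hth
      have hk := congrFun hth2 k
      have hiff : ((p.1 (k+1) : W → ℝ) w = 1) ↔ ((p'.1 (k+1) : W → ℝ) w = 1) := by
        simpa using hk
      rcases hp with ⟨ha, _⟩ | ⟨_, ha⟩ | ⟨_, ha⟩
      · rw [ha] at hB; norm_num at hB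
      · rcases hp' with ⟨hb, _⟩ | ⟨_, hb⟩ | ⟨_, hb⟩
        · rw [hb] at hB'; norm_num at hB'
        · rw [ha, hb]
        · exact absurd (hiff.2 hb) (by rw [ha]; norm_num)
      · have := hiff.1 ha
        rw [ha, this]
    · have hB' : ¬ (p'.1 0 : W → ℝ) w = 1 := fun h => hB (hw0.2 h)
      rcases hp with ⟨_, ha⟩ | ⟨h, _⟩ | ⟨h, _⟩
      · rcases hp' with ⟨_, hb⟩ | ⟨h, _⟩ | ⟨h, _⟩
        · rw [ha, hb]
        · exact absurd h hB'
        · exact absurd h hB'
      · exact absurd h hB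
      · exact absurd h hB

end Pool.H110K2
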