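import Pool.Agent.H110K2.Defs
import Pool.Agent.H110K2.P_code_closed

set_option linter.all false

namespace Pool.H110K2
open MeasureTheory Set Filter Topology
open scoped ENNReal NNReal symmDiff


theorem code_polish {W : Type*} [MeasurableSpace W] [MeasurableSpace.CountablyGenerated W]
    (m : Measure W) [SigmaFinite m] : PolishSpace (Code m) := by
  haveI h1 : Fact ((1:ENNReal) ≠ ⊤) := ⟨ENNReal.one_ne_top⟩
  haveI h2 : SecondCountableTopology (Lp ℝ 1 m) := inferInstance
  haveI h3 : PolishSpace (Lp ℝ 1 m) := inferInstance
  exact (code_closed m).polishSpace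

end Pool.H110K2
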