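import Pool.Agent.H110K2.Defs

set_option linter.all false

namespace Pool.H110K2
open MeasureTheory Set Filter Topology
open scoped ENNReal NNReal symmDiff


theorem ct_map {W : Type*} [MeasurableSpace W] {m : Measure W}
    (τ : W → W) (R : Set W) (c : ℝ≥0∞) (hτ : Measurable τ)
    (hm : ∀ E, MeasurableSet E → m (R ∩ τ ⁻¹' E) = c * m E) :
    Measure.map τ (m.restrict R) = c • m := by
  ext E hE
  rw [Measure.map_apply hτ hE, Measure.restrict_apply (hτ hE), inter_comm, hm E hE,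
    Measure.smul_apply, smul_eq_mul]

theorem ct_memLp {W : Type*} [MeasurableSpace W] {m : Measure W}
    (τ : W → W) (R : Set W) (c : ℝ≥0∞) (hτ : Measurable τ)
    (hR : MeasurableSet R) (hc : c ≠ ⊤)
    (hm : ∀ E, MeasurableSet E → m (R ∩ τ ⁻¹' E) = c * m E) (f : Lp ℝ 1 m) :
    MemLp (R.indicator ((f : W → ℝ) ∘ τ)) 1 m := by
  rw [memLp_indicator_iff_restrict hR]
  have h1 : MemLp (f : W → ℝ) 1 (c • m) := (Lp.memLp f).smul_measure hc
  rw [← ct_map τ R c hτ hm] at h1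
  exact (memLp_map_measure_iff h1.1 hτ.aemeasurable).mp h1

noncomputable def ctG {W : Type*} [MeasurableSpace W] {m : Measure W}
    (τ : W → W) (R : Set W) (c : ℝ≥0∞) (hτ : Measurable τ)
    (hR : MeasurableSet R) (hc : c ≠ ⊤)
    (hm : ∀ E, MeasurableSet E → m (R ∩ τ ⁻¹' E) = c * m E) (f : Lp ℝ 1 m) : Lp ℝ 1 m :=
  (ct_memLp τ R c hτ hR hc hm f).toLp _

theorem ctG_ae {W : Type*} [MeasurableSpace W] {m : Measure W}
    (τ : W → W) (R : Set W) (c : ℝ≥0∞) (hτ : Measurable τ)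
    (hR : MeasurableSet R) (hc : c ≠ ⊤)
    (hm : ∀ E, MeasurableSet E → m (R ∩ τ ⁻¹' E) = c * m E) (f : Lp ℝ 1 m) :
    ∀ᵐ w ∂m, (ctG τ R c hτ hR hc hm f : W → ℝ) w = R.indicator ((f : W → ℝ) ∘ τ) w :=
  (ct_memLp τ R c hτ hR hc hm f).coeFn_toLp

theorem ct_ae {W : Type*} [MeasurableSpace W] {m : Measure W}
    (τ : W → W) (R : Set W) (c : ℝ≥0∞) (hτ : Measurable τ)
    (hR : MeasurableSet R)
    (hm : ∀ E, MeasurableSet E → m (R ∩ τ ⁻¹' E) = c * m E) (P : W → Prop)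
    (hP : ∀ᵐ w ∂m, P w) : ∀ᵐ w ∂m, w ∈ R → P (τ w) := by
  have h1 : ∀ᵐ w ∂(c • m), P w := Measure.ae_smul_measure hP c
  rw [← ct_map τ R c hτ hm] at h1
  have h2 := ae_of_ae_map hτ.aemeasurable h1
  exact (ae_restrict_iff' hR).mp h2

theorem ctG_cont {W : Type*} [MeasurableSpace W] {m : Measure W}
    (τ : W → W) (R : Set W) (c : ℝ≥0∞) (hτ : Measurable τ)
    (hR : MeasurableSet R) (hc : c ≠ ⊤)
    (hm : ∀ E, MeasurableSet E → m (R ∩ τ ⁻¹' E) = c * m E) :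
    Continuous (ctG τ R c hτ hR hc hm) := by
  have hL : LipschitzWith c.toNNReal (ctG τ R c hτ hR hc hm) := by
    intro f g
    unfold ctG
    rw [Lp.edist_toLp_toLp, ENNReal.coe_toNNReal hc, Lp.edist_def]
    have h1 : R.indicator ((f : W → ℝ) ∘ τ) - R.indicator ((g : W → ℝ) ∘ τ)
        = R.indicator (((f : W → ℝ) - (g : W → ℝ)) ∘ τ) := by
      funext w
      by_cases hw : w ∈ R
      · simp [hw]
      · simp [hw]
    rw [h1, eLpNorm_indicator_eq_eLpNorm_restrict hR]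
    have h2 : AEStronglyMeasurable ((f : W → ℝ) - (g : W → ℝ)) (Measure.map τ (m.restrict R)) := by
      rw [ct_map τ R c hτ hm]
      exact ((Lp.aestronglyMeasurable f).sub (Lp.aestronglyMeasurable g)).smul_measure c
    rw [← eLpNorm_map_measure h2 hτ.aemeasurable, ct_map τ R c hτ hm, eLpNorm_one_smul_measure]
  exact hL.continuous

theorem code_trans {W X : Type*} [MeasurableSpace W] [MeasurableSpace X] {m : Measure W}
    (e : X ≃ᵐ (ℕ → Bool)) (τ : W → W) (R : Set W) (c : ℝ≥0∞) (hτ : Measurable τ)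
    (hR : MeasurableSet R) (hc : c ≠ ⊤)
    (hm : ∀ E, MeasurableSet E → m (R ∩ τ ⁻¹' E) = c * m E) :
    ∃ F : Code m → Code m, Continuous F ∧ ∀ p,
      (∀ᵐ w ∂m, w ∈ Bs (F p) ↔ w ∈ R ∧ τ w ∈ Bs p) ∧
      (∀ᵐ w ∂m, w ∈ Bs (F p) → th e (F p) w = th e p (τ w)) := by
  have hKK : ∀ (p : Code m) (n : ℕ), ∀ᵐ w ∂m,
      ((ctG τ R c hτ hR hc hm (p.1 0) : W → ℝ) w, (ctG τ R c hτ hR hc hm (p.1 n) : W → ℝ) w) ∈ KK := by
    intro p n
    filter_upwards [ctG_ae τ R c hτ hR hc hm (p.1 0), ctG_ae τ R c hτ hR hc hm (p.1 n),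
      ct_ae τ R c hτ hR hm _ (p.2 n)] with w h1 h2 h3
    rw [h1, h2]
    by_cases hw : w ∈ R
    · rw [indicator_of_mem hw, indicator_of_mem hw]
      exact h3 hw
    · rw [indicator_of_notMem hw, indicator_of_notMem hw]
      exact Or.inl rfl
  refine ⟨fun p => ⟨fun n => ctG τ R c hτ hR hc hm (p.1 n), hKK p⟩, ?_, ?_⟩
  · apply Continuous.subtype_mk
    apply continuous_pi
    intro n
    exact (ctG_cont τ R c hτ hR hc hm).comp ((continuous_apply n).comp continuous_subtype_val)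
  · intro p
    have h0 : ∀ᵐ w ∂m, (w ∈ Bs (⟨fun n => ctG τ R c hτ hR hc hm (p.1 n), hKK p⟩ : Code m)
        ↔ w ∈ R ∧ τ w ∈ Bs p) := by
      filter_upwards [ctG_ae τ R c hτ hR hc hm (p.1 0)] with w h1
      change (ctG τ R c hτ hR hc hm (p.1 0) : W → ℝ) w = 1 ↔
        w ∈ R ∧ (p.1 0 : W → ℝ) (τ w) = 1
      rw [h1]
      by_cases hw : w ∈ R
      · rw [indicator_of_mem hw]
        simp [hw]
      · rw [indicator_of_notMem hw]
        simp [hw]
    refine ⟨h0, ?_⟩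
    have hall : ∀ᵐ w ∂m, ∀ n, (ctG τ R c hτ hR hc hm (p.1 n) : W → ℝ) w
        = R.indicator ((p.1 n : W → ℝ) ∘ τ) w :=
      ae_all_iff.mpr (fun n => ctG_ae τ R c hτ hR hc hm (p.1 n))
    filter_upwards [h0, hall] with w h1 h2 hw
    have hwR := (h1.mp hw).1
    unfold th
    congr 1
    funext n
    have h3 := h2 (n + 1)
    rw [indicator_of_mem hwR] at h3
    change decide ((ctG τ R c hτ hR hc hm (p.1 (n + 1)) : W → ℝ) w = 1)
      = decide ((p.1 (n + 1) : W → ℝ) (τ w) = 1)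
    rw [h3]
    rfl

end Pool.H110K2
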