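import Pool.Agent.H110K2.Defs

set_option linter.all false

namespace Pool.H110K2
open MeasureTheory Set Filter Topology
open scoped ENNReal NNReal symmDiff


theorem dis_meas {W : Type*} [MeasurableSpace W] {m : Measure W} (n : ℕ) (p p' : Code m) :
    MeasurableSet (DIS n p p') := by
  have e : DIS n p p' = ⋃ k, ⋃ (_ : k ≤ n), {w | (p.1 k : W → ℝ) w ≠ (p'.1 k : W → ℝ) w} := by
    ext w
    simp [DIS]
  rw [e]
  refine MeasurableSet.iUnion fun k => MeasurableSet.iUnion fun _ => ?_
  exact (measurableSet_eq_fun (Lp.stronglyMeasurable (p.1 k)).measurable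
    (Lp.stronglyMeasurable (p'.1 k)).measurable).compl

end Pool.H110K2
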