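import Pool.Agent.H110K2.Defs
import Pool.Agent.H110K2.P_cont_of_dis
import Pool.Agent.H110K2.P_dis_meas
import Pool.Agent.H110K2.P_bs_meas
import Pool.Agent.H110K2.P_th_meas
import Pool.Agent.H110K2.P_dis_spec
import Pool.Agent.H110K2.P_cyl_meas
import Pool.Agent.H110K2.P_NB_diff

set_option linter.all false

namespace Pool.H110K2
open MeasureTheory Set Filter Topology
open scoped ENNReal NNReal symmDiff


theorem cont_NB {W X : Type*} [MeasurableSpace W] [MeasurableSpace X] {m : Measure W}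
    {a : Lam → W → W} (hS : Sys m a) (e : X ≃ᵐ (ℕ → Bool)) (i j : Idx) :
    Continuous (fun p : Code m =>
      (m (NB a (Bs p) (Bs p ∩ th e p ⁻¹' Cyl e i) ∩ th e p ⁻¹' Cyl e j)).toReal) := by
  apply cont_of_dis (fun p : Code m => NB a (Bs p) (Bs p ∩ th e p ⁻¹' Cyl e i) ∩ th e p ⁻¹' Cyl e j)
    (max i.1 j.1) 3
  · intro p hp
    apply (bs_meas p).2
    rw [← top_le_iff, ← hp]
    apply measure_mono
    rintro w ⟨⟨h1, _⟩, _⟩
    exact h1
  · intro p p'
    have h1 : ∀ p : Code m, MeasurableSet (Bs p ∩ th e p ⁻¹' Cyl e i) := fun p =>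
      (bs_meas p).1.inter ((th_meas e p) (cyl_meas e i))
    have h2 := NB_diff hS (B := Bs p) (B' := Bs p') (D := Bs p ∩ th e p ⁻¹' Cyl e i)
      (D' := Bs p' ∩ th e p' ⁻¹' Cyl e i) (C := th e p ⁻¹' Cyl e j) (C' := th e p' ⁻¹' Cyl e j)
      (Z := DIS (max i.1 j.1) p p') (bs_meas p).1 (bs_meas p').1 (h1 p) (h1 p')
      (dis_meas _ p p') (bs_meas p).2 (bs_meas p').2 (by
        intro w hw
        obtain ⟨h3, h4⟩ := dis_spec e (max i.1 j.1) p p' w hw
        refine ⟨h3, ?_, ?_⟩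
        · have h5 := h4 i (le_max_left _ _)
          simp only [Set.mem_inter_iff, Set.mem_preimage]
          rw [h3, h5]
        · exact h4 j (le_max_right _ _))
    exact_mod_cast h2

end Pool.H110K2
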