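import Pool.Agent.H110K2.Defs
import Pool.Agent.H110K2.P_ae_all

set_option linter.all false

namespace Pool.H110K2
open MeasureTheory Set Filter Topology
open scoped ENNReal NNReal symmDiff


theorem emb_orbit {W : Type*} [MeasurableSpace W] {m : Measure W} {a : Lam → W → W}
    (hS : Sys m a) {ρ τ : W → W} {R : Set W} {c : ℝ≥0∞} (hE : Emb m a ρ τ R c) :
    ∀ᵐ w ∂m, ∃ f : Lam → Lam, StrictMono f ∧ f 0 = 0 ∧ (∀ k, ρ (a k w) = a (f k) (ρ w)) ∧
      (∀ l, a l (ρ w) ∈ R → ∃ k, l = f k) ∧ (∀ k, ρ (a k w) ∈ R) ∧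
      (∀ k, τ (ρ (a k w)) = a k w) := by
  have h1 := ae_all hS hE.mem
  have h2 := ae_all hS hE.left
  have h3 := ae_all hS hE.order
  have h4 := hE.orbit
  have h5 : ∀ᵐ w ∂m, ∀ k, a k (ρ w) = ρ w → k = 0 := by
    have hfree := hS.free
    rw [ae_iff] at hfree
    set Z0 : Set W := {w | ¬ ∀ k, a k w = w → k = 0} with hZ0
    have hZ : m (ρ ⁻¹' (toMeasurable m Z0)) = 0 := by
      rw [hE.map _ (measurableSet_toMeasurable m Z0)]
      have : m (toMeasurable m Z0 ∩ R) = 0 :=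
        measure_mono_null inter_subset_left (by rw [measure_toMeasurable]; exact hfree)
      rw [this, mul_zero]
    rw [ae_iff]
    refine measure_mono_null ?_ hZ
    intro w hw
    exact subset_toMeasurable m Z0 hw
  filter_upwards [h1, h2, h3, h4, h5] with w g1 g2 g3 g4 g5
  have huniq : ∀ l l' : Lam, a l (ρ w) = a l' (ρ w) → l = l' := by
    intro l l' hll
    have h6 : a (-l' + l) (ρ w) = ρ w := by
      rw [hS.add, hll, ← hS.add, neg_add_cancel, hS.zero]
    have h7 := g5 _ h6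
    have h8 : l' + (-l' + l) = l' + 0 := by rw [h7]
    rw [add_neg_cancel_left, add_zero] at h8
    exact h8
  have hex : ∀ k : Lam, ∃ l, ρ (a k w) = a l (ρ w) := by
    intro k
    rcases lt_trichotomy k 0 with hk | hk | hk
    · have hk' : 0 < -k := neg_pos.mpr hk
      obtain ⟨l, hl, hl2⟩ := g3 k (-k) hk'
      rw [← hS.add, neg_add_cancel, hS.zero] at hl2
      refine ⟨-l, ?_⟩
      rw [hl2, ← hS.add, neg_add_cancel, hS.zero]
    · refine ⟨0, ?_⟩
      rw [hk, hS.zero, hS.zero]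
    · obtain ⟨l, hl, hl2⟩ := g3 0 k hk
      rw [hS.zero] at hl2
      exact ⟨l, hl2⟩
  choose f hf using hex
  refine ⟨f, ?_, ?_, hf, ?_, g1, g2⟩
  · intro k k' hkk
    have hj : 0 < k' - k := sub_pos.mpr hkk
    obtain ⟨l, hl, hl2⟩ := g3 k (k' - k) hj
    rw [← hS.add, sub_add_cancel, hf k', hf k, ← hS.add] at hl2
    have h9 := huniq _ _ hl2
    rw [h9]
    exact lt_add_of_pos_left _ hl
  · apply huniq
    rw [← hf 0, hS.zero, hS.zero]
  · intro l hl
    obtain ⟨k, hk⟩ := g4 l hl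
    refine ⟨k, huniq _ _ ?_⟩
    rw [hk, hf k]

end Pool.H110K2
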