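import Pool.Agent.H110K2.Defs
import Pool.Agent.H110K2.P_emb_orbit

set_option linter.all false

namespace Pool.H110K2
open MeasureTheory Set Filter Topology
open scoped ENNReal NNReal symmDiff


theorem emb_NB {W : Type*} [MeasurableSpace W] {m : Measure W} {a : Lam → W → W}
    (hS : Sys m a) {ρ τ : W → W} {R : Set W} {c : ℝ≥0∞} (hE : Emb m a ρ τ R c)
    (B D : Set W) :
    ∀ᵐ w ∂m, (ρ w ∈ NB a (R ∩ τ ⁻¹' B) (R ∩ τ ⁻¹' D) ↔ w ∈ NB a B D) := by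
  filter_upwards [emb_orbit hS hE] with w hw
  obtain ⟨f, hmono, hf0, hfρ, hfR, hR, hτ⟩ := hw
  have hz : a 0 w = w := hS.zero w
  have key : ∀ (B' : Set W) (l : Lam), a l (ρ w) ∈ R ∩ τ ⁻¹' B' ↔ ∃ k, l = f k ∧ a k w ∈ B' := by
    intro B' l
    constructor
    · rintro ⟨h1, h2⟩
      obtain ⟨k, hk⟩ := hfR l h1
      refine ⟨k, hk, ?_⟩
      have h3 : τ (a l (ρ w)) ∈ B' := h2
      rw [hk, ← hfρ k, hτ k] at h3
      exact h3
    · rintro ⟨k, rfl, hk⟩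
      refine ⟨?_, ?_⟩
      · rw [← hfρ k]
        exact hR k
      · show τ (a (f k) (ρ w)) ∈ B'
        rw [← hfρ k, hτ k]
        exact hk
  have hz' : a 0 (ρ w) = ρ w := hS.zero _
  have hbase : ρ w ∈ R ∩ τ ⁻¹' B ↔ w ∈ B := by
    have h1 := key B 0
    rw [hz'] at h1
    rw [h1]
    constructor
    · rintro ⟨k, hk, hkB⟩
      have h2 : k = 0 := hmono.injective (by rw [← hk, hf0])
      rw [h2, hz] at hkB
      exact hkB
    · intro hwB
      exact ⟨0, hf0.symm, by rw [hz]; exact hwB⟩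
  constructor
  · rintro ⟨h1, k, ⟨hk0, hkB, hkj⟩, hkD⟩
    refine ⟨hbase.mp h1, ?_⟩
    obtain ⟨k1, hk1, hk1B⟩ := (key B (-k)).mp hkB
    obtain ⟨k2, hk2, hk2D⟩ := (key D (-k)).mp hkD
    have h12 : k2 = k1 := hmono.injective (hk2.symm.trans hk1)
    have hk1neg : k1 < 0 := by
      rw [← hmono.lt_iff_lt, hf0, ← hk1]
      exact neg_lt_zero.mpr hk0
    refine ⟨-k1, ⟨neg_pos.mpr hk1neg, by rw [neg_neg]; exact hk1B, ?_⟩, by
      rw [neg_neg, ← h12]; exact hk2D⟩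
    intro j hj0 hjk hjB
    have h3 : f (-j) < 0 := by
      rw [← hf0, hmono.lt_iff_lt]
      exact neg_lt_zero.mpr hj0
    have h4 : -k < f (-j) := by
      rw [hk1, hmono.lt_iff_lt]
      exact lt_neg.mpr hjk
    refine hkj (-f (-j)) (neg_pos.mpr h3) (neg_lt.mpr h4) ?_
    rw [neg_neg]
    exact (key B _).mpr ⟨-j, rfl, hjB⟩
  · rintro ⟨h1, k, ⟨hk0, hkB, hkj⟩, hkD⟩
    refine ⟨hbase.mpr h1, ?_⟩
    have h3 : f (-k) < 0 := by
      rw [← hf0, hmono.lt_iff_lt]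
      exact neg_lt_zero.mpr hk0
    refine ⟨-f (-k), ⟨neg_pos.mpr h3, ?_, ?_⟩, ?_⟩
    · rw [neg_neg]
      exact (key B _).mpr ⟨-k, rfl, hkB⟩
    · intro j hj0 hjk hjB
      obtain ⟨j1, hj1, hj1B⟩ := (key B (-j)).mp hjB
      have h4 : j1 < 0 := by
        rw [← hmono.lt_iff_lt, hf0, ← hj1]
        exact neg_lt_zero.mpr hj0
      have h5 : -k < j1 := by
        rw [← hmono.lt_iff_lt, ← hj1]
        exact lt_neg.mpr hjk
      refine hkj (-j1) (neg_pos.mpr h4) (neg_lt.mpr h5) ?_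
      rw [neg_neg]
      exact hj1B
    · rw [neg_neg]
      exact (key D _).mpr ⟨-k, rfl, hkD⟩

end Pool.H110K2
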