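import Pool.Agent.H110K2.Defs

set_option linter.all false

namespace Pool.H110K2
open MeasureTheory Set Filter Topology
open scoped ENNReal NNReal symmDiff


theorem emb_scale {W : Type*} [MeasurableSpace W] {m : Measure W} {a : Lam → W → W}
    {ρ τ : W → W} {R : Set W} {c : ℝ≥0∞} (hE : Emb m a ρ τ R c) (E : Set W)
    (hEm : MeasurableSet E) : m (R ∩ τ ⁻¹' E) = c⁻¹ * m E := by
  have hm : MeasurableSet (R ∩ τ ⁻¹' E) := hE.measR.inter (hE.measτ hEm)
  have h1 := hE.map _ hm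
  have h2 : (R ∩ τ ⁻¹' E) ∩ R = R ∩ τ ⁻¹' E := by
    ext w
    simp only [Set.mem_inter_iff]
    tauto
  rw [h2] at h1
  have h3 : m (ρ ⁻¹' (R ∩ τ ⁻¹' E)) = m E := by
    apply measure_congr
    filter_upwards [hE.mem, hE.left] with w hw1 hw2
    apply propext
    change (ρ w ∈ R ∧ τ (ρ w) ∈ E) ↔ w ∈ E
    rw [hw2]
    exact ⟨fun h => h.2, fun h => ⟨hw1, h⟩⟩
  rw [h3] at h1
  rw [h1, ← mul_assoc, ENNReal.inv_mul_cancel hE.c0 hE.ctop, one_mul]

end Pool.H110K2
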