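import Pool.Agent.H110K2.Defs
import Pool.Agent.H110K2.P_emb_scale

set_option linter.all false

namespace Pool.H110K2
open MeasureTheory Set Filter Topology
open scoped ENNReal NNReal symmDiff


theorem emb_code {W X : Type*} [MeasurableSpace W] [StandardBorelSpace W] [MeasurableSpace X] {m : Measure W}
    {μ : Measure X} {a : Lam → W → W} (hS : Sys m a) {ρ τ : W → W} {R : Set W} {c : ℝ≥0∞}
    (hE : Emb m a ρ τ R c) {B : Set W} {θ : W → X} (h : IsCode m μ B θ) :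
    IsCode m μ (R ∩ τ ⁻¹' B) (θ ∘ τ) := by
  have hci0 : c⁻¹ ≠ 0 := ENNReal.inv_ne_zero.2 hE.ctop
  have hcit : c⁻¹ ≠ ⊤ := ENNReal.inv_ne_top.2 hE.c0
  have hdiag : MeasurableSet {w : W | ρ (τ w) = w} := by
    letI := upgradeStandardBorel W
    have h1 : Measurable fun w : W => (ρ (τ w), w) := (hE.measρ.comp hE.measτ).prodMk measurable_id
    exact (isClosed_diagonal.measurableSet).preimage h1
  obtain ⟨N, hNm, hNB, hN0, hNinj⟩ := h.inj
  refine ⟨?_, ?_, ?_, ?_, ?_, ?_⟩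
  · exact hE.measR.inter (hE.measτ h.measB)
  · exact h.measθ.comp hE.measτ
  · rw [emb_scale hE B h.measB]
    exact mul_ne_zero hci0 h.pos
  · rw [emb_scale hE B h.measB]
    exact ENNReal.mul_ne_top hcit h.fin
  · intro E hEm
    have h1 : (R ∩ τ ⁻¹' B) ∩ (θ ∘ τ) ⁻¹' E = R ∩ τ ⁻¹' (B ∩ θ ⁻¹' E) := by
      ext w
      constructor
      · rintro ⟨⟨h1, h2⟩, h3⟩
        exact ⟨h1, h2, h3⟩
      · rintro ⟨h1, h2, h3⟩
        exact ⟨⟨h1, h2⟩, h3⟩
    rw [h1, emb_scale hE _ (h.measB.inter (h.measθ hEm)), emb_scale hE B h.measB, h.push E hEm,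
      mul_assoc]
  · refine ⟨(R ∩ τ ⁻¹' N) ∩ {w : W | ρ (τ w) = w}, ?_, ?_, ?_, ?_⟩
    · exact (hE.measR.inter (hE.measτ hNm)).inter hdiag
    · rintro w ⟨⟨h1, h2⟩, _⟩
      exact ⟨h1, hNB h2⟩
    · have hD : m ({w : W | ρ (τ w) = w}ᶜ ∩ R) = 0 := by
        have h1 := hE.map _ hdiag.compl
        have h2 : m (ρ ⁻¹' ({w : W | ρ (τ w) = w}ᶜ)) = 0 := by
          refine measure_mono_null ?_ (ae_iff.1 hE.left)
          intro w hw hw'
          apply hw
          change ρ (τ (ρ w)) = ρ w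
          rw [hw']
        rw [h2] at h1
        rcases mul_eq_zero.1 h1.symm with h3 | h3
        · exact absurd h3 hE.c0
        · exact h3
      have hN : m (R ∩ τ ⁻¹' (B \ N)) = 0 := by
        rw [emb_scale hE _ (h.measB.diff hNm), hN0, mul_zero]
      refine measure_mono_null ?_ (measure_union_null hN hD)
      rintro w ⟨⟨h1, h2⟩, h3⟩
      by_cases h4 : τ w ∈ N
      · right
        refine ⟨?_, h1⟩
        intro h5
        exact h3 ⟨⟨h1, h4⟩, h5⟩
      · left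
        exact ⟨h1, h2, h4⟩
    · rintro w ⟨⟨_, h1⟩, h2⟩ w' ⟨⟨_, h1'⟩, h2'⟩ heq
      have h3 : τ w = τ w' := hNinj h1 h1' heq
      have h4 : ρ (τ w) = w := h2
      have h5 : ρ (τ w') = w' := h2'
      rw [← h4, ← h5, h3]

end Pool.H110K2
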