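import Pool.Agent.H110K2.Defs
import Pool.Agent.H110K2.P_ae_all

set_option linter.all false

namespace Pool.H110K2
open MeasureTheory Set Filter Topology
open scoped ENNReal NNReal symmDiff


theorem null_pull {W : Type*} [MeasurableSpace W] {m : Measure W} {a : Lam → W → W}
    (hS : Sys m a) {B B' : Set W} {σ σ' : W → W} {c : ℝ≥0∞} (hG : Sig m a B B' σ σ' c)
    {Q : W → Prop} (hQ : ∀ᵐ w ∂m, Q w) :
    ∀ᵐ w ∂m, ∀ k, Q (a k w) ∧ (a k w ∈ B → ∀ l, Q (a l (σ (a k w)))) := by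
  have h1 : ∀ᵐ w ∂m, ∀ l, Q (a l w) := ae_all hS hQ
  have h2 : ∀ᵐ w ∂m, w ∈ B → ∀ l, Q (a l (σ w)) := by
    have hz : m {v | ¬ ∀ l, Q (a l v)} = 0 := h1
    set Z := toMeasurable m {v | ¬ ∀ l, Q (a l v)} with hZ
    have hZ0 : m Z = 0 := by rw [hZ, measure_toMeasurable]; exact hz
    have hZm : MeasurableSet Z := measurableSet_toMeasurable _ _
    have h3 : m (B ∩ σ ⁻¹' Z) = 0 := by
      rw [hG.scale Z hZm]
      have : m (B' ∩ Z) = 0 := measure_mono_null inter_subset_right hZ0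
      rw [this, mul_zero]
    have h4 : ∀ᵐ w ∂m, w ∉ B ∩ σ ⁻¹' Z := measure_eq_zero_iff_ae_notMem.1 h3
    filter_upwards [h4] with w hw hB
    by_contra hcon
    exact hw ⟨hB, subset_toMeasurable m _ hcon⟩
  exact ae_all hS (h1.and h2 |>.mono fun w hw => (⟨by simpa [hS.zero] using hw.1 0, hw.2⟩ : Q w ∧ (w ∈ B → ∀ l, Q (a l (σ w)))))

end Pool.H110K2
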