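import Pool.Agent.H110K2.Defs
import Pool.Agent.H110K2.P_ae_all
import Pool.Agent.H110K2.P_succ_exists
import Pool.Agent.H110K2.P_Qs_disj
import Pool.Agent.H110K2.P_null_pull

set_option linter.all false

namespace Pool.H110K2
open MeasureTheory Set Filter Topology
open scoped ENNReal NNReal symmDiff


theorem good_point {W : Type*} [MeasurableSpace W] {m : Measure W} {a : Lam → W → W}
    (hS : Sys m a) {B B' : Set W} {σ σ' : W → W} {c : ℝ≥0∞} (hG : Sig m a B B' σ σ' c)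
    {g : Lam → Lam → Lam → Lam} (hg : GapEmb g) :
    ∀ᵐ w ∂m, ∀ k, ∃ s l l', a k w ∈ Qs a B B' σ s l l' ∧ 0 ≤ s ∧ s < l ∧
      a (g l l' s) (σ (a (-s) (a k w))) ∈ Rs a B B' σ' g s l l' ∧
      a s (σ' (σ (a (-s) (a k w)))) = a k w := by
  have hQ : ∀ᵐ w ∂m,
      (∀ j, (∃ k, IsSucc a B (a j w) k) ∧ (∃ k, IsPred a B (a j w) k)) ∧
      (∀ j, (∃ k, IsSucc a B' (a j w) k) ∧ (∃ k, IsPred a B' (a j w) k)) ∧
      (w ∈ B → σ w ∈ B' ∧ σ' (σ w) = w) ∧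
      (∀ k, ∃ l, l < k ∧ a l w ∈ B) ∧
      (∀ k l, {j | k ≤ j ∧ j ≤ l ∧ a j w ∈ B}.Finite) := by
    filter_upwards [succ_exists hS hG.measB hG.posB hG.finB,
      succ_exists hS hG.measB' hG.posB' hG.finB', hG.fwd, hS.down B hG.measB hG.posB,
      hS.fin B hG.measB hG.finB] with w h1 h2 h3 h4 h5
    exact ⟨h1, h2, h3, h4, h5⟩
  filter_upwards [null_pull hS hG hQ] with w hw
  intro k
  set v := a k w with hv
  obtain ⟨⟨h1, h2, h3, h4, h5⟩, -⟩ := hw k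
  obtain ⟨l0, hl0, hl0B⟩ := h4 0
  have hfin := h5 l0 0
  have hne : {j | l0 ≤ j ∧ j ≤ 0 ∧ a j (a k w) ∈ B}.Nonempty := ⟨l0, le_refl _, le_of_lt hl0, hl0B⟩
  obtain ⟨jm, hjm, hmax⟩ := Set.exists_max_image _ id hfin hne
  obtain ⟨hj1, hj2, hj3⟩ := hjm
  have hs0 : (0 : Lam) ≤ -jm := neg_nonneg.2 hj2
  have hsB : a (-(-jm)) v ∈ B := by
    rw [neg_neg]
    exact hj3
  have hflr : Flr a B v (-jm) := by
    refine ⟨hs0, hsB, ?_⟩
    intro j hj0 hj hjB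
    have hlt : jm < -j := by
      have := neg_lt_neg hj
      rwa [neg_neg] at this
    have hmem : -j ∈ {j | l0 ≤ j ∧ j ≤ 0 ∧ a j (a k w) ∈ B} :=
      ⟨le_trans hj1 (le_of_lt hlt), neg_nonpos.2 hj0, hjB⟩
    have := hmax _ hmem
    exact absurd hlt (not_lt.2 this)
  obtain ⟨l, hl⟩ := (h1 (-(-jm))).1
  have hb : a (-(-jm)) v = a (-(-jm) + k) w := by
    rw [hS.add]
  obtain ⟨⟨-, -, g3, -, -⟩, gl⟩ := hw (-(-jm) + k)
  rw [← hb] at g3 gl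
  obtain ⟨g4, g5⟩ := g3 hsB
  obtain ⟨-, f2, -, -, -⟩ := gl hsB 0
  obtain ⟨l', hl'⟩ := (f2 0).1
  rw [hS.zero, hS.zero] at hl'
  have hQs : v ∈ Qs a B B' σ (-jm) l l' := ⟨hflr, hl, hl'⟩
  have hd := Qs_disj hS v (-jm) l l' (-jm) l l' hQs hQs
  have hcan : a (-(g l l' (-jm))) (a (g l l' (-jm)) (σ (a (-(-jm)) v))) = σ (a (-(-jm)) v) := by
    rw [← hS.add, neg_add_cancel, hS.zero]
  refine ⟨-jm, l, l', hQs, hd.2.2.2.1, hd.2.2.2.2, ?_, ?_⟩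
  · refine ⟨hd.2.2.2.1, hd.2.2.2.2, ?_, ?_, ?_⟩
    · rw [hcan]
      exact g4
    · rw [hcan, g5]
      exact hl
    · rw [hcan]
      exact hl'
  · rw [g5, ← hS.add, add_neg_cancel, hS.zero]

end Pool.H110K2
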