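import Pool.Agent.H110K2.Defs
import Pool.Agent.H110K2.P_lam_countable
import Pool.Agent.H110K2.P_succ_unique
import Pool.Agent.H110K2.P_Qs_disj

set_option linter.all false

namespace Pool.H110K2
open MeasureTheory Set Filter Topology
open scoped ENNReal NNReal symmDiff


theorem piece_mass_succ_meas {W : Type*} [MeasurableSpace W] {m : Measure W} {a : Lam → W → W}
    (hS : Sys m a) {B : Set W} (hB : MeasurableSet B) (l : Lam) :
    MeasurableSet {w | IsSucc a B w l} := by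
  haveI := lam_countable
  have h1 : {w | IsSucc a B w l} = {w | 0 < l} ∩ ((a l) ⁻¹' B ∩
      ⋂ j : Lam, ⋂ _ : 0 < j, ⋂ _ : j < l, ((a j) ⁻¹' B)ᶜ) := by
    ext w
    simp only [IsSucc, Set.mem_setOf_eq, Set.mem_inter_iff, Set.mem_preimage, Set.mem_iInter,
      Set.mem_compl_iff]
  rw [h1]
  refine (MeasurableSet.const _).inter ((hS.meas l hB).inter ?_)
  refine MeasurableSet.iInter fun j => MeasurableSet.iInter fun _ => MeasurableSet.iInter fun _ => ?_
  exact (hS.meas j hB).compl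

theorem piece_mass {W : Type*} [MeasurableSpace W] {m : Measure W} {a : Lam → W → W}
    (hS : Sys m a) {B B' : Set W} {σ σ' : W → W} {c : ℝ≥0∞} (hG : Sig m a B B' σ σ' c)
    {g : Lam → Lam → Lam → Lam} (hg : GapEmb g) (s l l' : Lam) (E : Set W)
    (hE : MeasurableSet E) :
    m (Qs a B B' σ s l l' ∩ {w | a (g l l' s) (σ (a (-s) w)) ∈ E}) =
      c * m (Rs a B B' σ' g s l l' ∩ E) := by
  by_cases hsl : 0 ≤ s ∧ s < l
  · obtain ⟨hs0, hsl⟩ := hsl
    obtain ⟨γ, hγ⟩ : ∃ γ : Lam, γ = g l l' s := ⟨_, rfl⟩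
    rw [← hγ]
    obtain ⟨G, hGdef⟩ : ∃ G : Set W, G = {b | b ∈ B ∧ IsSucc a B b l ∧ IsSucc a B' (σ b) l' ∧
      a γ (σ b) ∈ E} := ⟨_, rfl⟩
    obtain ⟨M, hMdef⟩ : ∃ M : Set W, M = {b | IsSucc a B (σ' b) l ∧ IsSucc a B' b l' ∧
      a γ b ∈ E} := ⟨_, rfl⟩
    have hM : MeasurableSet M := by
      rw [hMdef]
      exact (hG.measσ' (piece_mass_succ_meas hS hG.measB l)).inter
        ((piece_mass_succ_meas hS hG.measB' l').inter (hS.meas γ hE))
    have hGm : MeasurableSet G := by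
      rw [hGdef]
      exact hG.measB.inter ((piece_mass_succ_meas hS hG.measB l).inter
        ((hG.measσ (piece_mass_succ_meas hS hG.measB' l')).inter
          (hG.measσ (hS.meas γ hE))))
    have hL : Qs a B B' σ s l l' ∩ {w | a γ (σ (a (-s) w)) ∈ E} = (a (-s)) ⁻¹' G := by
      rw [hGdef]
      ext w
      constructor
      · rintro ⟨⟨h1, h2, h3⟩, h4⟩
        exact ⟨h1.2.1, h2, h3, h4⟩
      · rintro ⟨h1, h2, h3, h4⟩
        refine ⟨⟨⟨hs0, h1, ?_⟩, h2, h3⟩, h4⟩
        intro j hj0 hjs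
        have h5 := h2.2.2 (s - j) (sub_pos.mpr hjs) (lt_of_le_of_lt (sub_le_self s hj0) hsl)
        rw [← hS.add] at h5
        have h6 : s - j + -s = -j := by abel
        rwa [h6] at h5
    have hR : Rs a B B' σ' g s l l' ∩ E = (a (-γ)) ⁻¹' (B' ∩ M) := by
      rw [hMdef]
      have hback : ∀ w, a γ (a (-γ) w) = w := by
        intro w
        rw [← hS.add, add_neg_cancel, hS.zero]
      ext w
      constructor
      · rintro ⟨⟨h1, h2, h3, h4, h5⟩, h6⟩
        rw [← hγ] at h3 h4 h5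
        refine ⟨h3, h4, h5, ?_⟩
        show a γ (a (-γ) w) ∈ E
        rw [hback]
        exact h6
      · rintro ⟨h3, h4, h5, h6⟩
        have h6' : a γ (a (-γ) w) ∈ E := h6
        rw [hback] at h6'
        refine ⟨⟨hs0, hsl, ?_⟩, h6'⟩
        rw [← hγ]
        exact ⟨h3, h4, h5⟩
    rw [hL, hR, (hS.mp (-s)).measure_preimage hGm.nullMeasurableSet,
      (hS.mp (-γ)).measure_preimage (hG.measB'.inter hM).nullMeasurableSet,
      ← hG.scale M hM]
    apply measure_congr
    have h1 := hG.fwd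
    filter_upwards [h1] with b hb
    apply propext
    rw [hGdef, hMdef]
    constructor
    · rintro ⟨h2, h3, h4, h5⟩
      obtain ⟨hb1, hb2⟩ := hb h2
      refine ⟨h2, ?_, h4, h5⟩
      show IsSucc a B (σ' (σ b)) l
      rw [hb2]
      exact h3
    · rintro ⟨h2, h3, h4, h5⟩
      obtain ⟨hb1, hb2⟩ := hb h2
      have h3' : IsSucc a B (σ' (σ b)) l := h3
      rw [hb2] at h3'
      exact ⟨h2, h3', h4, h5⟩
  · have hQ : Qs a B B' σ s l l' = ∅ := by
      rw [Set.eq_empty_iff_forall_notMem]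
      intro w hw
      exact hsl (Qs_disj hS w s l l' s l l' hw hw).2.2.2
    have hR : Rs a B B' σ' g s l l' = ∅ := by
      rw [Set.eq_empty_iff_forall_notMem]
      intro w hw
      exact hsl ⟨hw.1, hw.2.1⟩
    rw [hQ, hR, Set.empty_inter, Set.empty_inter, measure_empty, mul_zero]

end Pool.H110K2
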