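import Pool.Agent.H110K2.Defs
import Pool.Agent.H110K2.P_lam_countable
import Pool.Agent.H110K2.P_Qs_disj
import Pool.Agent.H110K2.P_Rs_disj
import Pool.Agent.H110K2.P_QR_meas
import Pool.Agent.H110K2.P_good_point
import Pool.Agent.H110K2.P_piece_mass

set_option linter.all false

namespace Pool.H110K2
open MeasureTheory Set Filter Topology
open scoped ENNReal NNReal symmDiff


theorem emb_map {W : Type*} [MeasurableSpace W] {m : Measure W} {a : Lam → W → W}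
    (hS : Sys m a) {B B' : Set W} {σ σ' : W → W} {c : ℝ≥0∞} (hG : Sig m a B B' σ σ' c)
    {g : Lam → Lam → Lam → Lam} (hg : GapEmb g) {ρ : W → W} (hρ : Measurable ρ)
    (hs : RhoSpec a B B' σ g ρ) (E : Set W) (hE : MeasurableSet E) :
    m (ρ ⁻¹' E) = c * m (E ∩ {w | ∃ s l l', w ∈ Rs a B B' σ' g s l l'}) := by
  haveI : Countable Lam := lam_countable
  have hmQ : ∀ i : Lam × Lam × Lam, MeasurableSet (Qs a B B' σ i.1 i.2.1 i.2.2) := fun i =>
    (QR_meas hS hG.measB hG.measB' hG.measσ hG.measσ' g i.1 i.2.1 i.2.2).1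
  have hmR : ∀ i : Lam × Lam × Lam, MeasurableSet (Rs a B B' σ' g i.1 i.2.1 i.2.2) := fun i =>
    (QR_meas hS hG.measB hG.measB' hG.measσ hG.measσ' g i.1 i.2.1 i.2.2).2
  have h1 : m (ρ ⁻¹' E) = m (⋃ i : Lam × Lam × Lam, (Qs a B B' σ i.1 i.2.1 i.2.2 ∩ ρ ⁻¹' E)) := by
    apply measure_congr
    filter_upwards [good_point hS hG hg] with w hw
    obtain ⟨s, l, l', h, _⟩ := hw 0
    rw [hS.zero] at h
    apply propext
    constructor
    · intro hwE
      exact mem_iUnion.2 ⟨(s, l, l'), h, hwE⟩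
    · intro hwE
      obtain ⟨i, hi⟩ := mem_iUnion.1 hwE
      exact hi.2
  have hdQ : Pairwise (Function.onFun Disjoint
      (fun i : Lam × Lam × Lam => (Qs a B B' σ i.1 i.2.1 i.2.2 ∩ ρ ⁻¹' E))) := by
    intro i j hij
    refine Set.disjoint_left.2 fun w hi hj => hij ?_
    obtain ⟨e1, e2, e3, _⟩ := Qs_disj hS w _ _ _ _ _ _ hi.1 hj.1
    exact Prod.ext e1 (Prod.ext e2 e3)
  have hdR : Pairwise (Function.onFun Disjoint
      (fun i : Lam × Lam × Lam => (Rs a B B' σ' g i.1 i.2.1 i.2.2 ∩ E))) := by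
    intro i j hij
    refine Set.disjoint_left.2 fun w hi hj => hij ?_
    obtain ⟨e1, e2, e3, _⟩ := Rs_disj hS hg w _ _ _ _ _ _ hi.1 hj.1
    exact Prod.ext e1 (Prod.ext e2 e3)
  have h2 : ∀ i : Lam × Lam × Lam, m (Qs a B B' σ i.1 i.2.1 i.2.2 ∩ ρ ⁻¹' E) =
      c * m (Rs a B B' σ' g i.1 i.2.1 i.2.2 ∩ E) := by
    intro i
    rw [← piece_mass hS hG hg i.1 i.2.1 i.2.2 E hE]
    congr 1
    ext w
    constructor
    · rintro ⟨h, h'⟩
      refine ⟨h, ?_⟩
      have h'' : ρ w ∈ E := h'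
      rw [hs _ _ _ w h] at h''
      exact h''
    · rintro ⟨h, h'⟩
      refine ⟨h, ?_⟩
      have h'' : a (g i.2.1 i.2.2 i.1) (σ (a (-i.1) w)) ∈ E := h'
      rw [← hs _ _ _ w h] at h''
      exact h''
  have h3 : (E ∩ {w | ∃ s l l', w ∈ Rs a B B' σ' g s l l'}) =
      ⋃ i : Lam × Lam × Lam, (Rs a B B' σ' g i.1 i.2.1 i.2.2 ∩ E) := by
    ext w
    constructor
    · rintro ⟨h, s, l, l', h'⟩
      exact mem_iUnion.2 ⟨(s, l, l'), h', h⟩
    · intro h
      obtain ⟨i, hi⟩ := mem_iUnion.1 h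
      exact ⟨hi.2, i.1, i.2.1, i.2.2, hi.1⟩
  rw [h1, measure_iUnion hdQ (fun i => (hmQ i).inter (hρ hE)), h3,
    measure_iUnion hdR (fun i => (hmR i).inter hE), ← ENNReal.tsum_mul_left]
  exact tsum_congr h2

end Pool.H110K2
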