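import Pool.Agent.H110K2.Defs
import Pool.Agent.H110K2.P_ae_all
import Pool.Agent.H110K2.P_succ_unique
import Pool.Agent.H110K2.P_good_point

set_option linter.all false

namespace Pool.H110K2
open MeasureTheory Set Filter Topology
open scoped ENNReal NNReal symmDiff


theorem emb_orb {W : Type*} [MeasurableSpace W] {m : Measure W} {a : Lam → W → W}
    (hS : Sys m a) {B B' : Set W} {σ σ' : W → W} {c : ℝ≥0∞} (hG : Sig m a B B' σ σ' c)
    {g : Lam → Lam → Lam → Lam} (hg : GapEmb g) {ρ : W → W} (hρ : Measurable ρ)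
    (hs : RhoSpec a B B' σ g ρ) :
    ∀ᵐ w ∂m, ∀ l, (∃ s u u', a l (ρ w) ∈ Rs a B B' σ' g s u u') →
      ∃ k, a l (ρ w) = ρ (a k w) := by
  filter_upwards [good_point hS hG hg, ae_all hS hG.orb, ae_all hS hG.fwd] with w hw1 hw2 hw3
  intro l hl
  obtain ⟨s, u, u', h0s, hsu, hb'B, hsuc, hsuc'⟩ := hl
  obtain ⟨s0, l0, l0', hQ, h0s0, hs0l0, -, -⟩ := hw1 0
  rw [hS.zero] at hQ
  have hρw := hs s0 l0 l0' w hQ
  have hbB : a (-s0) w ∈ B := hQ.1.2.1
  have hb'eq : a (-(g u u' s)) (a l (ρ w)) =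
      a (-(g u u' s) + (l + g l0 l0' s0)) (σ (a (-s0) w)) := by
    rw [hρw, ← hS.add, ← hS.add, add_assoc]
  have hb'B2 := hb'B
  rw [hb'eq] at hb'B2
  obtain ⟨K, hKB, hK⟩ := hw2 (-s0) hbB _ hb'B2
  rw [← hb'eq] at hK
  have hKw : a K (a (-s0) w) = a (K + -s0) w := (hS.add _ _ _).symm
  have hfw := (hw3 (K + -s0) (by rw [← hKw]; exact hKB)).2
  rw [← hKw, hK] at hfw
  -- hfw : σ' b' = a K (a (-s0) w)
  have hv : a (s + (K + -s0)) w = a s (a K (a (-s0) w)) := by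
    rw [hS.add, hKw]
  have hback : a (-s) (a (s + (K + -s0)) w) = a K (a (-s0) w) := by
    rw [hv, ← hS.add, neg_add_cancel, hS.zero]
  refine ⟨s + (K + -s0), ?_⟩
  have hvQ : a (s + (K + -s0)) w ∈ Qs a B B' σ s u u' := by
    refine ⟨⟨h0s, ?_, ?_⟩, ?_, ?_⟩
    · rw [hback]; exact hKB
    · intro j hj0 hjs
      have h1 : a (-j) (a (s + (K + -s0)) w) = a (s - j) (a K (a (-s0) w)) := by
        rw [hv, ← hS.add (-j) s, sub_eq_neg_add]
      rw [h1, ← hfw]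
      exact hsuc.2.2 (s - j) (sub_pos.2 hjs) (lt_of_le_of_lt (sub_le_self s hj0) hsu)
    · rw [hback, ← hfw]; exact hsuc
    · rw [hback, hK]; exact hsuc'
  have hρv := hs s u u' _ hvQ
  rw [hρv, hback, hK, ← hS.add, add_neg_cancel, hS.zero]

end Pool.H110K2
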