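import Pool.Agent.H110K2.Defs
import Pool.Agent.H110K2.P_ae_all
import Pool.Agent.H110K2.P_succ_unique
import Pool.Agent.H110K2.P_Qs_disj
import Pool.Agent.H110K2.P_good_point

set_option linter.all false

namespace Pool.H110K2
open MeasureTheory Set Filter Topology
open scoped ENNReal NNReal symmDiff


theorem emb_ord {W : Type*} [MeasurableSpace W] {m : Measure W} {a : Lam → W → W}
    (hS : Sys m a) {B B' : Set W} {σ σ' : W → W} {c : ℝ≥0∞} (hG : Sig m a B B' σ σ' c)
    {g : Lam → Lam → Lam → Lam} (hg : GapEmb g) {ρ : W → W} (hρ : Measurable ρ)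
    (hs : RhoSpec a B B' σ g ρ) :
    ∀ᵐ w ∂m, ∀ k, 0 < k → ∃ l, 0 < l ∧ ρ (a k w) = a l (ρ w) := by
  filter_upwards [good_point hS hG hg, ae_all hS hG.ord, ae_all hS hG.fwd] with w hgood hord hfwd
  intro k hk
  obtain ⟨s, l, l', hQ, hs0, hsl, -, -⟩ := hgood 0
  obtain ⟨t, u, u', hQ2, ht0, htu, -, -⟩ := hgood k
  rw [hS.zero] at hQ
  have hρ1 := hs s l l' w hQ
  have hρ2 := hs t u u' (a k w) hQ2
  obtain ⟨⟨_, hbB, _⟩, hsucc, hsucc'⟩ := hQ
  obtain ⟨⟨_, hbB2, _⟩, hsucc2, hsucc2'⟩ := hQ2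
  have hordb := hord (-s)
  have hfwdb := hfwd (-s)
  have hb2 : a (-t) (a k w) = a (-t + k + s) (a (-s) w) := by
    rw [← hS.add, ← hS.add]; congr 1; abel
  have hfwd2 := hfwd (-t + k)
  have hb2' : a (-t) (a k w) = a (-t + k) w := by rw [← hS.add]
  rw [← hb2'] at hfwd2
  rw [hb2] at hρ2 hbB2 hsucc2 hsucc2' hfwd2
  generalize a (-s) w = b at *
  generalize hK : -t + k + s = K at *
  have hl0 : 0 < l := hsucc.1
  have hl0' : 0 < l' := hsucc'.1
  have hu0 : 0 < u := hsucc2.1
  have hu0' : 0 < u' := hsucc2'.1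
  rcases lt_trichotomy K 0 with h | h | h
  · exfalso
    have hK0 : 0 < -K := neg_pos.2 h
    have hback : a (-K) (a K b) = b := by
      rw [← hS.add]
      have : -K + K = 0 := by abel
      rw [this, hS.zero]
    have h1 : ¬ (-K < u) := by
      intro h2
      exact hsucc2.2.2 (-K) hK0 h2 (by rw [hback]; exact hbB)
    have h2 : t < -K := lt_of_lt_of_le htu (not_lt.1 h1)
    have h3 : -K = t + -(k + s) := by rw [← hK]; abel
    rw [h3] at h2
    have h4 : 0 < k + s := add_pos_of_pos_of_nonneg hk hs0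
    have h5 : t + -(k + s) < t := by
      have := add_lt_add_right (neg_neg_of_pos h4) t
      simpa using this
    exact lt_asymm h2 h5
  · subst h
    rw [hS.zero] at hρ2 hbB2 hsucc2 hsucc2'
    have e1 : l = u := (succ_unique hS b).1 l u hsucc hsucc2
    have e2 : l' = u' := (succ_unique hS (σ b)).1 l' u' hsucc' hsucc2'
    subst e1 e2
    have ht : t = k + s := by
      have : -t + k + s + t = t := by rw [hK]; abel
      rw [← this]; abel
    have hst : s < t := by
      rw [ht]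
      exact lt_add_of_pos_left s hk
    have hm := hg.mono l l' hl0 hl0' s t hs0 hst htu
    refine ⟨g l l' t - g l l' s, sub_pos.2 hm, ?_⟩
    rw [hρ1, hρ2, ← hS.add]
    congr 1
    abel
  · obtain ⟨L, hL0, hL⟩ := hordb hbB K h hbB2
    have hB' : a L (σ b) ∈ B' := by
      rw [← hL]
      exact (hfwd2 hbB2).1
    have hLl : l' ≤ L := by
      by_contra hcon
      exact hsucc'.2.2 L hL0 (not_le.1 hcon) hB'
    have hgl := hg.lt l l' hl0 hl0' s hs0 hsl
    have hg0 : 0 ≤ g u u' t := by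
      rcases ht0.eq_or_lt with h0 | h0
      · rw [← h0, hg.zero u u' hu0 hu0']
      · have := hg.mono u u' hu0 hu0' 0 t le_rfl h0 htu
        rw [hg.zero u u' hu0 hu0'] at this
        exact this.le
    refine ⟨g u u' t + (L - g l l' s),
      add_pos_of_nonneg_of_pos hg0 (sub_pos.2 (lt_of_lt_of_le hgl hLl)), ?_⟩
    rw [hρ1, hρ2, hL, ← hS.add, ← hS.add]
    congr 1
    abel

end Pool.H110K2
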