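import Pool.Agent.H110K2.Defs
import Pool.Agent.H110K2.P_lam_countable

set_option linter.all false

namespace Pool.H110K2
open MeasureTheory Set Filter Topology
open scoped ENNReal NNReal symmDiff


theorem gap_exists : ∃ g : Lam → Lam → Lam → Lam, GapEmb g := by
  classical
  haveI : Countable Lam := lam_countable
  have key : ∀ l' : Lam, 0 < l' → Nonempty (Lam ↪o Set.Ioo (0 : Lam) l') := by
    intro l' hl'
    haveI : Nontrivial (Set.Ioo (0 : Lam) l') := by
      obtain ⟨x, hx0, hx1⟩ := exists_between hl'
      obtain ⟨y, hy0, hy1⟩ := exists_between hx0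
      exact ⟨⟨⟨x, hx0, hx1⟩, ⟨y, hy0, hy1.trans hx1⟩, fun h => by
        have : x = y := congrArg Subtype.val h
        exact absurd this (ne_of_gt hy1)⟩⟩
    exact Order.embedding_from_countable_to_dense _ _
  let g : Lam → Lam → Lam → Lam := fun _ l' s =>
    if h : 0 < l' then (if 0 < s then ((Classical.choice (key l' h)) s : Lam) else 0) else 0
  refine ⟨g, ?_, ?_, ?_⟩
  · intro l l' hl hl'
    simp [g]
  · intro l l' hl hl' s t hs hst htl
    have ht : 0 < t := lt_of_le_of_lt hs hst
    have e1 : g l l' t = ((Classical.choice (key l' hl')) t : Lam) := by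
      simp only [g, dif_pos hl', if_pos ht]
    rcases hs.eq_or_lt with h0 | h0
    · have e2 : g l l' s = 0 := by
        simp only [g, dif_pos hl', ← h0, lt_irrefl, if_false]
      rw [e1, e2]
      exact ((Classical.choice (key l' hl')) t).2.1
    · have e2 : g l l' s = ((Classical.choice (key l' hl')) s : Lam) := by
        simp only [g, dif_pos hl', if_pos h0]
      rw [e1, e2]
      exact (Classical.choice (key l' hl')).strictMono hst
  · intro l l' hl hl' s hs hsl
    rcases hs.eq_or_lt with h0 | h0
    · have e2 : g l l' s = 0 := by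
        simp only [g, dif_pos hl', ← h0, lt_irrefl, if_false]
      rw [e2]
      exact hl'
    · have e2 : g l l' s = ((Classical.choice (key l' hl')) s : Lam) := by
        simp only [g, dif_pos hl', if_pos h0]
      rw [e2]
      exact ((Classical.choice (key l' hl')) s).2.2

end Pool.H110K2
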