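import Pool.Agent.H110K2.Defs
import Pool.Agent.H110K2.P_lam_countable
import Pool.Agent.H110K2.P_Qs_disj
import Pool.Agent.H110K2.P_QR_meas

set_option linter.all false

namespace Pool.H110K2
open MeasureTheory Set Filter Topology
open scoped ENNReal NNReal symmDiff


theorem rho_exists {W : Type*} [MeasurableSpace W] {m : Measure W} {a : Lam → W → W}
    (hS : Sys m a) {B B' : Set W} {σ : W → W} (hB : MeasurableSet B)
    (hB' : MeasurableSet B') (hσ : Measurable σ) (g : Lam → Lam → Lam → Lam) :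
    ∃ ρ : W → W, Measurable ρ ∧ RhoSpec a B B' σ g ρ := by
  haveI := lam_countable
  obtain ⟨ρ, hρ, hρ2⟩ := exists_measurable_piecewise
    (fun i : Lam × Lam × Lam => Qs a B B' σ i.1 i.2.1 i.2.2)
    (fun i => (QR_meas hS hB hB' hσ hσ g i.1 i.2.1 i.2.2).1)
    (fun (i : Lam × Lam × Lam) (w : W) => a (g i.2.1 i.2.2 i.1) (σ (a (-i.1) w)))
    (fun i => (hS.meas _).comp (hσ.comp (hS.meas _)))
    (by
      intro i j hij w hw
      exfalso
      obtain ⟨h1, h2, h3, -, -⟩ := Qs_disj hS w i.1 i.2.1 i.2.2 j.1 j.2.1 j.2.2 hw.1 hw.2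
      exact hij (Prod.ext h1 (Prod.ext h2 h3)))
  refine ⟨ρ, hρ, ?_⟩
  intro s l l' w hw
  exact hρ2 (s, l, l') hw

end Pool.H110K2
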