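import Pool.Agent.H110K2.Defs
import Pool.Agent.H110K2.P_lam_countable
import Pool.Agent.H110K2.P_Rs_disj
import Pool.Agent.H110K2.P_QR_meas

set_option linter.all false

namespace Pool.H110K2
open MeasureTheory Set Filter Topology
open scoped ENNReal NNReal symmDiff


theorem tau_exists {W : Type*} [MeasurableSpace W] {m : Measure W} {a : Lam → W → W}
    (hS : Sys m a) {B B' : Set W} {σ' : W → W} (hB : MeasurableSet B)
    (hB' : MeasurableSet B') (hσ' : Measurable σ') (g : Lam → Lam → Lam → Lam)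
    (hg : GapEmb g) :
    ∃ τ : W → W, Measurable τ ∧ TauSpec a B B' σ' g τ := by
  classical
  haveI : Countable Lam := lam_countable
  let R : Lam × Lam × Lam → Set W := fun i => Rs a B B' σ' g i.1 i.2.1 i.2.2
  let F : Lam × Lam × Lam → W → W := fun i w => a i.1 (σ' (a (-(g i.2.1 i.2.2 i.1)) w))
  have hR : ∀ i, MeasurableSet (R i) := fun i =>
    (QR_meas hS hB hB' measurable_id hσ' g i.1 i.2.1 i.2.2).2
  have hF : ∀ i, Measurable (F i) := fun i => (hS.meas _).comp (hσ'.comp (hS.meas _))
  have hdis : ∀ i j w, w ∈ R i → w ∈ R j → i = j := by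
    rintro ⟨s, l, l'⟩ ⟨t, k, k'⟩ w h1 h2
    obtain ⟨e1, e2, e3, -⟩ := Rs_disj hS hg w s l l' t k k' h1 h2
    rw [e1, e2, e3]
  let τ : W → W := fun w => if h : ∃ i, w ∈ R i then F h.choose w else w
  have hτ : ∀ i w, w ∈ R i → τ w = F i w := by
    intro i w hw
    have h : ∃ i, w ∈ R i := ⟨i, hw⟩
    have e : h.choose = i := hdis _ _ w h.choose_spec hw
    show (if h : ∃ i, w ∈ R i then F h.choose w else w) = _
    rw [dif_pos h, e]
  have hτ' : ∀ w, (∀ i, w ∉ R i) → τ w = w := by
    intro w hw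
    show (if h : ∃ i, w ∈ R i then F h.choose w else w) = _
    rw [dif_neg (by push_neg; exact hw)]
  refine ⟨τ, ?_, ?_⟩
  · intro E hE
    have : τ ⁻¹' E = (⋃ i, R i ∩ F i ⁻¹' E) ∪ ((⋃ i, R i)ᶜ ∩ E) := by
      ext w
      simp only [Set.mem_preimage, Set.mem_union, Set.mem_iUnion, Set.mem_inter_iff,
        Set.mem_compl_iff, not_exists]
      constructor
      · intro hw
        by_cases h : ∃ i, w ∈ R i
        · obtain ⟨i, hi⟩ := h
          left
          refine ⟨i, hi, ?_⟩
          rw [← hτ i w hi]; exact hw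
        · push_neg at h
          right
          refine ⟨h, ?_⟩
          rw [hτ' w h] at hw; exact hw
      · rintro (⟨i, hi, hE'⟩ | ⟨h, hE'⟩)
        · rw [hτ i w hi]; exact hE'
        · rw [hτ' w h]; exact hE'
    rw [this]
    exact (MeasurableSet.iUnion fun i => (hR i).inter (hF i hE)).union
      ((MeasurableSet.iUnion hR).compl.inter hE)
  · intro s l l' w hw
    exact hτ (s, l, l') w hw

end Pool.H110K2
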