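import Pool.Agent.H110K2.Defs
import Pool.Agent.H110K2.P_lam_countable
import Pool.Agent.H110K2.P_ae_all
import Pool.Agent.H110K2.P_succ_exists
import Pool.Agent.H110K2.P_gap_exists
import Pool.Agent.H110K2.P_QR_meas
import Pool.Agent.H110K2.P_rho_exists
import Pool.Agent.H110K2.P_tau_exists
import Pool.Agent.H110K2.P_good_point
import Pool.Agent.H110K2.P_emb_map
import Pool.Agent.H110K2.P_emb_ord
import Pool.Agent.H110K2.P_emb_orb

set_option linter.all false

namespace Pool.H110K2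
open MeasureTheory Set Filter Topology
open scoped ENNReal NNReal symmDiff


theorem emb_exists_aux1 {W : Type*} [MeasurableSpace W] {m : Measure W} {a : Lam → W → W}
    (hS : Sys m a) {B B' : Set W} {σ σ' : W → W} {c : ℝ≥0∞} (hG : Sig m a B B' σ σ' c) :
    ∀ᵐ w ∂m, w ∈ B' → ∃ k, IsSucc a B (σ' w) k := by
  have h1 : ∀ᵐ v ∂m, ∃ k, IsSucc a B v k := by
    filter_upwards [succ_exists hS hG.measB hG.posB hG.finB] with v hv
    have := (hv 0).1
    rwa [hS.zero] at this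
  have hZ : m {v | ¬ ∃ k, IsSucc a B v k} = 0 := by
    rw [ae_iff] at h1
    exact h1
  set N := toMeasurable m {v | ¬ ∃ k, IsSucc a B v k} with hN
  have hNm : MeasurableSet N := measurableSet_toMeasurable _ _
  have hN0 : m N = 0 := by rw [hN, measure_toMeasurable, hZ]
  have hsub : {v | ¬ ∃ k, IsSucc a B v k} ⊆ N := subset_toMeasurable _ _
  have h2 := hG.scale (σ' ⁻¹' N) (hG.measσ' hNm)
  have h3 : m (B ∩ σ ⁻¹' (σ' ⁻¹' N)) = 0 := by
    have h4 : ∀ᵐ w ∂m, w ∉ N := by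
      rw [ae_iff]
      simpa using hN0
    have h5 : ∀ᵐ w ∂m, w ∉ B ∩ σ ⁻¹' (σ' ⁻¹' N) := by
      filter_upwards [h4, hG.fwd] with w hw1 hw2 hw3
      obtain ⟨hb, hn⟩ := hw3
      have := (hw2 hb).2
      simp only [mem_preimage] at hn
      rw [this] at hn
      exact hw1 hn
    exact measure_eq_zero_iff_ae_notMem.2 h5
  rw [h3] at h2
  have h6 : m (B' ∩ σ' ⁻¹' N) = 0 := by
    rcases mul_eq_zero.1 h2.symm with h | h
    · exact absurd h hG.c0
    · exact h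
  have h7 : ∀ᵐ w ∂m, w ∉ B' ∩ σ' ⁻¹' N := measure_eq_zero_iff_ae_notMem.1 h6
  filter_upwards [h7] with w hw hB'
  by_contra hcon
  exact hw ⟨hB', hsub hcon⟩

theorem emb_exists {W : Type*} [MeasurableSpace W] {m : Measure W} {a : Lam → W → W}
    (hS : Sys m a) {B B' : Set W} {σ σ' : W → W} {c : ℝ≥0∞} (hG : Sig m a B B' σ σ' c) :
    ∃ (ρ τ : W → W) (R : Set W), Emb m a ρ τ R c ∧
      (∀ᵐ w ∂m, (w ∈ R ∧ τ w ∈ B) ↔ w ∈ B') ∧ (∀ᵐ w ∂m, w ∈ B' → τ w = σ' w) := by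
  obtain ⟨g, hg⟩ := gap_exists
  obtain ⟨ρ, hρ, hsρ⟩ := rho_exists hS hG.measB hG.measB' hG.measσ g
  obtain ⟨τ, hτ, hsτ⟩ := tau_exists hS hG.measB hG.measB' hG.measσ' g hg
  have hcnt : Countable Lam := lam_countable
  have hRm : MeasurableSet {w | ∃ s l l', w ∈ Rs a B B' σ' g s l l'} := by
    have : {w | ∃ s l l', w ∈ Rs a B B' σ' g s l l'} =
        ⋃ s, ⋃ l, ⋃ l', Rs a B B' σ' g s l l' := by
      ext w
      simp
    rw [this]
    exact MeasurableSet.iUnion fun s => MeasurableSet.iUnion fun l => MeasurableSet.iUnion fun l' =>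
      (QR_meas hS hG.measB hG.measB' hG.measσ hG.measσ' g s l l').2
  have hcancel : ∀ (k : Lam) (w : W), a (-k) (a k w) = w := by
    intro k w
    rw [← hS.add, neg_add_cancel, hS.zero]
  have hgp : ∀ᵐ w ∂m, ρ w ∈ {w | ∃ s l l', w ∈ Rs a B B' σ' g s l l'} ∧ τ (ρ w) = w := by
    filter_upwards [good_point hS hG hg] with w hw
    obtain ⟨s, l, l', hQ, h0, hl, hR, hback⟩ := hw 0
    rw [hS.zero] at hQ hR hback
    have e1 : ρ w = a (g l l' s) (σ (a (-s) w)) := hsρ s l l' w hQ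
    rw [← e1] at hR
    refine ⟨⟨s, l, l', hR⟩, ?_⟩
    rw [hsτ s l l' _ hR, e1, hcancel, hback]
  have hB0 : ∀ᵐ w ∂m, w ∈ B' → ∃ l l', w ∈ Rs a B B' σ' g 0 l l' ∧ τ w = σ' w := by
    filter_upwards [emb_exists_aux1 hS hG, succ_exists hS hG.measB' hG.posB' hG.finB'] with w h1 h2 hw
    obtain ⟨l, hl⟩ := h1 hw
    obtain ⟨l', hl'⟩ := (h2 0).1
    rw [hS.zero] at hl'
    have hz : a (-(g l l' 0)) w = w := by
      rw [hg.zero l l' hl.1 hl'.1, neg_zero, hS.zero]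
    have hmem : w ∈ Rs a B B' σ' g 0 l l' := by
      refine ⟨le_refl _, hl.1, ?_, ?_, ?_⟩
      · rw [hz]; exact hw
      · rw [hz]; exact hl
      · rw [hz]; exact hl'
    refine ⟨l, l', hmem, ?_⟩
    rw [hsτ 0 l l' w hmem, hz, hS.zero]
  refine ⟨ρ, τ, {w | ∃ s l l', w ∈ Rs a B B' σ' g s l l'}, ?_, ?_, ?_⟩
  · exact
      { measρ := hρ
        measτ := hτ
        measR := hRm
        c0 := hG.c0
        ctop := hG.ctop
        mem := hgp.mono fun w hw => hw.1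
        left := hgp.mono fun w hw => hw.2
        map := fun E hE => emb_map hS hG hg hρ hsρ E hE
        order := emb_ord hS hG hg hρ hsρ
        orbit := emb_orb hS hG hg hρ hsρ }
  · filter_upwards [hB0, hG.bwd] with w h1 h2
    constructor
    · rintro ⟨⟨s, l, l', hR⟩, hτB⟩
      rw [hsτ s l l' w hR] at hτB
      obtain ⟨h0, hsl, hb, hsu, hsu'⟩ := hR
      rcases h0.eq_or_lt with h | h
      · subst h
        rwa [hg.zero l l' hsu.1 hsu'.1, neg_zero, hS.zero] at hb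
      · exact absurd hτB (hsu.2.2 s h hsl)
    · intro hw
      obtain ⟨l, l', hmem, hτ'⟩ := h1 hw
      refine ⟨⟨0, l, l', hmem⟩, ?_⟩
      rw [hτ']
      exact (h2 hw).1
  · filter_upwards [hB0] with w h1 hw
    obtain ⟨l, l', _, h⟩ := h1 hw
    exact h

end Pool.H110K2
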