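import Pool.Agent.H110K2.Defs
import Pool.Agent.H110K2.P_NB_meas
import Pool.Agent.H110K2.P_emb_NB
import Pool.Agent.H110K2.P_emb_scale

set_option linter.all false

namespace Pool.H110K2
open MeasureTheory Set Filter Topology
open scoped ENNReal NNReal symmDiff


theorem emb_tt {W X : Type*} [MeasurableSpace W] [MeasurableSpace X] {m : Measure W}
    {μ : Measure X} {a : Lam → W → W} (hS : Sys m a) (e : X ≃ᵐ (ℕ → Bool)) {ρ τ : W → W}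
    {R : Set W} {c : ℝ≥0∞} (hE : Emb m a ρ τ R c) {B : Set W} {θ : W → X}
    (h : IsCode m μ B θ) :
    tt m a e (R ∩ τ ⁻¹' B) (θ ∘ τ) = tt m a e B θ := by
  have hc0 : c.toReal ≠ 0 := ENNReal.toReal_ne_zero.2 ⟨hE.c0, hE.ctop⟩
  have hCyl : ∀ i : Idx, MeasurableSet (Cyl e i) := by
    intro i
    have h1 : Measurable (fun x : X => (fun k : Fin i.1 => e x k)) := by
      refine measurable_pi_lambda _ (fun k => ?_)
      exact (measurable_pi_apply (k : ℕ)).comp e.measurable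
    exact h1 (Set.Finite.measurableSet (i.2.finite_toSet))
  funext ij
  obtain ⟨i, j⟩ := ij
  unfold tt
  simp only
  set D : Set W := B ∩ θ ⁻¹' Cyl e i with hD
  have hDm : MeasurableSet D := h.measB.inter (h.measθ (hCyl i))
  have hset : (R ∩ τ ⁻¹' B) ∩ (θ ∘ τ) ⁻¹' Cyl e i = R ∩ τ ⁻¹' D := by
    ext w
    simp only [hD, mem_inter_iff, mem_preimage, Function.comp_apply]
    tauto
  rw [hset]
  have hB' : MeasurableSet (R ∩ τ ⁻¹' B) := hE.measR.inter (hE.measτ h.measB)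
  have hD' : MeasurableSet (R ∩ τ ⁻¹' D) := hE.measR.inter (hE.measτ hDm)
  have hE' : MeasurableSet (NB a (R ∩ τ ⁻¹' B) (R ∩ τ ⁻¹' D) ∩ (θ ∘ τ) ⁻¹' Cyl e j) :=
    (NB_meas hS hB' hD').inter ((h.measθ.comp hE.measτ) (hCyl j))
  have h1 := hE.map _ hE'
  have h2 : (NB a (R ∩ τ ⁻¹' B) (R ∩ τ ⁻¹' D) ∩ (θ ∘ τ) ⁻¹' Cyl e j) ∩ R =
      NB a (R ∩ τ ⁻¹' B) (R ∩ τ ⁻¹' D) ∩ (θ ∘ τ) ⁻¹' Cyl e j := by
    refine inter_eq_left.2 ?_
    intro w hw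
    exact hw.1.1.1
  rw [h2] at h1
  have h3 : m (ρ ⁻¹' (NB a (R ∩ τ ⁻¹' B) (R ∩ τ ⁻¹' D) ∩ (θ ∘ τ) ⁻¹' Cyl e j)) =
      m (NB a B D ∩ θ ⁻¹' Cyl e j) := by
    refine measure_congr ?_
    filter_upwards [emb_NB hS hE B D, hE.left] with w hw1 hw2
    apply propext
    show (ρ w ∈ NB a (R ∩ τ ⁻¹' B) (R ∩ τ ⁻¹' D) ∧ θ (τ (ρ w)) ∈ Cyl e j) ↔
      (w ∈ NB a B D ∧ θ w ∈ Cyl e j)
    rw [hw1, hw2]
  rw [h3] at h1
  have h4 : m B = c * m (R ∩ τ ⁻¹' B) := by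
    rw [emb_scale hE B h.measB, ← mul_assoc, ENNReal.mul_inv_cancel hE.c0 hE.ctop, one_mul]
  rw [h1, h4, ENNReal.toReal_mul, ENNReal.toReal_mul, mul_div_mul_left _ _ hc0]

end Pool.H110K2
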