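import Pool.Agent.H110K2.Defs

set_option linter.all false

namespace Pool.H110K2
open MeasureTheory Set Filter Topology
open scoped ENNReal NNReal symmDiff


theorem selector_aux_sInf {Y : Type*} [MeasurableSpace Y] (p : ℕ → Y → Prop)
    (hp : ∀ n, MeasurableSet {y | p n y}) : Measurable (fun y => sInf {n | p n y}) := by
  apply measurable_to_countable'
  intro m
  have hE : (fun y => sInf {n | p n y}) ⁻¹' {m}
      = ({y | p m y} ∩ ⋂ k ∈ Finset.range m, {y | p k y}ᶜ) ∪ ({y | m = 0} ∩ ⋂ k, {y | p k y}ᶜ) := by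
    ext y
    simp only [mem_preimage, mem_singleton_iff, mem_union, mem_inter_iff, mem_setOf_eq, mem_iInter,
      mem_compl_iff, Finset.mem_range]
    constructor
    · intro h
      by_cases hne : {n | p n y}.Nonempty
      · left
        refine ⟨?_, ?_⟩
        · have := Nat.sInf_mem hne
          rw [h] at this
          exact this
        · intro k hk
          have := Nat.notMem_of_lt_sInf (h ▸ hk : k < sInf {n | p n y})
          exact this
      · right
        rw [Set.not_nonempty_iff_eq_empty] at hne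
        refine ⟨?_, ?_⟩
        · rw [← h, hne]; simp
        · intro k hk
          have : k ∈ {n | p n y} := hk
          rw [hne] at this
          exact this
    · rintro (⟨h1, h2⟩ | ⟨h1, h2⟩)
      · apply le_antisymm
        · exact Nat.sInf_le h1
        · by_contra hlt
          rw [not_le] at hlt
          have hne : {n | p n y}.Nonempty := ⟨m, h1⟩
          exact h2 _ hlt (Nat.sInf_mem hne)
      · have : {n | p n y} = ∅ := by
          ext k; simp [h2 k]
        rw [this, h1]; simp
  rw [hE]
  apply MeasurableSet.union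
  · apply (hp m).inter
    exact Finset.measurableSet_biInter _ (fun k _ => (hp k).compl)
  · apply MeasurableSet.inter (MeasurableSet.const _)
    exact MeasurableSet.iInter (fun k => (hp k).compl)

theorem selector_aux_comp {Y : Type*} [MeasurableSpace Y] (p : ℕ → ℕ → Y → Prop)
    (hp : ∀ j n, MeasurableSet {y | p j n y}) (f : Y → ℕ) (hf : Measurable f) :
    Measurable (fun y => sInf {n | p (f y) n y}) := by
  apply measurable_to_countable'
  intro m
  have hE : (fun y => sInf {n | p (f y) n y}) ⁻¹' {m}
      = ⋃ j, (f ⁻¹' {j} ∩ (fun y => sInf {n | p j n y}) ⁻¹' {m}) := by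
    ext y
    simp only [mem_preimage, mem_singleton_iff, mem_iUnion, mem_inter_iff]
    constructor
    · intro h
      exact ⟨f y, rfl, h⟩
    · rintro ⟨j, h1, h2⟩
      rw [h1]; exact h2
  rw [hE]
  apply MeasurableSet.iUnion
  intro j
  exact (hf (measurableSet_singleton j)).inter (selector_aux_sInf (p j) (hp j) (measurableSet_singleton m))

theorem selector_aux {Y Z : Type*} [MetricSpace Y] [CompleteSpace Y] [SecondCountableTopology Y]
    [Nonempty Y] [MeasurableSpace Y]
    [BorelSpace Y] [TopologicalSpace Z] [T2Space Z] (t : Y → Z) (ht : Continuous t)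
    (hsat : ∀ U, IsOpen U → IsOpen {y | ∃ y' ∈ U, t y' = t y}) :
    ∃ σ : Y → Y, Measurable σ ∧ (∀ y, t (σ y) = t y) ∧ ∀ y y', t y = t y' → σ y = σ y' := by
  classical
  set D : ℕ → Y := TopologicalSpace.denseSeq Y with hD
  have hdense : DenseRange D := TopologicalSpace.denseRange_denseSeq Y
  -- the open sets
  let q : ℕ → ℕ → ℕ → Y → Prop := fun k j n y =>
    ∃ y' ∈ Metric.ball (D n) ((1/2:ℝ)^(k+1)) ∩ Metric.ball (D j) ((1/2:ℝ)^k), t y' = t y
  let q0 : ℕ → Y → Prop := fun n y => ∃ y' ∈ Metric.ball (D n) 1, t y' = t y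
  let c : ℕ → Y → ℕ := fun k => Nat.rec (fun y => sInf {n | q0 n y}) (fun k f y => sInf {n | q k (f y) n y}) k
  have c0 : ∀ y, c 0 y = sInf {n | q0 n y} := fun y => rfl
  have cs : ∀ k y, c (k+1) y = sInf {n | q k (c k y) n y} := fun k y => rfl
  -- measurability
  have hcm : ∀ k, Measurable (c k) := by
    intro k
    induction k with
    | zero =>
      exact selector_aux_sInf q0 (fun n => (hsat _ Metric.isOpen_ball).measurableSet)
    | succ k ih =>
      exact selector_aux_comp (q k)
          (fun j n => (hsat _ (Metric.isOpen_ball.inter Metric.isOpen_ball)).measurableSet) (c k) ih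
  -- invariant
  have hinv : ∀ k y, ∃ y' ∈ Metric.ball (D (c k y)) ((1/2:ℝ)^k), t y' = t y := by
    intro k y
    induction k with
    | zero =>
      have hne : {n | q0 n y}.Nonempty := by
        obtain ⟨n, hn⟩ := hdense.exists_dist_lt y (show (0:ℝ) < 1 by norm_num)
        exact ⟨n, y, by simpa using hn, rfl⟩
      have := Nat.sInf_mem hne
      rw [← c0] at this
      obtain ⟨w, hw, htw⟩ := this
      exact ⟨w, by simpa using hw, htw⟩
    | succ k ih =>
      obtain ⟨z, hz, htz⟩ := ih
      have hne : {n | q k (c k y) n y}.Nonempty := by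
        obtain ⟨n, hn⟩ := hdense.exists_dist_lt z (show (0:ℝ) < (1/2:ℝ)^(k+1) by positivity)
        exact ⟨n, z, ⟨by simpa using hn, hz⟩, htz⟩
      have := Nat.sInf_mem hne
      rw [← cs] at this
      obtain ⟨w, hw, htw⟩ := this
      exact ⟨w, hw.1, htw⟩
  have hstep : ∀ k y, ∃ w, w ∈ Metric.ball (D (c (k+1) y)) ((1/2:ℝ)^(k+1)) ∧ w ∈ Metric.ball (D (c k y)) ((1/2:ℝ)^k) := by
    intro k y
    obtain ⟨z, hz, htz⟩ := hinv k y
    have hne : {n | q k (c k y) n y}.Nonempty := by
      obtain ⟨n, hn⟩ := hdense.exists_dist_lt z (show (0:ℝ) < (1/2:ℝ)^(k+1) by positivity)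
      exact ⟨n, z, ⟨by simpa using hn, hz⟩, htz⟩
    have := Nat.sInf_mem hne
    rw [← cs] at this
    obtain ⟨w, hw, htw⟩ := this
    exact ⟨w, hw.1, hw.2⟩
  have hcauchy : ∀ y, CauchySeq (fun k => D (c k y)) := by
    intro y
    apply cauchySeq_of_le_geometric (1/2:ℝ) 2 (by norm_num)
    intro k
    obtain ⟨w, h1, h2⟩ := hstep k y
    rw [Metric.mem_ball] at h1 h2
    have h3 : dist (D (c k y)) (D (c (k+1) y)) ≤ dist w (D (c k y)) + dist w (D (c (k+1) y)) :=
      dist_triangle_left _ _ _
    have h4 : (1/2:ℝ)^(k+1) ≤ (1/2:ℝ)^k := by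
      rw [pow_succ]; nlinarith [show (0:ℝ) < (1/2:ℝ)^k by positivity]
    linarith
  have hlim : ∀ y, ∃ z, Tendsto (fun k => D (c k y)) atTop (𝓝 z) := fun y =>
    cauchySeq_tendsto_of_complete (hcauchy y)
  choose σ hσ using hlim
  refine ⟨σ, ?_, ?_, ?_⟩
  · apply measurable_of_tendsto_metrizable (f := fun k y => D (c k y))
    · intro k
      exact (measurable_from_nat (f := D)).comp (hcm k)
    · rw [tendsto_pi_nhds]; exact hσ
  · intro y
    choose z hz htz using fun k => hinv k y
    have hz0 : Tendsto (fun k => dist (D (c k y)) (z k)) atTop (𝓝 0) := by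
      apply squeeze_zero (fun k => dist_nonneg) (g := fun k => (1/2:ℝ)^k)
      · intro k
        have := hz k
        rw [Metric.mem_ball, dist_comm] at this
        exact this.le
      · exact tendsto_pow_atTop_nhds_zero_of_lt_one (by norm_num) (by norm_num)
    have hzt : Tendsto z atTop (𝓝 (σ y)) := (tendsto_iff_of_dist hz0).1 (hσ y)
    have h1 : Tendsto (fun k => t (z k)) atTop (𝓝 (t (σ y))) := (ht.tendsto _).comp hzt
    have h2 : Tendsto (fun k => t (z k)) atTop (𝓝 (t y)) := by
      have : (fun k => t (z k)) = fun _ => t y := by ext k; exact htz k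
      rw [this]; exact tendsto_const_nhds
    exact tendsto_nhds_unique h1 h2
  · intro y y' h
    have hc : ∀ k, c k y = c k y' := by
      intro k
      induction k with
      | zero =>
        rw [c0, c0]; simp only [q0, h]
      | succ k ih =>
        rw [cs, cs]; simp only [q, h, ih]
    have := hσ y'
    have h2 := hσ y
    simp only [hc] at h2
    exact tendsto_nhds_unique h2 this

theorem selector {Y Z : Type*} [TopologicalSpace Y] [PolishSpace Y] [MeasurableSpace Y]
    [BorelSpace Y] [TopologicalSpace Z] [T2Space Z] (t : Y → Z) (ht : Continuous t)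
    (hsat : ∀ U, IsOpen U → IsOpen {y | ∃ y' ∈ U, t y' = t y}) :
    ∃ σ : Y → Y, Measurable σ ∧ (∀ y, t (σ y) = t y) ∧ ∀ y y', t y = t y' → σ y = σ y' := by
  rcases isEmpty_or_nonempty Y with hY | hY
  · exact ⟨id, measurable_id, fun y => rfl, fun y => (hY.false y).elim⟩
  · letI := TopologicalSpace.upgradeIsCompletelyMetrizable Y
    exact selector_aux t ht hsat

end Pool.H110K2
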