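import Pool.Agent.H110K2.Defs
import Pool.Agent.H110K2.P_selector

set_option linter.all false

namespace Pool.H110K2
open MeasureTheory Set Filter Topology
open scoped ENNReal NNReal symmDiff


theorem range_borel {Y Z : Type*} [TopologicalSpace Y] [PolishSpace Y]
    [TopologicalSpace Z] [PolishSpace Z] [MeasurableSpace Z] [BorelSpace Z]
    (t : Y → Z) (ht : Continuous t)
    (hsat : ∀ U, IsOpen U → IsOpen {y | ∃ y' ∈ U, t y' = t y}) :
    MeasurableSet (range t) := by
  borelize Y
  obtain ⟨σ, hσ, h1, h2⟩ := selector t ht hsat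
  have hA : MeasurableSet {y : Y | σ y = y} :=
    (isClosed_diagonal (X := Y)).measurableSet.preimage (hσ.prodMk measurable_id)
  have hinj : InjOn t {y : Y | σ y = y} := by
    intro y hy y' hy' h
    have := h2 y y' h
    rw [mem_setOf_eq] at hy hy'
    rw [← hy, ← hy', this]
  have himg : t '' {y : Y | σ y = y} = range t := by
    apply Subset.antisymm (image_subset_range _ _)
    rintro z ⟨y, rfl⟩
    exact ⟨σ y, h2 _ _ (h1 y), h1 y⟩
  rw [← himg]
  exact hA.image_of_measurable_injOn ht.measurable hinj

end Pool.H110K2
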