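import Pool.Agent.H110K2.Defs
import Pool.Agent.H110K2.P_inv_map

set_option linter.all false

namespace Pool.H110K2
open MeasureTheory Set Filter Topology
open scoped ENNReal NNReal symmDiff


theorem sigma1_aux {W X : Type*} [MeasurableSpace W] [MeasurableSpace X]
    {m : Measure W} {μ : Measure X}
    (e : X ≃ᵐ (ℕ → Bool)) {B B' : Set W} {θ θ' : W → X}
    (h : IsCode m μ B θ) (h' : IsCode m μ B' θ') (η' : X → W) (hη : Measurable η')
    (hη' : ∀ᵐ w ∂m, w ∈ B' → η' (θ' w) = w) :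
    ∀ᵐ w ∂m, w ∈ B → η' (θ w) ∈ B' ∧ θ' (η' (θ w)) = θ w := by
  obtain ⟨G, hG⟩ : ∃ G : Set X, G = {x | η' x ∈ B' ∧ θ' (η' x) = x} := ⟨_, rfl⟩
  have hGm : MeasurableSet G := by
    have h1 : G = η' ⁻¹' B' ∩ {x | e (θ' (η' x)) = e x} := by
      rw [hG]
      ext x
      constructor
      · rintro ⟨a, b⟩
        exact ⟨a, congrArg e b⟩
      · rintro ⟨a, b⟩
        exact ⟨a, e.injective b⟩
    rw [h1]
    apply (hη h'.measB).inter
    have h2 : {x | e (θ' (η' x)) = e x} = ⋂ n : ℕ, {x | e (θ' (η' x)) n = e x n} := by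
      ext x
      rw [mem_iInter]
      constructor
      · intro hx n
        exact congrFun hx n
      · intro hx
        exact funext hx
    rw [h2]
    apply MeasurableSet.iInter
    intro n
    apply measurableSet_eq_fun
    · exact (measurable_pi_apply n).comp (e.measurable.comp (h'.measθ.comp hη))
    · exact (measurable_pi_apply n).comp e.measurable
  have h1 : m (B' ∩ θ' ⁻¹' Gᶜ) = 0 := by
    have h2 : ∀ᵐ w ∂m, ¬ (w ∈ B' ∩ θ' ⁻¹' Gᶜ) := by
      filter_upwards [hη'] with w hw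
      rintro ⟨h3, h4⟩
      apply h4
      have h5 := hw h3
      rw [hG]
      exact ⟨by rw [h5]; exact h3, by rw [h5]⟩
    exact measure_eq_zero_iff_ae_notMem.mpr h2
  rw [h'.push _ hGm.compl, mul_eq_zero] at h1
  have h2 : μ Gᶜ = 0 := h1.resolve_left h'.pos
  have h3 : m (B ∩ θ ⁻¹' Gᶜ) = 0 := by
    rw [h.push _ hGm.compl, h2, mul_zero]
  have h4 := measure_eq_zero_iff_ae_notMem.mp h3
  filter_upwards [h4] with w hw
  intro hwB
  by_contra hcon
  apply hw
  refine ⟨hwB, ?_⟩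
  intro h5
  apply hcon
  rw [hG] at h5
  exact h5

theorem sigma1 {W X : Type*} [MeasurableSpace W] [StandardBorelSpace W] [MeasurableSpace X]
    {m : Measure W} {μ : Measure X} [IsProbabilityMeasure μ]
    (e : X ≃ᵐ (ℕ → Bool)) {B B' : Set W} {θ θ' : W → X}
    (h : IsCode m μ B θ) (h' : IsCode m μ B' θ') :
    ∃ σ σ' : W → W, Measurable σ ∧ Measurable σ' ∧
      (∀ᵐ w ∂m, w ∈ B → σ w ∈ B' ∧ σ' (σ w) = w ∧ θ' (σ w) = θ w) ∧
      (∀ᵐ w ∂m, w ∈ B' → σ' w ∈ B ∧ σ (σ' w) = w ∧ θ (σ' w) = θ' w) ∧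
      (∀ E, MeasurableSet E → m (B ∩ σ ⁻¹' E) = (m B / m B') * m (B' ∩ E)) := by
  obtain ⟨η, hη, hη2⟩ := inv_map e h
  obtain ⟨η', hη', hη2'⟩ := inv_map e h'
  refine ⟨fun w => η' (θ w), fun w => η (θ' w), hη'.comp h.measθ, hη.comp h'.measθ, ?_, ?_, ?_⟩
  · filter_upwards [sigma1_aux e h h' η' hη' hη2', hη2] with w h1 h2
    intro hw
    obtain ⟨h3, h4⟩ := h1 hw
    refine ⟨h3, ?_, h4⟩
    show η (θ' (η' (θ w))) = w
    rw [h4, h2 hw]
  · filter_upwards [sigma1_aux e h' h η hη hη2, hη2'] with w h1 h2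
    intro hw
    obtain ⟨h3, h4⟩ := h1 hw
    refine ⟨h3, ?_, h4⟩
    show η' (θ (η (θ' w))) = w
    rw [h4, h2 hw]
  · intro E hE
    have h1 : m (B ∩ (fun w => η' (θ w)) ⁻¹' E) = m B * μ (η' ⁻¹' E) := h.push _ (hη' hE)
    have h2 : m (B' ∩ E) = m B' * μ (η' ⁻¹' E) := by
      rw [← h'.push _ (hη' hE)]
      apply measure_congr
      filter_upwards [hη2'] with w hw
      apply propext
      constructor
      · rintro ⟨a, b⟩
        refine ⟨a, ?_⟩
        show η' (θ' w) ∈ E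
        rw [hw a]
        exact b
      · rintro ⟨a, b⟩
        refine ⟨a, ?_⟩
        have b' : η' (θ' w) ∈ E := b
        rw [hw a] at b'
        exact b'
    rw [h1, h2, ← mul_assoc, ENNReal.div_mul_cancel h'.pos h'.fin]

end Pool.H110K2
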