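import Pool.Agent.H110K2.Defs
import Pool.Agent.H110K2.P_ae_all
import Pool.Agent.H110K2.P_succ_unique
import Pool.Agent.H110K2.P_succ_exists
import Pool.Agent.H110K2.P_map_unique
import Pool.Agent.H110K2.P_inv_map
import Pool.Agent.H110K2.P_code_map

set_option linter.all false

namespace Pool.H110K2
open MeasureTheory Set Filter Topology
open scoped ENNReal NNReal symmDiff


theorem sigma2 {W X : Type*} [MeasurableSpace W] [StandardBorelSpace W] [MeasurableSpace X]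
    {m : Measure W} {μ : Measure X} [IsProbabilityMeasure μ] {a : Lam → W → W} (hS : Sys m a)
    (e : X ≃ᵐ (ℕ → Bool)) {B B' : Set W} {θ θ' : W → X}
    (h : IsCode m μ B θ) (h' : IsCode m μ B' θ')
    (ht : tt m a e B θ = tt m a e B' θ') (σ σ' : W → W) (hσ : Measurable σ)
    (hσ' : Measurable σ')
    (h1 : ∀ᵐ w ∂m, w ∈ B → σ w ∈ B' ∧ σ' (σ w) = w ∧ θ' (σ w) = θ w)
    (h2 : ∀ᵐ w ∂m, w ∈ B' → σ' w ∈ B ∧ σ (σ' w) = w ∧ θ (σ' w) = θ' w)
    (h3 : ∀ E, MeasurableSet E → m (B ∩ σ ⁻¹' E) = (m B / m B') * m (B' ∩ E)) :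
    (∀ᵐ w ∂m, w ∈ B → ∀ k, IsPred a B w k →
      ∃ l, IsPred a B' (σ w) l ∧ σ (a (-k) w) = a (-l) (σ w)) ∧
    (∀ᵐ w ∂m, w ∈ B → ∀ k, IsSucc a B w k →
      ∃ l, IsSucc a B' (σ w) l ∧ σ (a k w) = a l (σ w)) := by
  classical
  -- pull back of a.e. statements by θ on B
  have pullθ : ∀ Q : X → Prop, (∀ᵐ x ∂μ, Q x) → ∀ᵐ w ∂m, w ∈ B → Q (θ w) := by
    intro Q hQ
    have h0 : μ (toMeasurable μ {x | ¬ Q x}) = 0 := by
      rw [measure_toMeasurable]; exact hQ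
    have h4 : m (B ∩ θ ⁻¹' (toMeasurable μ {x | ¬ Q x})) = 0 := by
      rw [h.push _ (measurableSet_toMeasurable _ _), h0, mul_zero]
    have h5 := measure_eq_zero_iff_ae_notMem.1 h4
    filter_upwards [h5] with w hw hwB
    by_contra hc
    exact hw ⟨hwB, subset_toMeasurable μ _ hc⟩
  have pullσ : ∀ Q : W → Prop, (∀ᵐ v ∂m, Q v) → ∀ᵐ w ∂m, w ∈ B → Q (σ w) := by
    intro Q hQ
    have h0 : m (toMeasurable m {x | ¬ Q x}) = 0 := by
      rw [measure_toMeasurable]; exact hQ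
    have h4 : m (B ∩ σ ⁻¹' (toMeasurable m {x | ¬ Q x})) = 0 := by
      rw [h3 _ (measurableSet_toMeasurable _ _),
        measure_mono_null inter_subset_right h0, mul_zero]
    have h5 := measure_eq_zero_iff_ae_notMem.1 h4
    filter_upwards [h5] with w hw hwB
    by_contra hc
    exact hw ⟨hwB, subset_toMeasurable m _ hc⟩
  obtain ⟨U, hU, hUk, hUt⟩ := code_map hS e h
  obtain ⟨U', hU', hU'k, hU't⟩ := code_map hS e h'
  have hUU : ∀ᵐ x ∂μ, U x = U' x := by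
    refine map_unique μ e U U' hU hU' (fun i j => ?_)
    have e1 := hUt i j
    have e2 := hU't i j
    have e3 := congrFun ht (i, j)
    rw [e1, e2] at e3
    exact (ENNReal.toReal_eq_toReal_iff' (measure_ne_top _ _) (measure_ne_top _ _)).1 e3
  obtain ⟨η', hη', hη'k⟩ := inv_map e h'
  have A1 := ae_all hS h1
  have A2 := pullθ _ hUU
  have A3 := pullσ _ (ae_all hS hU'k)
  have A4 := pullσ _ (succ_exists hS h'.measB h'.pos h'.fin)
  have A5 := pullσ _ (ae_all hS hη'k)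
  have A6 := ae_all hS (pullσ _ hη'k)
  have first : ∀ᵐ w ∂m, w ∈ B → ∀ k, IsPred a B w k →
      ∃ l, IsPred a B' (σ w) l ∧ σ (a (-k) w) = a (-l) (σ w) := by
    filter_upwards [A1, hUk, A2, A3, A4, A5, A6] with w a1 auk a2 a3 a4 a5 a6 hwB k hk
    have hw1 := a1 0
    rw [hS.zero] at hw1
    obtain ⟨c1, c2, c3⟩ := hw1 hwB
    have huB : a (-k) w ∈ B := hk.2.1
    obtain ⟨d1, d2, d3⟩ := a1 (-k) huB
    obtain ⟨l, hl⟩ := (a4 hwB 0).2
    rw [hS.zero] at hl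
    refine ⟨l, hl, ?_⟩
    have hyB : a (-l) (σ w) ∈ B' := hl.2.1
    have g1 : θ' (a (-l) (σ w)) = U' (θ' (σ w)) := by
      have := a3 hwB 0
      rw [hS.zero] at this
      exact this c1 l hl
    have g2 : θ (a (-k) w) = U (θ w) := auk hwB k hk
    have g3 : θ' (a (-l) (σ w)) = θ' (σ (a (-k) w)) := by
      rw [g1, c3, ← a2 hwB, ← g2, d3]
    have g4 := a5 hwB (-l) hyB
    have g5 := a6 (-k) huB d1
    rw [← g5, ← g3, g4]
  refine ⟨first, ?_⟩
  filter_upwards [A1, ae_all hS first] with w a1 a2 hwB k hk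
  have hw1B : a k w ∈ B := hk.2.1
  have hp : IsPred a B (a k w) k := (succ_unique hS w).2.2.1 k hwB hk
  obtain ⟨l, hl, hl2⟩ := a2 k hw1B k hp
  obtain ⟨d1, d2, d3⟩ := a1 k hw1B
  have e1 : a (-k) (a k w) = w := by
    rw [← hS.add, neg_add_cancel, hS.zero]
  rw [e1] at hl2
  refine ⟨l, ?_, ?_⟩
  · have := (succ_unique hS (B := B') (σ (a k w))).2.2.2 l d1 hl
    rw [← hl2] at this
    exact this
  · rw [hl2, ← hS.add, add_neg_cancel, hS.zero]

end Pool.H110K2
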