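import Pool.Agent.H110K2.Defs
import Pool.Agent.H110K2.P_ae_all
import Pool.Agent.H110K2.P_succ_unique
import Pool.Agent.H110K2.P_succ_exists
import Pool.Agent.H110K2.P_chain

set_option linter.all false

namespace Pool.H110K2
open MeasureTheory Set Filter Topology
open scoped ENNReal NNReal symmDiff


theorem sigma_orb {W : Type*} [MeasurableSpace W] {m : Measure W} {a : Lam → W → W}
    (hS : Sys m a) {B B' : Set W} {σ : W → W} (hB : MeasurableSet B) (hB' : MeasurableSet B')
    (hp : m B ≠ 0) (h0 : m B ≠ ⊤) (h0' : m B' ≠ ⊤) (hσ : Measurable σ) (c : ℝ≥0∞)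
    (hc : c ≠ ⊤) (hfw : ∀ᵐ w ∂m, w ∈ B → σ w ∈ B')
    (h3 : ∀ E, MeasurableSet E → m (B ∩ σ ⁻¹' E) = c * m (B' ∩ E))
    (h1 : ∀ᵐ w ∂m, w ∈ B → ∀ k, IsPred a B w k →
      ∃ l, IsPred a B' (σ w) l ∧ σ (a (-k) w) = a (-l) (σ w))
    (h2 : ∀ᵐ w ∂m, w ∈ B → ∀ k, IsSucc a B w k →
      ∃ l, IsSucc a B' (σ w) l ∧ σ (a k w) = a l (σ w)) :
    ∀ᵐ b ∂m, b ∈ B → ∀ L, a L (σ b) ∈ B' → ∃ K, a K b ∈ B ∧ σ (a K b) = a L (σ b) := by
  have hG : ∀ᵐ b ∂m, b ∈ B → ∀ k l, {j | k ≤ j ∧ j ≤ l ∧ a j (σ b) ∈ B'}.Finite := by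
    have hf := hS.fin B' hB' h0'
    rw [ae_iff] at hf
    set N := {w : W | ¬ ∀ k l, {j | k ≤ j ∧ j ≤ l ∧ a j w ∈ B'}.Finite} with hN
    have hZ : m (toMeasurable m N) = 0 := by rw [measure_toMeasurable]; exact hf
    have h4 := h3 (toMeasurable m N) (measurableSet_toMeasurable m N)
    have h5 : m (B' ∩ toMeasurable m N) = 0 :=
      le_antisymm ((measure_mono inter_subset_right).trans hZ.le) zero_le
    rw [h5, mul_zero] at h4
    rw [ae_iff]
    refine measure_mono_null ?_ h4
    intro b hb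
    simp only [mem_setOf_eq, Classical.not_imp] at hb
    exact ⟨hb.1, subset_toMeasurable m N hb.2⟩
  filter_upwards [hG, hfw, ae_all hS h1, ae_all hS h2, succ_exists hS hB hp h0]
    with b hg hfwb h1b h2b hsb
  intro hb L hL
  have hσb := hfwb hb
  have hfin := hg hb
  have hz : a 0 b = b := hS.zero b
  have hz' : a 0 (σ b) = σ b := hS.zero (σ b)
  rcases lt_trichotomy L 0 with hL0 | hL0 | hL0
  · obtain ⟨n, e, hn, he0, hen, heH, hstep⟩ := chain {j | a j (σ b) ∈ B'} hfin L 0 hL
      (by rw [mem_setOf_eq, hz']; exact hσb) hL0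
    have key : ∀ i, i ≤ n → ∃ K, a K b ∈ B ∧ σ (a K b) = a (e (n - i)) (σ b) := by
      intro i
      induction i with
      | zero =>
        intro _
        refine ⟨0, by rw [hz]; exact hb, ?_⟩
        rw [hz, Nat.sub_zero, hen, hz']
      | succ i ih =>
        intro hi
        obtain ⟨K, hK, hKe⟩ := ih (by omega)
        obtain ⟨k, hk⟩ := (hsb K).2
        obtain ⟨l, hl, hle⟩ := h1b K hK k hk
        rw [hKe] at hl hle
        have hidx : n - i = (n - (i+1)) + 1 := by omega
        set q := n - (i + 1) with hq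
        rw [hidx] at hl hle
        obtain ⟨hlt, hno⟩ := hstep q (by omega)
        have hpred : IsPred a B' (a (e (q+1)) (σ b)) (e (q+1) - e q) := by
          refine ⟨sub_pos.mpr hlt, ?_, ?_⟩
          · rw [← hS.add]
            have : -(e (q+1) - e q) + e (q+1) = e q := by abel
            rw [this]
            exact heH q (by omega)
          · intro j hj0 hj1
            rw [← hS.add]
            have h6 : -j + e (q+1) < e (q+1) := by
              rw [neg_add_lt_iff_lt_add]
              exact lt_add_of_pos_left _ hj0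
            have h7 : e q < -j + e (q+1) := by
              rw [lt_sub_iff_add_lt] at hj1
              rw [lt_neg_add_iff_add_lt]
              exact hj1
            exact hno _ h7 h6
        have hll : l = e (q+1) - e q := (succ_unique hS _).2.1 _ _ hl hpred
        refine ⟨-k + K, ?_, ?_⟩
        · rw [hS.add]; exact hk.2.1
        · rw [hS.add, hle, ← hS.add, hll]
          congr 1
          abel
    obtain ⟨K, hK, hKe⟩ := key n le_rfl
    rw [Nat.sub_self, he0] at hKe
    exact ⟨K, hK, hKe⟩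
  · subst hL0
    exact ⟨0, by rw [hz]; exact hb, by rw [hz, hz']⟩
  · obtain ⟨n, e, hn, he0, hen, heH, hstep⟩ := chain {j | a j (σ b) ∈ B'} hfin 0 L
      (by rw [mem_setOf_eq, hz']; exact hσb) hL hL0
    have key : ∀ i, i ≤ n → ∃ K, a K b ∈ B ∧ σ (a K b) = a (e i) (σ b) := by
      intro i
      induction i with
      | zero =>
        intro _
        refine ⟨0, by rw [hz]; exact hb, ?_⟩
        rw [hz, he0, hz']
      | succ i ih =>
        intro hi
        obtain ⟨K, hK, hKe⟩ := ih (by omega)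
        obtain ⟨k, hk⟩ := (hsb K).1
        obtain ⟨l, hl, hle⟩ := h2b K hK k hk
        rw [hKe] at hl hle
        obtain ⟨hlt, hno⟩ := hstep i (by omega)
        have hsucc : IsSucc a B' (a (e i) (σ b)) (e (i+1) - e i) := by
          refine ⟨sub_pos.mpr hlt, ?_, ?_⟩
          · rw [← hS.add, sub_add_cancel]
            exact heH (i+1) hi
          · intro j hj0 hj1
            rw [← hS.add]
            have h6 : e i < j + e i := lt_add_of_pos_left _ hj0
            have h7 : j + e i < e (i+1) := by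
              rw [lt_sub_iff_add_lt] at hj1
              exact hj1
            exact hno _ h6 h7
        have hll : l = e (i+1) - e i := (succ_unique hS _).1 _ _ hl hsucc
        refine ⟨k + K, ?_, ?_⟩
        · rw [hS.add]; exact hk.2.1
        · rw [hS.add, hle, ← hS.add, hll, sub_add_cancel]
    obtain ⟨K, hK, hKe⟩ := key n le_rfl
    rw [hen] at hKe
    exact ⟨K, hK, hKe⟩

end Pool.H110K2
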