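import Pool.Agent.H110K2.Defs
import Pool.Agent.H110K2.P_ae_all
import Pool.Agent.H110K2.P_chain

set_option linter.all false

namespace Pool.H110K2
open MeasureTheory Set Filter Topology
open scoped ENNReal NNReal symmDiff


theorem sigma_ord {W : Type*} [MeasurableSpace W] {m : Measure W} {a : Lam → W → W}
    (hS : Sys m a) {B B' : Set W} {σ : W → W} (hB : MeasurableSet B) (h0 : m B ≠ ⊤)
    (h2 : ∀ᵐ w ∂m, w ∈ B → ∀ k, IsSucc a B w k →
      ∃ l, IsSucc a B' (σ w) l ∧ σ (a k w) = a l (σ w)) :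
    ∀ᵐ b ∂m, b ∈ B → ∀ K, 0 < K → a K b ∈ B → ∃ L, 0 < L ∧ σ (a K b) = a L (σ b) := by
  filter_upwards [ae_all hS h2, hS.fin B hB h0] with b hb hf hbB K hK hKB
  obtain ⟨n, c, hn, hc0, hcn, hcH, hc⟩ := chain {j | a j b ∈ B} (fun k l => hf k l) 0 K
    (by
      have : a 0 b ∈ B := by rw [hS.zero]; exact hbB
      exact this) hKB hK
  have key : ∀ i, i ≤ n → ∃ L : Lam, 0 ≤ L ∧ (1 ≤ i → 0 < L) ∧ σ (a (c i) b) = a L (σ b) := by
    intro i
    induction i with
    | zero =>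
      intro _
      refine ⟨0, le_refl _, by omega, ?_⟩
      rw [hc0, hS.zero, hS.zero]
    | succ i ih =>
      intro hi
      obtain ⟨L, hL0, -, hL⟩ := ih (by omega)
      obtain ⟨h1, h3⟩ := hc i (by omega)
      have hsucc : IsSucc a B (a (c i) b) (c (i+1) - c i) := by
        refine ⟨sub_pos.mpr h1, ?_, ?_⟩
        · rw [← hS.add, sub_add_cancel]
          exact hcH (i+1) hi
        · intro j hj0 hj1 hj2
          rw [← hS.add] at hj2
          exact h3 (j + c i) (lt_add_of_pos_left _ hj0) (lt_sub_iff_add_lt.mp hj1) hj2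
      obtain ⟨l, hl1, hl2⟩ := hb (c i) (hcH i (by omega)) _ hsucc
      rw [← hS.add, sub_add_cancel, hL, ← hS.add] at hl2
      exact ⟨l + L, (add_pos_of_pos_of_nonneg hl1.1 hL0).le,
        fun _ => add_pos_of_pos_of_nonneg hl1.1 hL0, hl2⟩
  obtain ⟨L, -, hL1, hL2⟩ := key n (le_refl n)
  rw [hcn] at hL2
  exact ⟨L, hL1 hn, hL2⟩

end Pool.H110K2
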