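import Pool.Agent.H110K2.Defs
import Pool.Agent.H110K2.P_sigma1
import Pool.Agent.H110K2.P_sigma2
import Pool.Agent.H110K2.P_sigma_ord
import Pool.Agent.H110K2.P_sigma_orb

set_option linter.all false

namespace Pool.H110K2
open MeasureTheory Set Filter Topology
open scoped ENNReal NNReal symmDiff


theorem sigma_full {W X : Type*} [MeasurableSpace W] [StandardBorelSpace W] [MeasurableSpace X]
    {m : Measure W} {μ : Measure X} [IsProbabilityMeasure μ] {a : Lam → W → W} (hS : Sys m a)
    (e : X ≃ᵐ (ℕ → Bool)) {B B' : Set W} {θ θ' : W → X}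
    (h : IsCode m μ B θ) (h' : IsCode m μ B' θ')
    (ht : tt m a e B θ = tt m a e B' θ') :
    ∃ (σ σ' : W → W) (c : ℝ≥0∞), Sig m a B B' σ σ' c ∧
      (∀ᵐ w ∂m, w ∈ B' → θ (σ' w) = θ' w) := by
  obtain ⟨σ, σ', hσ, hσ', h1, h2, h3⟩ := sigma1 e h h'
  obtain ⟨hp, hs⟩ := sigma2 hS e h h' ht σ σ' hσ hσ' h1 h2 h3
  have hctop : m B / m B' ≠ ⊤ := ENNReal.div_ne_top h.fin h'.pos
  have hc0 : m B / m B' ≠ 0 := by
    rw [Ne, ENNReal.div_eq_zero_iff]
    push Not
    exact ⟨h.pos, h'.fin⟩
  have hfw : ∀ᵐ w ∂m, w ∈ B → σ w ∈ B' := by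
    filter_upwards [h1] with w hw hwB
    exact (hw hwB).1
  refine ⟨σ, σ', m B / m B', ?_, ?_⟩
  · exact
      { measB := h.measB
        measB' := h'.measB
        posB := h.pos
        posB' := h'.pos
        finB := h.fin
        finB' := h'.fin
        measσ := hσ
        measσ' := hσ'
        fwd := by
          filter_upwards [h1] with w hw hwB
          exact ⟨(hw hwB).1, (hw hwB).2.1⟩
        bwd := by
          filter_upwards [h2] with w hw hwB
          exact ⟨(hw hwB).1, (hw hwB).2.1⟩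
        c0 := hc0
        ctop := hctop
        scale := h3
        ord := sigma_ord hS h.measB h.fin hs
        orb := sigma_orb hS h.measB h'.measB h.pos h.fin h'.fin hσ (m B / m B') hctop hfw h3 hp hs }
  · filter_upwards [h2] with w hw hwB
    exact (hw hwB).2.2

end Pool.H110K2
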