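import Pool.Agent.H110K2.Defs
import Pool.Agent.H110K2.P_bs_meas
import Pool.Agent.H110K2.P_th_meas
import Pool.Agent.H110K2.P_code_ext
import Pool.Agent.H110K2.P_code_trans
import Pool.Agent.H110K2.P_tt_ae
import Pool.Agent.H110K2.P_code_ae
import Pool.Agent.H110K2.P_emb_scale
import Pool.Agent.H110K2.P_emb_code
import Pool.Agent.H110K2.P_emb_tt
import Pool.Agent.H110K2.P_sigma_full
import Pool.Agent.H110K2.P_emb_exists

set_option linter.all false

namespace Pool.H110K2
open MeasureTheory Set Filter Topology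
open scoped ENNReal NNReal symmDiff


theorem sat_trans {W X : Type*} [MeasurableSpace W] [StandardBorelSpace W]
    [MeasurableSpace X] {m : Measure W} {μ : Measure X} [IsProbabilityMeasure μ]
    {a : Lam → W → W} (hS : Sys m a) (e : X ≃ᵐ (ℕ → Bool)) (p p' : PP m μ e)
    (ht : tt m a e (Bs p.1) (th e p.1) = tt m a e (Bs p'.1) (th e p'.1)) :
    ∃ F : PP m μ e → PP m μ e, Continuous F ∧ F p = p' ∧
      ∀ q, tt m a e (Bs (F q).1) (th e (F q).1) = tt m a e (Bs q.1) (th e q.1) := by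
  obtain ⟨σ, σ', c, hG, hθ⟩ := sigma_full hS e p.2 p'.2 ht
  obtain ⟨ρ, τ, R, hE, hR1, hR2⟩ := emb_exists hS hG
  obtain ⟨F, hFc, hF⟩ := code_trans (m := m) e τ R c⁻¹ hE.measτ hE.measR
    (by simp [hE.c0]) (fun E hEm => emb_scale hE E hEm)
  have hmem : ∀ q : Code m, q ∈ PP m μ e → F q ∈ PP m μ e := by
    intro q hq
    refine code_ae (emb_code hS hE hq) (bs_meas _).1 (th_meas e _) ?_ ?_
    · filter_upwards [(hF q).1] with w hw
      exact hw.symm
    · filter_upwards [(hF q).1, (hF q).2] with w hw hw2 hw3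
      exact (hw2 (hw.2 hw3)).symm
  refine ⟨fun q => ⟨F q.1, hmem q.1 q.2⟩, ?_, ?_, ?_⟩
  · exact Continuous.subtype_mk (hFc.comp continuous_subtype_val) _
  · apply Subtype.ext
    refine code_ext e _ _ ?_ ?_
    · filter_upwards [(hF p.1).1, hR1] with w hw hw2
      exact hw.trans hw2
    · filter_upwards [(hF p.1).1, (hF p.1).2, hR1, hR2, hθ] with w h1 h2 h3 h4 h5 h6
      have h7 : w ∈ Bs p'.1 := h3.1 (h1.1 h6)
      rw [h2 h6, h4 h7, h5 h7]
  · intro q
    rw [← emb_tt hS e hE q.2]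
    refine tt_ae hS e ?_ ?_
    · exact (hF q.1).1
    · filter_upwards [(hF q.1).2] with w hw hw2
      exact hw hw2

end Pool.H110K2
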