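import Pool.Agent.H110K2.Defs
import Pool.Agent.H110K2.P_cont_bs
import Pool.Agent.H110K2.P_cont_NB

set_option linter.all false

namespace Pool.H110K2
open MeasureTheory Set Filter Topology
open scoped ENNReal NNReal symmDiff


theorem tt_cont {W X : Type*} [MeasurableSpace W] [MeasurableSpace X] {m : Measure W}
    {μ : Measure X} {a : Lam → W → W} (hS : Sys m a) (e : X ≃ᵐ (ℕ → Bool)) :
    Continuous (fun p : PP m μ e => tt m a e (Bs p.1) (th e p.1)) := by
  refine continuous_pi ?_
  intro ij
  have h1 := (cont_NB (m := m) hS e ij.1 ij.2).comp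
    (continuous_subtype_val : Continuous (Subtype.val : PP m μ e → Code m))
  have h2 := (cont_bs (m := m)).comp
    (continuous_subtype_val : Continuous (Subtype.val : PP m μ e → Code m))
  refine Continuous.div h1 h2 ?_
  intro p
  have hp : IsCode m μ (Bs p.1) (th e p.1) := p.2
  exact (ENNReal.toReal_pos hp.pos hp.fin).ne'

end Pool.H110K2
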