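import Pool.Agent.H110K2.Defs
import Pool.Agent.H110K2.P_polish_of_Gdelta
import Pool.Agent.H110K2.P_range_borel
import Pool.Agent.H110K2.P_code_polish
import Pool.Agent.H110K2.P_tt_cont
import Pool.Agent.H110K2.P_PP_Gdelta
import Pool.Agent.H110K2.P_sat_trans

set_option linter.all false

namespace Pool.H110K2
open MeasureTheory Set Filter Topology
open scoped ENNReal NNReal symmDiff


theorem image_meas {W X : Type*} [MeasurableSpace W] [StandardBorelSpace W]
    [MeasurableSpace X] {m : Measure W} [SigmaFinite m] {μ : Measure X} [IsProbabilityMeasure μ]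
    {a : Lam → W → W} (hS : Sys m a) (e : X ≃ᵐ (ℕ → Bool)) :
    MeasurableSet (range (fun p : PP m μ e => tt m a e (Bs p.1) (th e p.1))) := by
  haveI h1 : PolishSpace (Code m) := code_polish m
  haveI h2 : PolishSpace (PP m μ e) := polish_of_Gdelta (PP_Gdelta e)
  refine range_borel (fun p : PP m μ e => tt m a e (Bs p.1) (th e p.1)) (tt_cont hS e) ?_
  intro U hU
  rw [isOpen_iff_mem_nhds]
  rintro y ⟨y', hy', hty⟩
  obtain ⟨F, hF, hFy, hFt⟩ := sat_trans hS e y y' hty.symm
  have hopen : IsOpen (F ⁻¹' U) := hU.preimage hF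
  have hmem : y ∈ F ⁻¹' U := by
    change F y ∈ U
    rw [hFy]
    exact hy'
  refine Filter.mem_of_superset (hopen.mem_nhds hmem) ?_
  intro q hq
  exact ⟨F q, hq, hFt q⟩

end Pool.H110K2
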