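import Pool.Agent.H110K2.Defs
import Pool.Agent.H110K2.P_cyl_meas

set_option linter.all false

namespace Pool.H110K2
open MeasureTheory Set Filter Topology
open scoped ENNReal NNReal symmDiff


theorem rep_cont {X : Type*} [MeasurableSpace X] (μ : Measure X) [IsProbabilityMeasure μ]
    (e : X ≃ᵐ (ℕ → Bool)) :
    Continuous (fun (S : ErgAut μ) (ij : Idx × Idx) =>
      (μ (S.1.symm ⁻¹' Cyl e ij.1 ∩ Cyl e ij.2)).toReal) := by
  have key : ∀ (S : ErgAut μ) (C1 C2 : Set X), MeasurableSet C1 → MeasurableSet C2 →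
      μ (S.1.symm ⁻¹' C1 ∩ C2) = μ ((S.1 ⁻¹' C2) ∩ C1) := by
    intro S C1 C2 h1 h2
    have hmp : MeasurePreserving S.1 μ μ := S.2.toMeasurePreserving
    have hm : MeasurableSet (S.1.symm ⁻¹' C1 ∩ C2) := (S.1.symm.measurable h1).inter h2
    rw [← hmp.measure_preimage hm.nullMeasurableSet]
    congr 1
    ext x
    simp [and_comm]
  have hF : Continuous (fun (S : ErgAut μ) (EF : {E : Set X // MeasurableSet E} ×
      {E : Set X // MeasurableSet E}) => μ ((S.1 ⁻¹' EF.1.1) ∩ EF.2.1)) := continuous_induced_dom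
  refine continuous_pi (fun ij => ?_)
  have hc := (continuous_apply (⟨⟨Cyl e ij.2, cyl_meas e ij.2⟩, ⟨Cyl e ij.1, cyl_meas e ij.1⟩⟩ :
    {E : Set X // MeasurableSet E} × {E : Set X // MeasurableSet E})).comp hF
  rw [continuous_iff_continuousAt]
  intro S
  have heq : (fun S : ErgAut μ => (μ (S.1.symm ⁻¹' Cyl e ij.1 ∩ Cyl e ij.2)).toReal) =
      fun S : ErgAut μ => (μ ((S.1 ⁻¹' Cyl e ij.2) ∩ Cyl e ij.1)).toReal := by
    funext S
    rw [key S _ _ (cyl_meas e ij.1) (cyl_meas e ij.2)]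
  rw [heq]
  exact (ENNReal.tendsto_toReal (measure_ne_top _ _)).comp hc.continuousAt

end Pool.H110K2
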