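import Pool.Agent.H110K2.Defs
import Pool.Agent.H110K2.P_act_sys
import Pool.Agent.H110K2.P_image_meas
import Pool.Agent.H110K2.P_rep_cont
import Pool.Agent.H110K2.P_class_iff

set_option linter.all false

namespace Pool.H110K2
open MeasureTheory Set Filter Topology
open scoped ENNReal NNReal symmDiff


theorem final {X : Type*} [MeasurableSpace X] [StandardBorelSpace X] (μ : Measure X)
    [IsProbabilityMeasure μ] [NullSingletonClass μ] (T : ErgAut μ) :
    MeasurableSet[borel (ErgAut μ)] {S : ErgAut μ | KakutaniEquiv μ T.1 S.1} := by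
  have hunc : ¬ Countable X := by
    intro hc
    have h0 : μ univ = 0 := (Set.countable_univ (α := X)).measure_zero μ
    rw [measure_univ] at h0
    exact one_ne_zero h0
  let e : X ≃ᵐ (ℕ → Bool) := PolishSpace.measurableEquivNatBoolOfNotCountable hunc
  have hset : {S : ErgAut μ | KakutaniEquiv μ T.1 S.1} =
      (fun (S : ErgAut μ) (ij : Idx × Idx) =>
        (μ (S.1.symm ⁻¹' Cyl e ij.1 ∩ Cyl e ij.2)).toReal) ⁻¹'
      (range (fun p : PP (μ.prod (Measure.count : Measure ℚ)) μ e =>
          tt (μ.prod (Measure.count : Measure ℚ)) (act T.1) e (Bs p.1) (th e p.1))) := by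
    ext S
    exact class_iff μ e T.1 S.1 T.2 S.2
  rw [hset]
  have hm := image_meas (μ := μ) (act_sys μ T.1 T.2) e
  letI : MeasurableSpace (ErgAut μ) := borel (ErgAut μ)
  haveI : BorelSpace (ErgAut μ) := ⟨rfl⟩
  exact (rep_cont μ e).measurable hm

end Pool.H110K2
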