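import Pool.Agent.H110K2.Defs
import Pool.Agent.H110K2.P_ae_all
import Pool.Agent.H110K2.P_chain

set_option linter.all false

namespace Pool.H110K2
open MeasureTheory Set Filter Topology
open scoped ENNReal NNReal symmDiff


theorem iter {W X : Type*} [MeasurableSpace W] [MeasurableSpace X] {m : Measure W}
    {a : Lam → W → W} (hS : Sys m a) {B : Set W} (hB : MeasurableSet B) (hB' : m B ≠ ⊤)
    {θ : W → X} (S : X → X)
    (h : ∀ᵐ v ∂m, v ∈ B → ∀ k, IsSucc a B v k → θ (a k v) = S (θ v)) :
    ∀ᵐ w ∂m, w ∈ B → ∀ K, 0 < K → a K w ∈ B → ∃ n : ℕ, 1 ≤ n ∧ S^[n] (θ w) = θ (a K w) ∧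
      ∀ j, 1 ≤ j → j < n → ∃ l, 0 < l ∧ l < K ∧ a l w ∈ B ∧ S^[j] (θ w) = θ (a l w) := by
  filter_upwards [ae_all hS h, hS.fin B hB hB'] with w hw hfin
  intro hwB K hK hKB
  have h0H : (0 : Lam) ∈ {j : Lam | a j w ∈ B} := by
    show a 0 w ∈ B
    rw [hS.zero]; exact hwB
  obtain ⟨n, c, hn, hc0, hcn, hcH, hcs⟩ := chain {j : Lam | a j w ∈ B} hfin 0 K h0H hKB hK
  have hiter : ∀ i, i ≤ n → S^[i] (θ w) = θ (a (c i) w) := by
    intro i
    induction i with
    | zero =>
      intro _
      rw [hc0, hS.zero]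
      rfl
    | succ i ih =>
      intro hi
      rw [Function.iterate_succ_apply', ih (by omega)]
      have h1 := hcs i (by omega)
      have h2 : a (c i) w ∈ B := hcH i (by omega)
      have hadd : ∀ j : Lam, a j (a (c i) w) = a (j + c i) w := fun j => (hS.add j (c i) w).symm
      have hk : a (c (i + 1) - c i) (a (c i) w) = a (c (i + 1)) w := by
        rw [hadd, sub_add_cancel]
      have hs : IsSucc a B (a (c i) w) (c (i + 1) - c i) := by
        refine ⟨sub_pos.mpr h1.1, ?_, ?_⟩
        · rw [hk]; exact hcH (i + 1) hi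
        · intro j hj0 hj1
          rw [hadd]
          refine h1.2 (j + c i) ?_ ?_
          · exact lt_add_of_pos_left _ hj0
          · exact lt_sub_iff_add_lt.mp hj1
      have h3 := hw (c i) h2 (c (i + 1) - c i) hs
      rw [hk] at h3
      exact h3.symm
  have hmono : ∀ i, i ≤ n → ∀ j, j < i → c j < c i := by
    intro i
    induction i with
    | zero => intro _ j hj; omega
    | succ i ih =>
      intro hi j hj
      have h1 := (hcs i (by omega)).1
      rcases Nat.lt_succ_iff_lt_or_eq.mp hj with h2 | h2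
      · exact (ih (by omega) j h2).trans h1
      · rw [h2]; exact h1
  refine ⟨n, hn, ?_, ?_⟩
  · rw [hiter n le_rfl, hcn]
  · intro j hj1 hjn
    refine ⟨c j, ?_, ?_, hcH j hjn.le, hiter j hjn.le⟩
    · have := hmono j hjn.le 0 (by omega)
      rwa [hc0] at this
    · have := hmono n le_rfl j hjn
      rwa [hcn] at this

end Pool.H110K2
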