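import Pool.Agent.H110K2.Defs
import Pool.Agent.H110K2.P_ae_all
import Pool.Agent.H110K2.P_act_sys
import Pool.Agent.H110K2.P_ret_good
import Pool.Agent.H110K2.P_iter

set_option linter.all false

namespace Pool.H110K2
open MeasureTheory Set Filter Topology
open scoped ENNReal NNReal symmDiff


theorem ind_conj {X : Type*} [MeasurableSpace X] [StandardBorelSpace X] (μ : Measure X)
    [IsProbabilityMeasure μ] [NullSingletonClass μ] (T S : X ≃ᵐ X) (hT : Ergodic T μ)
    (B : Set (X × ℚ)) (θ : X × ℚ → X)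
    (h : IsCode (μ.prod (Measure.count : Measure ℚ)) μ B θ)
    (hs : ∀ᵐ v ∂(μ.prod (Measure.count : Measure ℚ)), v ∈ B →
      ∀ k, IsSucc (act T) B v k → θ (act T k v) = S (θ v))
    (η : X → X × ℚ) (N : Set (X × ℚ)) (q : ℚ) (hη : Measurable η) (hN : MeasurableSet N)
    (hNB : N ⊆ B) (hN0 : (μ.prod (Measure.count : Measure ℚ)) (B \ N) = 0)
    (hη' : ∀ w ∈ N, η (θ w) = w) (hq : μ {x | (x, q) ∈ N} ≠ 0) :
    ∀ᵐ x ∂μ, (x, q) ∈ N → θ (induced T {x | (x, q) ∈ N} x, q) =
      induced S ((fun x => θ (x, q)) '' {x | (x, q) ∈ N}) (θ (x, q)) := by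
  have hSys := act_sys μ T hT
  have sec : ∀ {P : X × ℚ → Prop}, (∀ᵐ w ∂(μ.prod (Measure.count : Measure ℚ)), P w) →
      ∀ᵐ x ∂μ, P (x, q) := by
    intro P hP
    have h1 := Measure.ae_ae_of_ae_prod hP
    filter_upwards [h1] with x hx
    rw [ae_iff, Measure.count_eq_zero_iff] at hx
    by_contra hc
    have : q ∈ {a | ¬ P (x, a)} := hc
    rw [hx] at this
    exact this
  have hmem : ∀ᵐ v ∂(μ.prod (Measure.count : Measure ℚ)), v ∈ B → v ∈ N := by
    rw [ae_iff]
    refine measure_mono_null ?_ hN0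
    intro v hv
    have hv' : ¬ (v ∈ B → v ∈ N) := hv
    rw [Classical.not_imp] at hv'
    exact hv'
  have hall := ae_all hSys hmem
  have hit := iter hSys h.measB h.fin (S : X → X) hs
  have hA : MeasurableSet {x : X | (x, q) ∈ N} := measurable_prodMk_right hN
  have hret := ret_good μ T hT {x : X | (x, q) ∈ N} hA hq
  filter_upwards [sec hall, sec hit, hret] with x hxall hxit hxret hxN
  obtain ⟨hn1, hnA, hnmin⟩ := hxret
  have hact : ∀ i : ℕ, act T (toLex ((i : ℤ), (0 : ℚ))) (x, q) = ((T : X → X)^[i] x, q) := by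
    intro i
    have h1 : ((T.toEquiv : Equiv.Perm X) ^ (i : ℤ)) x = (T : X → X)^[i] x := by
      rw [zpow_natCast, ← Equiv.Perm.iterate_eq_pow]
      rfl
    show (((T.toEquiv : Equiv.Perm X) ^ (i : ℤ)) x, q + 0) = ((T : X → X)^[i] x, q)
    rw [h1, add_zero]
  set n := retTime T {x : X | (x, q) ∈ N} x with hn
  have hK : (0 : Lam) < toLex ((n : ℤ), (0 : ℚ)) := by
    rw [show (0 : Lam) = toLex ((0 : ℤ), (0 : ℚ)) from rfl, Prod.Lex.toLex_lt_toLex]
    left
    show (0 : ℤ) < n
    omega
  obtain ⟨n', hn'1, hn'2, hn'3⟩ := hxit (hNB hxN) _ hK (by rw [hact]; exact hNB hnA)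
  rw [hact] at hn'2
  have hr : retTime S ((fun x => θ (x, q)) '' {x | (x, q) ∈ N}) (θ (x, q)) = n' := by
    unfold retTime
    apply le_antisymm
    · apply Nat.sInf_le
      refine ⟨hn'1, ?_⟩
      rw [hn'2]
      exact ⟨_, hnA, rfl⟩
    · apply le_csInf
      · refine ⟨n', hn'1, ?_⟩
        rw [hn'2]
        exact ⟨_, hnA, rfl⟩
      · rintro j ⟨hj1, hj2⟩
        by_contra hlt
        have hlt' : j < n' := by omega
        obtain ⟨l, hl0, hlK, hlB, hlS⟩ := hn'3 j hj1 hlt'
        obtain ⟨x', hx'A, hx'⟩ := hj2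
        have hx'' : θ (x', q) = θ (act T l (x, q)) := hx'.trans hlS
        have hlN := hxall l hlB
        have e1 : act T l (x, q) = (x', q) := by
          rw [← hη' _ hlN, ← hx'', hη' _ hx'A]
        have e2 : q + (ofLex l).2 = q := congrArg Prod.snd e1
        have e3 : ((T.toEquiv : Equiv.Perm X) ^ (ofLex l).1) x = x' := congrArg Prod.fst e1
        have e4 : (ofLex l).2 = 0 := by linarith
        have hl' : l = toLex ((ofLex l).1, (0 : ℚ)) := by
          rw [← e4]; rfl
        rw [hl', show (0 : Lam) = toLex ((0 : ℤ), (0 : ℚ)) from rfl, Prod.Lex.toLex_lt_toLex] at hl0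
        rw [hl', Prod.Lex.toLex_lt_toLex] at hlK
        have hp : 0 < (ofLex l).1 := by
          rcases hl0 with h | h
          · exact h
          · exact absurd h.2 (lt_irrefl _)
        have hq' : (ofLex l).1 < n := by
          rcases hlK with h | h
          · exact h
          · exact absurd h.2 (lt_irrefl _)
        obtain ⟨i, hi⟩ := Int.eq_ofNat_of_zero_le hp.le
        have e5 : act T l (x, q) = ((T : X → X)^[i] x, q) := by
          rw [hl', hi]
          exact hact i
        have e6 : (T : X → X)^[i] x = x' := by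
          have := e5.symm.trans e1
          exact congrArg Prod.fst this
        refine hnmin i (by omega) (by omega) ?_
        rw [e6]
        exact hx'A
  show θ ((T : X → X)^[retTime T {x : X | (x, q) ∈ N} x] x, q) = (S : X → X)^[retTime S _ (θ (x, q))] (θ (x, q))
  rw [hr, hn'2]

end Pool.H110K2
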