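import Pool.Agent.H110K2.Defs

set_option linter.all false

namespace Pool.H110K2
open MeasureTheory Set Filter Topology
open scoped ENNReal NNReal symmDiff


theorem ind_scale {X : Type*} [MeasurableSpace X] [StandardBorelSpace X] (μ : Measure X)
    [IsProbabilityMeasure μ] (B : Set (X × ℚ)) (θ : X × ℚ → X)
    (h : IsCode (μ.prod (Measure.count : Measure ℚ)) μ B θ)
    (η : X → X × ℚ) (N : Set (X × ℚ)) (q : ℚ) (hη : Measurable η) (hN : MeasurableSet N)
    (hNB : N ⊆ B) (hN0 : (μ.prod (Measure.count : Measure ℚ)) (B \ N) = 0)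
    (hη' : ∀ w ∈ N, η (θ w) = w) (hq : μ {x | (x, q) ∈ N} ≠ 0) :
    MeasurableSet ((fun x => θ (x, q)) '' {x | (x, q) ∈ N}) ∧
    μ ((fun x => θ (x, q)) '' {x | (x, q) ∈ N}) ≠ 0 ∧
    ∀ E, MeasurableSet E → μ ({x | (x, q) ∈ N} ∩ (fun x => θ (x, q)) ⁻¹' E) / μ {x | (x, q) ∈ N}
      = μ (((fun x => θ (x, q)) '' {x | (x, q) ∈ N}) ∩ E) /
        μ ((fun x => θ (x, q)) '' {x | (x, q) ∈ N}) := by
  have hpr : Measurable (fun x : X => (x, q)) := measurable_prodMk_right
  have hA : MeasurableSet {x | (x, q) ∈ N} := hpr hN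
  have hφ : Measurable (fun x => θ (x, q)) := h.measθ.comp hpr
  have himg : (fun x => θ (x, q)) '' {x | (x, q) ∈ N} =
      {y | η y ∈ N} ∩ {y | (η y).2 = q} ∩ {y | θ (η y) = y} := by
    ext y
    constructor
    · rintro ⟨x, hx, rfl⟩
      have h1 : η (θ (x, q)) = (x, q) := hη' _ hx
      refine ⟨⟨?_, ?_⟩, ?_⟩
      · show η (θ (x, q)) ∈ N
        rw [h1]; exact hx
      · show (η (θ (x, q))).2 = q
        rw [h1]
      · show θ (η (θ (x, q))) = θ (x, q)
        rw [h1]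
    · rintro ⟨⟨h1, h2⟩, h3⟩
      have h2' : (η y).2 = q := h2
      have h4 : ((η y).1, q) = η y := by rw [← h2']
      refine ⟨(η y).1, ?_, ?_⟩
      · show ((η y).1, q) ∈ N
        rw [h4]; exact h1
      · show θ ((η y).1, q) = y
        rw [h4]; exact h3
  have hA' : MeasurableSet ((fun x => θ (x, q)) '' {x | (x, q) ∈ N}) := by
    rw [himg]
    refine ((hη hN).inter ?_).inter ?_
    · exact (measurable_snd.comp hη) (measurableSet_singleton q)
    · exact measurableSet_eq_fun (h.measθ.comp hη) measurable_id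
  have key : ∀ E, MeasurableSet E → μ ({x | (x, q) ∈ N} ∩ (fun x => θ (x, q)) ⁻¹' E) =
      (μ.prod (Measure.count : Measure ℚ)) B *
        μ (((fun x => θ (x, q)) '' {x | (x, q) ∈ N}) ∩ E) := by
    intro E hE
    rw [← h.push _ (hA'.inter hE)]
    have h1 : (μ.prod (Measure.count : Measure ℚ))
        (B ∩ θ ⁻¹' (((fun x => θ (x, q)) '' {x | (x, q) ∈ N}) ∩ E)) =
        (μ.prod (Measure.count : Measure ℚ))
        (N ∩ θ ⁻¹' (((fun x => θ (x, q)) '' {x | (x, q) ∈ N}) ∩ E)) := by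
      have hsub : B ∩ θ ⁻¹' (((fun x => θ (x, q)) '' {x | (x, q) ∈ N}) ∩ E) ⊆
          (N ∩ θ ⁻¹' (((fun x => θ (x, q)) '' {x | (x, q) ∈ N}) ∩ E)) ∪ (B \ N) := by
        rintro w ⟨hw1, hw2⟩
        by_cases hwN : w ∈ N
        · exact Or.inl ⟨hwN, hw2⟩
        · exact Or.inr ⟨hw1, hwN⟩
      refine le_antisymm ((measure_mono hsub).trans ((measure_union_le _ _).trans ?_))
        (measure_mono (inter_subset_inter_left _ hNB))
      rw [hN0, add_zero]
    have h2 : N ∩ θ ⁻¹' (((fun x => θ (x, q)) '' {x | (x, q) ∈ N}) ∩ E) =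
        ({x | (x, q) ∈ N} ∩ (fun x => θ (x, q)) ⁻¹' E) ×ˢ {q} := by
      ext ⟨x, r⟩
      constructor
      · rintro ⟨hw, ⟨x', hx', hxx⟩, hwE⟩
        have h3 : η (θ (x', q)) = (x', q) := hη' _ hx'
        have h4 : η (θ (x, r)) = (x, r) := hη' _ hw
        have h5 : θ (x', q) = θ (x, r) := hxx
        rw [h5, h4] at h3
        have h6 : r = q := congrArg Prod.snd h3
        subst h6
        exact ⟨⟨hw, hwE⟩, rfl⟩
      · rintro ⟨⟨hx, hxE⟩, hr⟩
        have hr' : r = q := hr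
        subst hr'
        exact ⟨hx, ⟨x, hx, rfl⟩, hxE⟩
    rw [h1, h2, Measure.prod_prod, Measure.count_singleton, mul_one]
  have keyU := key univ MeasurableSet.univ
  rw [preimage_univ, inter_univ, inter_univ] at keyU
  refine ⟨hA', ?_, ?_⟩
  · intro h0
    rw [h0, mul_zero] at keyU
    exact hq keyU
  · intro E hE
    rw [key E hE, keyU, ENNReal.mul_div_mul_left _ _ h.pos h.fin]

end Pool.H110K2
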