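import Pool.Agent.H110K2.Defs
import Pool.Agent.H110K2.P_inv_map

set_option linter.all false

namespace Pool.H110K2
open MeasureTheory Set Filter Topology
open scoped ENNReal NNReal symmDiff


theorem nice_set {X : Type*} [MeasurableSpace X] [StandardBorelSpace X] (μ : Measure X)
    [IsProbabilityMeasure μ] (e : X ≃ᵐ (ℕ → Bool)) (B : Set (X × ℚ)) (θ : X × ℚ → X)
    (h : IsCode (μ.prod (Measure.count : Measure ℚ)) μ B θ) :
    ∃ (η : X → X × ℚ) (N : Set (X × ℚ)) (q : ℚ), Measurable η ∧ MeasurableSet N ∧ N ⊆ B ∧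
      (μ.prod (Measure.count : Measure ℚ)) (B \ N) = 0 ∧ (∀ w ∈ N, η (θ w) = w) ∧
      μ {x | (x, q) ∈ N} ≠ 0 := by
  classical
  obtain ⟨η, hη, hinv⟩ := inv_map e h
  set m := (μ.prod (Measure.count : Measure ℚ)) with hm
  have hM : MeasurableSet {w : X × ℚ | η (θ w) = w} :=
    measurableSet_eq_fun (hη.comp h.measθ) measurable_id
  have hN : MeasurableSet (B ∩ {w : X × ℚ | η (θ w) = w}) := h.measB.inter hM
  have hd : m (B \ (B ∩ {w : X × ℚ | η (θ w) = w})) = 0 := by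
    refine measure_mono_null ?_ (ae_iff.1 hinv)
    intro w hw hh
    exact hw.2 ⟨hw.1, hh hw.1⟩
  have hNpos : m (B ∩ {w : X × ℚ | η (θ w) = w}) ≠ 0 := by
    intro h0
    apply h.pos
    have h1 : m B ≤ m (B ∩ {w : X × ℚ | η (θ w) = w}) + m (B \ (B ∩ {w : X × ℚ | η (θ w) = w})) := by
      refine (measure_mono ?_).trans (measure_union_le _ _)
      intro w hw
      by_cases hh : w ∈ B ∩ {w : X × ℚ | η (θ w) = w}
      · exact Or.inl hh
      · exact Or.inr ⟨hw, hh⟩
    rw [h0, hd, add_zero] at h1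
    exact le_antisymm h1 bot_le
  have hq : ∃ q : ℚ, μ {x | (x, q) ∈ B ∩ {w : X × ℚ | η (θ w) = w}} ≠ 0 := by
    by_contra hcon
    push Not at hcon
    apply hNpos
    rw [hm, Measure.prod_apply_symm hN]
    rw [lintegral_eq_zero_of_ae_eq_zero]
    exact Filter.Eventually.of_forall (fun q => hcon q)
  obtain ⟨q, hq⟩ := hq
  exact ⟨η, B ∩ {w : X × ℚ | η (θ w) = w}, q, hη, hN, Set.inter_subset_left, hd,
    fun w hw => hw.2, hq⟩

end Pool.H110K2
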