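import Pool.Agent.H110K2.Defs
import Pool.Agent.H110K2.P_nice_set
import Pool.Agent.H110K2.P_ind_scale
import Pool.Agent.H110K2.P_ind_conj

set_option linter.all false

namespace Pool.H110K2
open MeasureTheory Set Filter Topology
open scoped ENNReal NNReal symmDiff


theorem ind_main {X : Type*} [MeasurableSpace X] [StandardBorelSpace X] (μ : Measure X)
    [IsProbabilityMeasure μ] [NullSingletonClass μ] (e : X ≃ᵐ (ℕ → Bool)) (T S : X ≃ᵐ X)
    (hT : Ergodic T μ) (B : Set (X × ℚ)) (θ : X × ℚ → X)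
    (h : IsCode (μ.prod (Measure.count : Measure ℚ)) μ B θ)
    (hs : ∀ᵐ v ∂(μ.prod (Measure.count : Measure ℚ)), v ∈ B →
      ∀ k, IsSucc (act T) B v k → θ (act T k v) = S (θ v)) :
    KakutaniEquiv μ T S := by
  obtain ⟨η, N, q, hη, hN, hNB, hN0, hη', hq⟩ := nice_set μ e B θ h
  obtain ⟨hA', hA'0, hsc⟩ := ind_scale μ B θ h η N q hη hN hNB hN0 hη' hq
  have hconj := ind_conj μ T S hT B θ h hs η N q hη hN hNB hN0 hη' hq
  have hA : MeasurableSet {x : X | (x, q) ∈ N} := by
    have h1 : Measurable (fun x : X => (x, q)) := measurable_id.prodMk measurable_const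
    exact h1 hN
  refine ⟨{x | (x, q) ∈ N}, (fun x => θ (x, q)) '' {x | (x, q) ∈ N}, hA, hA', hq, hA'0,
    fun x => θ (x, q), fun y => (η y).1, h.measθ.comp (measurable_id.prodMk measurable_const),
    hη.fst, ?_, ?_, hsc⟩
  · rw [ae_restrict_iff' hA]
    filter_upwards [hconj] with x hx hxA
    refine ⟨⟨x, hxA, rfl⟩, ?_, hx hxA⟩
    show (η (θ (x, q))).1 = x
    rw [hη' (x, q) hxA]
  · rw [ae_restrict_iff' hA']
    refine Filter.Eventually.of_forall ?_
    rintro y ⟨x, hxA, rfl⟩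
    have h1 : η (θ (x, q)) = (x, q) := hη' (x, q) hxA
    constructor
    · show ((η (θ (x, q))).1, q) ∈ N
      rw [h1]; exact hxA
    · show θ ((η (θ (x, q))).1, q) = θ (x, q)
      rw [h1]

end Pool.H110K2
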