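import Pool.Agent.H110K2.Defs
import Pool.Agent.H110K2.P_sep_seq

set_option linter.all false

namespace Pool.H110K2
open MeasureTheory Set Filter Topology
open scoped ENNReal NNReal symmDiff


theorem insep_iff {X : Type*} [MeasurableSpace X] [StandardBorelSpace X] (μ : Measure X)
    [IsProbabilityMeasure μ] (S S' : ErgAut μ) :
    Inseparable S S' ↔ ∀ᵐ x ∂μ, S.1 x = S'.1 x := by
  have hind : Topology.IsInducing (fun (S : ErgAut μ)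
      (EF : {E : Set X // MeasurableSet E} × {E : Set X // MeasurableSet E}) =>
      μ ((S.1 ⁻¹' EF.1.1) ∩ EF.2.1)) := ⟨rfl⟩
  rw [← hind.inseparable_iff, inseparable_iff_eq]
  constructor
  · intro h
    have h' : ∀ E F : Set X, MeasurableSet E → MeasurableSet F →
        μ ((S.1 ⁻¹' E) ∩ F) = μ ((S'.1 ⁻¹' E) ∩ F) := fun E F hE hF =>
      congrFun h (⟨E, hE⟩, ⟨F, hF⟩)
    obtain ⟨D, hD, hsep⟩ := sep_seq (W := X)
    have hj : ∀ j, ∀ᵐ x ∂μ, (S.1 x ∈ D j ↔ S'.1 x ∈ D j) := by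
      intro j
      have m1 : MeasurableSet (S.1 ⁻¹' D j) := S.1.measurable (hD j)
      have m2 : MeasurableSet (S'.1 ⁻¹' D j) := S'.1.measurable (hD j)
      have z1 : μ ((S.1 ⁻¹' D j) ∩ (S'.1 ⁻¹' D j)ᶜ) = 0 := by
        have h1 := h' (D j) ((S.1 ⁻¹' D j) ∩ (S'.1 ⁻¹' D j)ᶜ) (hD j) (m1.inter m2.compl)
        have e1 : (S.1 ⁻¹' D j) ∩ ((S.1 ⁻¹' D j) ∩ (S'.1 ⁻¹' D j)ᶜ)
            = (S.1 ⁻¹' D j) ∩ (S'.1 ⁻¹' D j)ᶜ := by
          ext x; simp only [Set.mem_inter_iff]; tauto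
        have e2 : (S'.1 ⁻¹' D j) ∩ ((S.1 ⁻¹' D j) ∩ (S'.1 ⁻¹' D j)ᶜ) = ∅ := by
          ext x; simp only [Set.mem_inter_iff, Set.mem_compl_iff, Set.mem_empty_iff_false]; tauto
        rw [e1, e2, measure_empty] at h1
        exact h1
      have z2 : μ ((S'.1 ⁻¹' D j) ∩ (S.1 ⁻¹' D j)ᶜ) = 0 := by
        have h1 := h' (D j) ((S'.1 ⁻¹' D j) ∩ (S.1 ⁻¹' D j)ᶜ) (hD j) (m2.inter m1.compl)
        have e1 : (S'.1 ⁻¹' D j) ∩ ((S'.1 ⁻¹' D j) ∩ (S.1 ⁻¹' D j)ᶜ)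
            = (S'.1 ⁻¹' D j) ∩ (S.1 ⁻¹' D j)ᶜ := by
          ext x; simp only [Set.mem_inter_iff]; tauto
        have e2 : (S.1 ⁻¹' D j) ∩ ((S'.1 ⁻¹' D j) ∩ (S.1 ⁻¹' D j)ᶜ) = ∅ := by
          ext x; simp only [Set.mem_inter_iff, Set.mem_compl_iff, Set.mem_empty_iff_false]; tauto
        rw [e1, e2, measure_empty] at h1
        exact h1.symm
      have a1 : ∀ᵐ x ∂μ, x ∉ (S.1 ⁻¹' D j) ∩ (S'.1 ⁻¹' D j)ᶜ := measure_eq_zero_iff_ae_notMem.1 z1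
      have a2 : ∀ᵐ x ∂μ, x ∉ (S'.1 ⁻¹' D j) ∩ (S.1 ⁻¹' D j)ᶜ := measure_eq_zero_iff_ae_notMem.1 z2
      filter_upwards [a1, a2] with x h1 h2
      simp only [Set.mem_inter_iff, Set.mem_compl_iff, Set.mem_preimage] at h1 h2
      tauto
    filter_upwards [ae_all_iff.2 hj] with x hx
    exact hsep _ _ hx
  · intro h
    funext EF
    apply measure_congr
    apply Filter.eventuallyEq_set.2
    filter_upwards [h] with x hx
    simp only [Set.mem_inter_iff, Set.mem_preimage, hx]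

end Pool.H110K2
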