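import Pool.Agent.H110K2.Defs

set_option linter.all false

namespace Pool.H110K2
open MeasureTheory Set Filter Topology
open scoped ENNReal NNReal symmDiff


theorem quot_borel {Y : Type*} [TopologicalSpace Y] (s : Set Y)
    (hs : MeasurableSet[borel Y] s) :
    MeasurableSet[borel (SeparationQuotient Y)] (SeparationQuotient.mk '' s) := by
  have h1 : borel Y = (borel (SeparationQuotient Y)).comap SeparationQuotient.mk := by
    have h2 := borel_comap (f := (SeparationQuotient.mk : Y → SeparationQuotient Y))
      (t := (inferInstance : TopologicalSpace (SeparationQuotient Y)))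
    rw [← h2]
    congr 1
    exact (SeparationQuotient.isInducing_mk (X := Y)).eq_induced
  rw [h1] at hs
  obtain ⟨V, hV, rfl⟩ := hs
  rw [Set.image_preimage_eq _ SeparationQuotient.surjective_mk]
  exact hV

end Pool.H110K2
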